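import Pool.Agent.Run7.h782.WQ.Defs2

/-!
Necessity for all exponents: the initial values of very weak solutions in `L² L^(2p)` are `P div R`
with `R ∈ L^p`. Definitions and statements of the pieces.
-/

set_option autoImplicit false

open MeasureTheory Set Filter Topology
open scoped ContDiff ENNReal ComplexConjugate

namespace Pool.Agent.Run7.h782.WQ

open H459R3.NS Pool.Agent.Run7.h782 Pool.Agent.Run7.h782.GD Pool.Agent.Run7.h782.GS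
open Pool.Agent.Run7.h782.WS Pool.Agent.Run7.h969.GG Pool.Agent.Run7.h744.WS
open Pool.Agent.Run7.h969.WS

/-- Bounded measurable functions on the period cell. -/
structure BM (g : V → ℝ) : Prop where
  meas : AEStronglyMeasurable g (volume.restrict cube)
  bd : ∃ M : ℝ, ∀ x ∈ cube, |g x| ≤ M

/-- **Piece HeatK.** The heat semigroup on bounded functions on the torus. The kernel is the product
of three functions `∑ m, exp (-4 π² m² t) cos (2 π m x)`, positive by the functional equation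
(`HurwitzZeta.evenKernel`, `cosKernel`). -/
def StmHeatK : Prop :=
  (∀ g, BM g → ContDiffOn ℝ ∞ (fun z : ℝ × V => heat z.1 g z.2) (Ioi 0 ×ˢ univ)) ∧
  (∀ g, BM g → ∀ t, 0 < t → Per (heat t g)) ∧
  (∀ g, BM g → ∀ t, 0 < t → ∀ x,
    HasDerivAt (fun s => heat s g x) (∑ j, pd j (pd j (heat t g)) x) t) ∧
  (∀ g, BM g → ∀ a : ℝ, (∀ x ∈ cube, a ≤ g x) → ∀ t, 0 < t → ∀ x, a ≤ heat t g x) ∧
  (∀ g, BM g → ∀ t, 0 < t → ∀ p : ℝ, 1 ≤ p →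
    ∫ x in cube, |heat t g x| ^ p ≤ ∫ x in cube, |g x| ^ p) ∧
  (∀ g g', BM g → BM g' → ∀ t, 0 < t → ∀ x,
    heat t (fun y => g y - g' y) x = heat t g x - heat t g' x) ∧
  ∀ g, BM g → ∀ t, 0 < t → ∀ k, fr (heat t g) k
    = (Real.exp (-(4 * Real.pi ^ 2 * GD.sq k * t)) : ℂ) * fr g k

/-- **Piece SqF** (square function estimate, from HeatK). For `g ≥ ε > 0` and `w = e^(tΔ) g`:
`d/dt ∫ w^p = - p (p - 1) ∫ w^(p-2) |∇w|²`, and by Hölder's inequality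
`|∇w|_p² ≤ C (∫ w^(p-2) |∇w|²) |w|_p^(2-p)`. Then `g = (g⁺ + ε) - (g⁻ + ε)`, `ε → 0`. -/
def StmSqF : Prop := ∀ p : ℝ, 1 < p → p ≤ 2 → ∃ C : ℝ, 0 < C ∧ ∀ g, BM g → ∀ a b : ℝ, 0 < a →
  a ≤ b → ∫ t in a..b, (∫ x in cube, ∑ j, |pd j (heat t g) x| ^ p) ^ (2 / p)
    ≤ C * (∫ x in cube, |g x| ^ p) ^ (2 / p)

/-- Space-time functions on `(0, T) × cell`, square integrable. -/
structure W2 (T : ℝ) (w : ℝ → V → ℝ) : Prop where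
  meas : AEStronglyMeasurable (fun z : ℝ × V => w z.1 z.2) (volume.restrict (Ioo 0 T ×ˢ cube))
  sq : IntegrableOn (fun z : ℝ × V => w z.1 z.2 ^ 2) (Ioo 0 T ×ˢ cube)

/-- **Piece NecA** (from HeatK, SqF; `f = ∫ χ t ∂ j e^(ν t Δ) w t dt`). The function `f` exists in
`L²` by Bessel and Riesz-Fischer; for `q ≥ 2`, `q' = q / (q - 1)`,
`∫ f g = -∫ χ t ∫ w t (∂ j e^(ν t Δ) g) ≤ C |w|_(L² L^q) |g|_q'` for bounded `g`; take
`g = |f| ^ (q - 2) f` where `|f| ≤ M`, and `M → ∞`. -/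
def StmNecA : Prop := ∀ (ν T : ℝ), 0 < ν → 0 < T → ∀ w : ℝ → V → ℝ, W2 T w → ∀ χ : ℝ → ℝ,
  Continuous χ → ∀ j : Fin 3, ∃ f : V → ℝ, Per f ∧ IntegrableOn f cube ∧
    (∀ k, fr f k = ∫ t in Ioo 0 T, (χ t * Real.exp (-(lam ν k * t)) : ℂ)
      * (2 * Real.pi * Complex.I * (k j : ℂ)) * fr (w t) k) ∧
    ∀ q : ℝ, 2 ≤ q → (∫⁻ t in Ioo 0 T, (∫⁻ x in cube, ENNReal.ofReal (|w t x| ^ q)) ^ (2 / q) ≠ ⊤) →
      IntegrableOn (fun x => |f x| ^ q) cube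

/-- **Piece NecB** (from HeatK; `f = ∫ χ t e^(ν t Δ) g t dt`; Minkowski's inequality for integrals,
or duality with bounded functions and the contractivity). -/
def StmNecB : Prop := ∀ (ν T : ℝ), 0 < ν → 0 < T → ∀ g : ℝ → V → ℝ,
  IntegrableOn (fun z : ℝ × V => g z.1 z.2) (Ioo 0 T ×ˢ cube) → ∀ χ : ℝ → ℝ,
  Continuous χ → ∃ f : V → ℝ, Per f ∧ IntegrableOn f cube ∧
    (∀ k, fr f k = ∫ t in Ioo 0 T, (χ t * Real.exp (-(lam ν k * t)) : ℂ) * fr (g t) k) ∧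
    ∀ p : ℝ, 1 ≤ p → (∫⁻ t in Ioo 0 T, (∫⁻ x in cube, ENNReal.ofReal (|g t x| ^ p)) ^ (1 / p) ≠ ⊤) →
      IntegrableOn (fun x => |f x| ^ p) cube

/-- `u` is in `L²((0, T); L^q)`. -/
def InLq (T : ℝ) (u : ℝ → V → V) (q : ℝ) : Prop :=
  ∫⁻ t in Ioo 0 T, (∫⁻ x in cube, ENNReal.ofReal (∑ i, |u t x i| ^ q)) ^ (2 / q) ≠ ⊤

/-- **Piece NecQ** (from NecA, NecB). With the test functions `χ t e^(-λ t) ξ e^(-2 π i k · x)`,
`ξ · k = 0`: `c k = ∫ (2 λ χ - χ') e^(-λ t) (P u)^ k + ∫ χ e^(-λ t) (P div (u ⊗ u))^ k`;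
`2 λ û = P div` of a multiple of `∇u + ∇uᵀ`, and the term with `χ'` is smooth. -/
def StmNecQ : Prop := ∀ (ν : ℝ), 0 < ν → ∀ c : Cf, Dis c → ∀ T : ℝ, 0 < T → ∀ u : ℝ → V → V,
  VW ν T c u → ∃ R : Fin 3 → Fin 3 → V → ℝ, Str R ∧ IsDiv R c ∧
    ∀ p : ℝ, 1 ≤ p → InLq T u (2 * p) → ∀ i j, IntegrableOn (fun x => |R i j x| ^ p) cube

/-- **The theorem.** Let `Q n ≥ 1` be a sequence of exponents. The initial values of very weak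
solutions in `L² L^(2 Q n)` for all `n` are exactly the `P div R` with `R ∈ L^(Q n)` for all `n`,
and each of them has such solutions which are smooth for `t > 0`, and which are strong limits of
global smooth solutions. -/
def StmFull : Prop := ∀ (ν : ℝ), 0 < ν → ∀ c : Cf, Dis c → ∀ Q : ℕ → ℝ, (∀ n, 1 ≤ Q n) →
  ((∃ T : ℝ, 0 < T ∧ ∃ u : ℝ → V → V, VW ν T c u ∧ ∀ n, InLq T u (2 * Q n)) ↔
    ∃ R : Fin 3 → Fin 3 → V → ℝ, Str R ∧ IsDiv R c ∧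
      ∀ n i j, IntegrableOn (fun x => |R i j x| ^ Q n) cube) ∧
  ∀ R : Fin 3 → Fin 3 → V → ℝ, Str R → IsDiv R c →
  (∀ n i j, IntegrableOn (fun x => |R i j x| ^ Q n) cube) → ∀ (U : ℝ → V → V) (P : ℝ → V → ℝ),
  (∀ T, IsSol ν T U P) → (∀ i, ((∫ x in cube, U 0 x i : ℝ) : ℂ) = c 0 i) →
  ∀ φ : ℝ → ℝ, Gauge φ → ∀ δ : ℝ, 0 < δ →
  ∃ (u : ℝ → V → V) (p : ℝ → V → ℝ), OSol ν u p ∧ (∀ T : ℝ, 0 < T → VW ν T c u) ∧
    (∀ T : ℝ, 0 < T → ∀ n, InLq T u (2 * Q n)) ∧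
    (∀ (i : Fin 3) (ψ : V → ℝ), ContDiff ℝ ∞ ψ → Per ψ →
      Tendsto (fun t => ∫ x in cube, u t x i * ψ x) (𝓝[>] 0) (𝓝 (pr c i ψ))) ∧
    (∃ h : ℝ → ℝ, (∀ t, 0 < t → ∀ x i, |u t x i| ≤ h t) ∧
      Tendsto (fun t => Real.sqrt t * h t) (𝓝[>] 0) (𝓝 0) ∧
      IntegrableOn (fun t => φ (Real.sqrt t * h t) / t) (Ioc 0 1)) ∧
    ((Summable fun k => ‖c k‖) → ∀ i,
      Tendsto (fun t => besG φ (fun x => u t x i - (S (fun k => c k i) x).re)) (𝓝[>] 0) (𝓝 0)) ∧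
    (∃ (v : ℕ → ℝ → V → V) (q : ℕ → ℝ → V → ℝ) (e : ℕ → ℝ), LimP ν c u v q e) ∧
    ∀ t, δ ≤ t → ∀ x i, |u t x i - U t x i| ≤ δ

end Pool.Agent.Run7.h782.WQ
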