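import Pool.Agent.Run7.h782.WQ.Defs3

/-!
Strong attainment of the initial values, and strong convergence of the approximating global smooth
solutions. Definitions and statements of the pieces.
-/

set_option autoImplicit false

open MeasureTheory Set Filter Topology
open scoped ContDiff ENNReal ComplexConjugate

namespace Pool.Agent.Run7.h782.WQ

open H459R3.NS Pool.Agent.Run7.h782 Pool.Agent.Run7.h782.GD Pool.Agent.Run7.h782.GS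
open Pool.Agent.Run7.h782.WS Pool.Agent.Run7.h969.GG Pool.Agent.Run7.h744.WS
open Pool.Agent.Run7.h969.WS

/-- The distributions with the coefficients `c` and `d` have the same mean and differ by `P div R`
with `∫ |R i j| ^ p ≤ ε`. -/
def Nr (p ε : ℝ) (c d : Cf) : Prop := c 0 = d 0 ∧ ∃ R : Fin 3 → Fin 3 → V → ℝ, Str R ∧
  IsDiv R (fun k => c k - d k) ∧
  ∀ i j, IntegrableOn (fun x => |R i j x| ^ p) cube ∧ ∫ x in cube, |R i j x| ^ p ≤ ε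

/-- **Piece D1S** (`StmD1` with the limit of the approximations: the stress `R` itself, or
`anti c` if `c` is absolutely summable). -/
def StmD1S : Prop := ∀ (c : Cf) (R : Fin 3 → Fin 3 → V → ℝ) (Q : ℕ → ℝ), Herm c → Dv c →
  c 0 = 0 → Str R → IsDiv R c → (∀ n, 1 ≤ Q n) →
  (∀ n i j, IntegrableOn (fun x => |R i j x| ^ Q n) cube) →
  ∃ (r : ℕ → Mf) (R' : Fin 3 → Fin 3 → V → ℝ), DatQ Q c r ∧ Str R' ∧ IsDiv R' c ∧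
    ∀ n i j, IntegrableOn (fun x => |R' i j x| ^ Q n) cube ∧
      Tendsto (fun m => ∫ x in cube, |(S (r m i j) x).re - R' i j x| ^ Q n) atTop (𝓝 0)

/-- `b` is a limit of global smooth solutions `a j`, in `L² L^(2 Q n)` for all `n`; their initial
values are `P div` of `ρ j`, which is close to `r (m j)` in `L^(Q n)` for all `n`. -/
structure LimS (ν : ℝ) (Q : ℕ → ℝ) (c : Cf) (r : ℕ → Mf) (b : ℝ → Cf) (a : ℕ → ℝ → Cf)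
    (e : ℕ → ℝ) : Prop extends LimC ν c b a e where
  lq : ∀ (n : ℕ) (T : ℝ), Tendsto (fun j => ∫⁻ t in Ioc 0 T,
    ENNReal.ofReal (fp (2 * Q n) (fun k => a j t k - b t k) ^ (1 / Q n))) atTop (𝓝 0)
  rep : ∃ (ρ : ℕ → Mf) (m : ℕ → ℕ), (∀ j, Sy (ρ j)) ∧ (∀ j, R1 (ρ j)) ∧
    (∀ j k, dvr (ρ j) k = a j 0 k) ∧ Tendsto m atTop atTop ∧
    ∀ n, Tendsto (fun j => rp (Q n) (ρ j - r (m j))) atTop (𝓝 0)

/-- **Piece IterS** (`StmIterR` with `LimS` instead of `LimC`). -/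
def StmIterS : Prop := ∀ (ν : ℝ), 0 < ν → ∀ U : ℝ → Cf, Tg ν U → ∀ (Q : ℕ → ℝ) (c : Cf)
  (r : ℕ → Mf), DatQ Q c r → ∀ φ : ℝ → ℝ, Gauge φ → ∀ δ : ℝ, 0 < δ →
  ∃ b : ℝ → Cf, (∀ τ : ℝ, 0 < τ → CSol ν (fun t => b (t + τ))) ∧
    (∀ k, Tendsto (fun t => b t k) (𝓝[>] 0) (𝓝 (c k))) ∧
    (∃ C : ℝ, ∀ t, 0 < t → t ≤ 1 → ∀ k, ‖b t k‖ ≤ C * (1 + len k) ^ 2) ∧
    ((Summable fun k => ‖c k‖) →
      Tendsto (fun t => besGC φ (fun k => ‖b t k - c k‖)) (𝓝[>] 0) (𝓝 0)) ∧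
    Tendsto (fun t => Real.sqrt t * ∑' k, ‖b t k‖) (𝓝[>] 0) (𝓝 0) ∧
    IntegrableOn (fun t => φ (Real.sqrt t * ∑' k, ‖b t k‖) / t) (Ioc 0 1) ∧
    (∀ n, IntegrableOn (fun t => fp (2 * Q n) (b t) ^ (1 / Q n)) (Ioc 0 1)) ∧
    IntegrableOn (fun t => ∑' k, ‖b t k‖ ^ 2) (Ioc 0 1) ∧
    (∃ (a : ℕ → ℝ → Cf) (e : ℕ → ℝ), LimS ν Q c r b a e) ∧
    ∀ t, δ ≤ t → ∀ A : Finset K3, ∑ k ∈ A, ‖b t k - U t k‖ ≤ δ

/-- `u` is a limit of global smooth solutions `v j`, in `L² L^(2 Q n)`, and their initial values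
tend to `c` in `P div L^(Q n)`, for all `n`. -/
structure LimT (ν : ℝ) (Q : ℕ → ℝ) (c : Cf) (u : ℝ → V → V) (v : ℕ → ℝ → V → V)
    (q : ℕ → ℝ → V → ℝ) (e : ℕ → ℝ) : Prop extends LimP ν c u v q e where
  lq : ∀ (n : ℕ) (T : ℝ), Tendsto (fun j => ∫⁻ t in Ioo 0 T, (∫⁻ x in cube,
    ENNReal.ofReal (∑ i, |v j t x i - u t x i| ^ (2 * Q n))) ^ (1 / Q n)) atTop (𝓝 0)
  near : ∀ (n : ℕ) (ε : ℝ), 0 < ε → ∀ᶠ j in atTop, Nr (Q n) ε (vf (v j 0)) c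

/-- **Piece InitS** (from IterS, D1S, as `StmInitR`). -/
def StmInitS : Prop := ∀ (ν : ℝ), 0 < ν → ∀ c : Cf, Herm c → Dv c →
  ∀ (R : Fin 3 → Fin 3 → V → ℝ), Str R → IsDiv R c → ∀ Q : ℕ → ℝ, (∀ n, 1 ≤ Q n) →
  (∀ n i j, IntegrableOn (fun x => |R i j x| ^ Q n) cube) → ∀ (U : ℝ → V → V) (P : ℝ → V → ℝ),
  (∀ T, IsSol ν T U P) → (∀ i, ((∫ x in cube, U 0 x i : ℝ) : ℂ) = c 0 i) →
  ∀ φ : ℝ → ℝ, Gauge φ → ∀ δ : ℝ, 0 < δ →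
  ∃ (u : ℝ → V → V) (p : ℝ → V → ℝ), OSol ν u p ∧
    (∀ (T : ℝ) (i : Fin 3),
      IntegrableOn (fun z : ℝ × V => u z.1 z.2 i ^ 2) (Ioc 0 T ×ˢ cube)) ∧
    (∀ n (T : ℝ), IntegrableOn
      (fun t => (∫ x in cube, ∑ i, |u t x i| ^ (2 * Q n)) ^ (1 / Q n)) (Ioc 0 T)) ∧
    (∀ k, Tendsto (fun t => vf (u t) k) (𝓝[>] 0) (𝓝 (c k))) ∧
    (∃ C : ℝ, ∀ t, 0 < t → t ≤ 1 → ∀ k, ‖vf (u t) k‖ ≤ C * (1 + len k) ^ 2) ∧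
    (∃ h : ℝ → ℝ, (∀ t, 0 < t → ∀ x i, |u t x i| ≤ h t) ∧
      Tendsto (fun t => Real.sqrt t * h t) (𝓝[>] 0) (𝓝 0) ∧
      IntegrableOn (fun t => φ (Real.sqrt t * h t) / t) (Ioc 0 1)) ∧
    ((Summable fun k => ‖c k‖) → ∀ i,
      Tendsto (fun t => besG φ (fun x => u t x i - (S (fun k => c k i) x).re)) (𝓝[>] 0) (𝓝 0)) ∧
    (∃ (v : ℕ → ℝ → V → V) (q : ℕ → ℝ → V → ℝ) (e : ℕ → ℝ), LimT ν Q c u v q e) ∧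
    ∀ t, δ ≤ t → ∀ x i, |u t x i - U t x i| ≤ δ

/-- **Piece NecBq** (`StmNecB` with the bound: Minkowski's inequality and contractivity). -/
def StmNecBq : Prop := ∀ (ν T : ℝ), 0 < ν → 0 < T → ∀ g : ℝ → V → ℝ,
  IntegrableOn (fun z : ℝ × V => g z.1 z.2) (Ioo 0 T ×ˢ cube) → ∀ χ : ℝ → ℝ,
  Continuous χ → ∃ f : V → ℝ, Per f ∧ IntegrableOn f cube ∧
    (∀ k, fr f k = ∫ t in Ioo 0 T, (χ t * Real.exp (-(lam ν k * t)) : ℂ) * fr (g t) k) ∧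
    ∀ p : ℝ, 1 ≤ p → (∫⁻ x in cube, ENNReal.ofReal (|f x| ^ p)) ^ (1 / p)
      ≤ ∫⁻ t in Ioo 0 T, ENNReal.ofReal |χ t| *
        (∫⁻ x in cube, ENNReal.ofReal (|g t x| ^ p)) ^ (1 / p)

/-- **Piece HeatC.** Strong continuity of the heat semigroup in `L^p`. -/
def StmHeatC : Prop := ∀ (p : ℝ), 1 ≤ p → ∀ f : V → ℝ, Per f → IntegrableOn f cube →
  IntegrableOn (fun x => |f x| ^ p) cube →
  (∀ t, 0 < t → Continuous (heat t f) ∧ Per (heat t f)) ∧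
  (∀ t, 0 < t → ∀ k, fr (heat t f) k
    = (Real.exp (-(4 * Real.pi ^ 2 * GD.sq k * t)) : ℂ) * fr f k) ∧
  Tendsto (fun t => ∫ x in cube, |heat t f x - f x| ^ p) (𝓝[>] 0) (𝓝 0)

/-- **Piece Strong** (from NecBq, HeatC and the equation for the coefficients). Duhamel's formula:
`u t = P div (e^(ν t Δ) R - ∫₀ᵗ e^(ν (t - s) Δ) (u ⊗ u) s ds)`, up to the mean. -/
def StmStrong : Prop := ∀ (ν : ℝ), 0 < ν → ∀ c : Cf, Herm c → Dv c →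
  ∀ (R : Fin 3 → Fin 3 → V → ℝ), Str R → IsDiv R c → ∀ (u : ℝ → V → V) (p : ℝ → V → ℝ),
  OSol ν u p →
  (∀ (T : ℝ) (i : Fin 3),
    IntegrableOn (fun z : ℝ × V => u z.1 z.2 i ^ 2) (Ioc 0 T ×ˢ cube)) →
  (∀ k, Tendsto (fun t => vf (u t) k) (𝓝[>] 0) (𝓝 (c k))) →
  ∀ Q : ℝ, 1 ≤ Q → (∀ i j, IntegrableOn (fun x => |R i j x| ^ Q) cube) → InLq 1 u (2 * Q) →
  ∀ ε : ℝ, 0 < ε → ∀ᶠ t in 𝓝[>] 0, Nr Q ε (vf (u t)) c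

/-- **The theorem.** -/
def StmFinal : Prop := ∀ (ν : ℝ), 0 < ν → ∀ c : Cf, Dis c → ∀ Q : ℕ → ℝ, (∀ n, 1 ≤ Q n) →
  ((∃ T : ℝ, 0 < T ∧ ∃ u : ℝ → V → V, VW ν T c u ∧ ∀ n, InLq T u (2 * Q n)) ↔
    ∃ R : Fin 3 → Fin 3 → V → ℝ, Str R ∧ IsDiv R c ∧
      ∀ n i j, IntegrableOn (fun x => |R i j x| ^ Q n) cube) ∧
  ∀ R : Fin 3 → Fin 3 → V → ℝ, Str R → IsDiv R c →
  (∀ n i j, IntegrableOn (fun x => |R i j x| ^ Q n) cube) → ∀ (U : ℝ → V → V) (P : ℝ → V → ℝ),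
  (∀ T, IsSol ν T U P) → (∀ i, ((∫ x in cube, U 0 x i : ℝ) : ℂ) = c 0 i) →
  ∀ φ : ℝ → ℝ, Gauge φ → ∀ δ : ℝ, 0 < δ →
  ∃ (u : ℝ → V → V) (p : ℝ → V → ℝ), OSol ν u p ∧ (∀ T : ℝ, 0 < T → VW ν T c u) ∧
    (∀ T : ℝ, 0 < T → ∀ n, InLq T u (2 * Q n)) ∧
    (∀ (i : Fin 3) (ψ : V → ℝ), ContDiff ℝ ∞ ψ → Per ψ →
      Tendsto (fun t => ∫ x in cube, u t x i * ψ x) (𝓝[>] 0) (𝓝 (pr c i ψ))) ∧
    (∀ (n : ℕ) (ε : ℝ), 0 < ε → ∀ᶠ t in 𝓝[>] 0, Nr (Q n) ε (vf (u t)) c) ∧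
    (∃ h : ℝ → ℝ, (∀ t, 0 < t → ∀ x i, |u t x i| ≤ h t) ∧
      Tendsto (fun t => Real.sqrt t * h t) (𝓝[>] 0) (𝓝 0) ∧
      IntegrableOn (fun t => φ (Real.sqrt t * h t) / t) (Ioc 0 1)) ∧
    ((Summable fun k => ‖c k‖) → ∀ i,
      Tendsto (fun t => besG φ (fun x => u t x i - (S (fun k => c k i) x).re)) (𝓝[>] 0) (𝓝 0)) ∧
    (∃ (v : ℕ → ℝ → V → V) (q : ℕ → ℝ → V → ℝ) (e : ℕ → ℝ), LimT ν Q c u v q e) ∧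
    ∀ t, δ ≤ t → ∀ x i, |u t x i - U t x i| ≤ δ

end Pool.Agent.Run7.h782.WQ
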