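import Pool.Agent.Run7.h782.GD.Bas
import Pool.Agent.Run7.h969.WS.GDefs

/-!
Weak solutions which are smooth for positive times: all data `P div R`, `R ∈ L¹` (no other datum
has a very weak solution in `L²`), and the norms of `L² L^q`, `q < ∞`. Definitions and statements
of the pieces.

The profile of the waves is concentrated by the factor `κ = 4 ^ (-j)` at the stage `j`. If `r` is
the stress which has to be produced, the new stress is the antidivergence `r'` of the waves, and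
`∫ |r'| ^ p ≤ C p ν^(p/2) κ^(1 - p/2) ∫ |r| ^ (p/2)` for ALL `p > 0`; `m > p` stages together give a
factor at most `C κ ^ (m - p)`, so all these norms decay faster than `4 ^ (-e j)` for every `e`.
-/

set_option autoImplicit false

open MeasureTheory Set Filter Topology
open scoped ContDiff ENNReal ComplexConjugate

namespace Pool.Agent.Run7.h782.WQ

open H459R3.NS Pool.Agent.Run7.h782 Pool.Agent.Run7.h782.GD Pool.Agent.Run7.h782.GS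
open Pool.Agent.Run7.h782.WS Pool.Agent.Run7.h969.GG Pool.Agent.Run7.h744.WS
open Pool.Agent.Run7.h969.WS

/-- Matrices of families of coefficients. -/
abbrev Mf := Fin 3 → Fin 3 → K3 → ℂ

/-- Coefficients of symmetric real matrix fields. -/
structure Sy (r : Mf) : Prop where
  sym : ∀ i j k, r i j k = r j i k
  herm : ∀ i j k, r i j (-k) = conj (r i j k)

/-- The pointwise norm of a matrix field. -/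
noncomputable def rn (r : Mf) (x : V) : ℝ := ∑ i, ∑ j, ‖S (r i j) x‖

/-- The integral of the power `p` of the norm of a matrix field. -/
noncomputable def rp (p : ℝ) (r : Mf) : ℝ := ∫ x in cube, rn r x ^ p

/-- The sum norm of a matrix field. -/
noncomputable def rN (r : Mf) : ℝ := ∑ i, ∑ j, ∑' k, ‖r i j k‖

/-- Absolutely summable matrix fields. -/
def R1 (r : Mf) : Prop := ∀ i j, Summable fun k => ‖r i j k‖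

/-- The pointwise norm of a field. -/
noncomputable def fn (c : Cf) (x : V) : ℝ := ∑ i, ‖S (fun k => c k i) x‖

/-- The integral of the power `p` of the norm of a field. -/
noncomputable def fp (p : ℝ) (c : Cf) : ℝ := ∫ x in cube, fn c x ^ p

/-- The coefficients of the divergence free part of the divergence of a matrix field. -/
noncomputable def dvr (r : Mf) (k : K3) : C3 :=
  (2 * Real.pi * Complex.I : ℂ) • prj k (fun i => ∑ j, (k j : ℂ) * r i j k)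

/-- **Piece Q0.** Elementary properties. -/
def StmQ0 : Prop :=
  (∀ (p : ℝ) (r r' : Mf), 0 < p → R1 r → R1 r' → rp p (r + r') ≤ 2 ^ p * (rp p r + rp p r')) ∧
  (∀ (p : ℝ) (r : Mf), 0 < p → R1 r → rp p r ≤ rN r ^ p) ∧
  (∀ (p q : ℝ) (r : Mf), 0 < p → p ≤ q → R1 r → rp p r ≤ rp q r ^ (p / q)) ∧
  (∀ (p q : ℝ) (r : Mf), 0 < p → p ≤ q → R1 r → rp p r ≤ 1 + rp q r) ∧
  (∀ (p : ℝ) (r : Mf), 0 < p → R1 r → ∀ θ : ℝ, 0 < θ → ∃ η : ℝ, 0 < η ∧ ∀ r' : Mf, R1 r' →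
    rN (r' - r) ≤ η → rp p r' ≤ rp p r + θ) ∧
  (∀ (p : ℝ) (c : Cf), 0 < p → L1 c → fp p c ≤ (3 * ∑' k, ‖c k‖) ^ p) ∧
  (∀ (q : ℝ) (c d : Cf), 1 ≤ q → L1 c → L1 d →
    fp q (c + d) ^ (1 / q) ≤ fp q c ^ (1 / q) + fp q d ^ (1 / q)) ∧
  (∀ (q : ℝ) (c : Cf), 0 < q → L1 c → ∀ c' : ℕ → Cf, (∀ m, L1 (c' m)) →
    Tendsto (fun m => ∑' k, ‖c' m k - c k‖) atTop (𝓝 0) →
    Tendsto (fun m => fp q (c' m)) atTop (𝓝 (fp q c))) ∧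
  (∀ c : Cf, (Summable fun k => ‖c k‖ / len k) → R1 (anti c) ∧
    rN (anti c) ≤ 18 * ∑' k, ‖c k‖ / len k) ∧
  (∀ c : Cf, Herm c → Sy (anti c)) ∧
  ∀ c : Cf, Dv c → c 0 = 0 → dvr (anti c) = c

/-- **Piece GeoQ** (geometric decomposition, as `StmGeo`, with pointwise bounds of the nine
profiles). -/
def StmGeoQ : Prop := ∃ C : ℝ, 0 < C ∧ ∀ (Z : Finset K3) (r : Mf),
  (∀ i j, ∀ k ∉ Z, r i j k = 0) → Sy r → ∀ θ : ℝ, 0 < θ →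
  ∃ (J : ℕ) (n : Fin J → K3) (s : Fin J → Cf) (P : Finset K3), 0 < J ∧ J ≤ 9 ∧
    (∀ j, n j ≠ 0) ∧ (∀ j, ∀ p ∉ P, s j p = 0) ∧ (∀ j, Herm (s j)) ∧
    (∀ j p, kd (n j) (s j p) = 0) ∧
    (∀ j x, fn (s j) x ^ 2 ≤ C * (rn r x + θ)) ∧
    ∀ B : Finset K3, ∑ k ∈ B, ‖dvr r k - ∑ j, nl (s j) (s j) k‖ / len k ≤ θ

/-- **Piece ConcQ** (from `exists_X` of `h980/WS/Cos`; `s' = X (H n · x) s`, `H` large; `decouple`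
for the integrals, as in `h980/WS/Conc` for `nl`: the frequency `0` of `X²` has the coefficient
`∑ ‖a m‖ ^ 2 = 1`, the frequencies `m H n`, `m ≠ 0`, give bounded coefficients at large
frequencies). -/
def StmConcQ : Prop := ∃ C : ℝ → ℝ, (∀ p, 0 < C p) ∧ ∀ κ : ℝ, 0 < κ → κ ≤ 1 → ∀ E : Finset ℝ,
  (∀ p ∈ E, 0 < p) → ∀ (n : K3) (s : Cf) (P : Finset K3), n ≠ 0 → (∀ p ∉ P, s p = 0) →
  Herm s → (∀ p, kd n (s p) = 0) → ∀ θ : ℝ, 0 < θ →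
  ∃ (s' : Cf) (P' : Finset K3), (∀ p ∉ P', s' p = 0) ∧ Herm s' ∧ (∀ p, kd n (s' p) = 0) ∧
    (∀ p ∈ E, fp p s' ≤ C p * κ ^ (1 - p / 2) * fp p s + θ) ∧
    ∀ B : Finset K3, ∑ k ∈ B, ‖nl s' s' k - nl s s k‖ / len k ≤ θ

/-- **Piece ProfQ** (from GeoQ, ConcQ, Q0). -/
def StmProfQ : Prop := ∃ C : ℝ → ℝ, (∀ p, 0 < C p) ∧ ∀ κ : ℝ, 0 < κ → κ ≤ 1 →
  ∀ E : Finset ℝ, (∀ p ∈ E, 0 < p) → ∀ (Z : Finset K3) (r : Mf),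
  (∀ i j, ∀ k ∉ Z, r i j k = 0) → Sy r → ∀ θ : ℝ, 0 < θ →
  ∃ (J : ℕ) (n : Fin J → K3) (s : Fin J → Cf) (P : Finset K3), 0 < J ∧ J ≤ 9 ∧
    (∀ j, n j ≠ 0) ∧ (∀ j, ∀ p ∉ P, s j p = 0) ∧ (∀ j, Herm (s j)) ∧
    (∀ j p, kd (n j) (s j p) = 0) ∧
    (∀ p ∈ E, ∑ j, fp p (s j) ≤ C p * κ ^ (1 - p / 2) * rp (p / 2) r + θ) ∧
    ∀ B : Finset K3, ∑ k ∈ B, ‖dvr r k - ∑ j, nl (s j) (s j) k‖ / len k ≤ θ

/-- **Piece Kh** (Khinchine). -/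
def StmKh : Prop := ∃ C : ℝ → ℝ, (∀ p, 0 < C p) ∧ ∀ (N : ℕ), 0 < N → ∀ p : ℝ, 0 < p →
  ∫ y in Icc (0 : Fin N → ℝ) 1, |(∑ l, Real.sin (2 * Real.pi * y l)) / Real.sqrt N| ^ p ≤ C p

/-- **Piece AlWQ** (from Kh and `decouple`, as `StmAlW`). The antidivergence of `N` layers of
waves. For fixed `x` the integral over the phases of
`(∑ j, |s j x| |N^(-1/2) ∑ l, sin (2 π y j l)|) ^ p` is at most `J ^ p ∑ j, |s j x| ^ p C p`. -/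
def StmAlWQ : Prop := ∃ C : ℝ → ℝ, (∀ p, 0 < C p) ∧ ∀ (J N : ℕ) (n : Fin J → K3)
  (s : Fin J → Cf) (P : Finset K3), 0 < N → J ≤ 9 → (∀ j, n j ≠ 0) →
  (∀ j, ∀ p ∉ P, s j p = 0) → (∀ j, Herm (s j)) → (∀ j p, kd (n j) (s j p) = 0) →
  ∀ p : ℝ, 0 < p → ∀ δ : ℝ, 0 < δ → ∀ᶠ K : ℕ in atTop,
    rp p (anti (∑ j : Fin J, ∑ l : Fin N,
      (((K ^ ((j : ℕ) + J * l + 1) : ℕ) * len (n j) / Real.sqrt N : ℝ) : ℂ) •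
        wv (K ^ ((j : ℕ) + J * l + 1)) (n j) (s j)))
      ≤ C p * (∑ j, fp p (s j)) + δ

/-- **Piece AppQ** (`StmAppP` with two more clauses; from AlWQ). -/
def StmAppQ : Prop := ∃ C : ℝ → ℝ, (∀ p, 0 < C p) ∧ ∀ (ν : ℝ), 0 < ν →
  ∀ E : Finset ℝ, (∀ p ∈ E, 0 < p) → ∀ (J : ℕ) (n : Fin J → K3)
  (s : Fin J → Cf) (P : Finset K3), 0 < J → J ≤ 9 → (∀ j, n j ≠ 0) →
  (∀ j, ∀ p ∉ P, s j p = 0) → (∀ j, Herm (s j)) → (∀ j p, kd (n j) (s j p) = 0) →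
  ∃ H : ℝ, ∀ δ : ℝ, 0 < δ →
  ∃ (B : Finset K3) (v F : ℝ → Cf) (g h : ℝ → ℝ) (w : Cf), Appr ν B v F ∧ Continuous g ∧
    (∀ t, 0 ≤ t → ∑ k ∈ B, ‖F t k‖ / len k ≤ g t) ∧
    (∀ T, 0 ≤ T → ∫ t in (0 : ℝ)..T, g t ≤ δ) ∧
    (∀ T, 0 ≤ T → ∫ t in (0 : ℝ)..T, (∑ k ∈ B, ‖v t k‖) ^ 2 ≤ H) ∧
    (∀ T, 0 ≤ T → ∫ t in (0 : ℝ)..T, ∑ k ∈ B, ‖v t k‖ ^ 2
      ≤ C 2 * (∑ j, ∑ p ∈ P, ‖s j p‖ ^ 2) + δ) ∧
    (∀ q ∈ E, 2 ≤ q → ∀ T, 0 ≤ T → ∫ t in (0 : ℝ)..T, fp q (v t) ^ (2 / q)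
      ≤ C q * (∑ j, fp q (s j) ^ (2 / q)) + δ) ∧
    (∀ k, v 0 k = ∑ j, nl (s j) (s j) k + w k) ∧ (∀ k ∉ B, w k = 0) ∧
    (∀ p ∈ E, rp p (anti w) ≤ C p * ν ^ (p / 2) * (∑ j, fp p (s j)) + δ) ∧
    Continuous h ∧ (∀ r, 0 < r → h r ≤ δ / Real.sqrt r) ∧
    (∀ T, 0 ≤ T → ∫ r in (0 : ℝ)..T, h r ^ 2 ≤ H) ∧
    (∀ r, 0 ≤ r → ∑ k ∈ B, ht r k * ‖w k‖ ≤ h r) ∧
    (∀ t, 0 ≤ t → ∃ e : K3 → ℝ, (∀ k, 0 ≤ e k) ∧ e 0 = 0 ∧ Summable e ∧ ∑' k, e k / len k ≤ δ ∧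
      ∀ r, 0 ≤ r → ∑ k ∈ B, ht r k * ‖v t k‖
        ≤ (∑ k ∈ B, ht r k * ‖∑ j, nl (s j) (s j) k‖) + h r + ∑' k, ht r k * e k) ∧
    (∀ t, 0 < t → ∑ k ∈ B, ‖v t k‖ ≤ δ / Real.sqrt t) ∧
    (∀ t, 0 < t → ∑ k ∈ B, len k * ‖v t k‖ ≤ δ / t) ∧
    ∀ t, δ ≤ t → ∑ k ∈ B, len k * ‖v t k‖ ≤ δ * Real.exp (-t)

/-- **Piece StepQ** (the step, from ProfQ, AppQ, Q0 and as `StmStepW`). -/
def StmStepQ : Prop := ∃ C : ℝ → ℝ, (∀ p, 0 < C p) ∧ ∀ (ν : ℝ), 0 < ν →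
  ∀ κ : ℝ, 0 < κ → κ ≤ 1 → ∀ E : Finset ℝ, (∀ p ∈ E, 0 < p) → ∀ U : ℝ → Cf, Tg ν U →
  ∀ (Z : Finset K3) (z : Cf), (0 : K3) ∉ Z → (∀ k ∉ Z, z k = 0) → Herm z → Dv z →
  ∀ r : Mf, Sy r → R1 r → (∀ k, dvr r k = z k - U 0 k) →
  ∀ θ : ℝ, 0 < θ → ∃ H : ℝ, ∀ ε : ℝ, 0 < ε →
  ∃ (h : ℝ → ℝ) (a : ℝ → Cf), CSol ν a ∧ Tg ν a ∧
    (∀ p ∈ E, rp p (anti (a 0 - z))
      ≤ C p * ν ^ (p / 2) * κ ^ (1 - p / 2) * rp (p / 2) r + θ) ∧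
    (∀ q ∈ E, 2 ≤ q → ∀ T, 0 ≤ T → ∫ t in (0 : ℝ)..T, fp q (a t - U t) ^ (2 / q)
      ≤ C q * κ ^ (2 / q - 1) * rp (q / 2) r ^ (2 / q) + θ) ∧
    Continuous h ∧ (∀ s, 0 < s → h s ≤ ε / Real.sqrt s) ∧
    (∀ T, 0 ≤ T → ∫ s in (0 : ℝ)..T, h s ^ 2 ≤ H) ∧
    (∃ e : K3 → ℝ, (∀ k, 0 ≤ e k) ∧ e 0 = 0 ∧ Summable e ∧ ∑' k, e k / len k ≤ θ ∧
      ∀ s, 0 ≤ s → ∀ A : Finset K3,
        ∑ k ∈ A, ht s k * ‖a 0 k - z k‖ ≤ h s + ∑' k, ht s k * e k) ∧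
    (∀ t, 0 ≤ t → ∃ e : K3 → ℝ, (∀ k, 0 ≤ e k) ∧ e 0 = 0 ∧ Summable e ∧ ∑' k, e k / len k ≤ θ ∧
      ∀ s, 0 ≤ s → ∀ A : Finset K3, ∑ k ∈ A, ht s k * ‖a t k - U t k‖
        ≤ (∑' k, ht s k * ‖z k - U 0 k‖) + h s + ∑' k, ht s k * e k) ∧
    (∀ t, 0 < t → ∀ A : Finset K3, ∑ k ∈ A, ‖a t k - U t k‖ ≤ ε / Real.sqrt t) ∧
    (∀ T, 0 ≤ T → ∀ A : Finset K3, ∫ t in (0 : ℝ)..T, (∑ k ∈ A, ‖a t k - U t k‖) ^ 2 ≤ H) ∧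
    (∀ T, 0 ≤ T → ∀ A : Finset K3, ∫ t in (0 : ℝ)..T, ∑ k ∈ A, ‖a t k - U t k‖ ^ 2
      ≤ C 2 * (rp 1 r + θ)) ∧
    ∀ t, ε ≤ t → ∀ A : Finset K3, ∑ k ∈ A, ‖a t k - U t k‖ ≤ ε

/-- **Piece RecQ** (abstract recursion). `x j m` is the integral of the power `q / 2 ^ m` at the
stage `j`. For `q / 2 ^ m ≤ 1` the sequence `x j m` is bounded, then downwards in `m`. -/
def StmRecQ : Prop := ∀ (x : ℕ → ℕ → ℝ) (K : ℕ → ℝ) (q : ℝ), 0 < q → (∀ j m, 0 ≤ x j m) →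
  (∀ m, 0 ≤ K m) → (∀ j m m', m ≤ m' → x j m' ≤ 1 + x j m) →
  (∀ m, ∃ n₀ : ℕ, ∀ j, n₀ ≤ j →
    x (j + 1) m ≤ K m * (1 / 4 : ℝ) ^ ((j : ℝ) * (1 - q / 2 ^ (m + 1))) * x j (m + 1)
      + (1 / 4) ^ (j ^ 2)) →
  ∀ e : ℝ, ∃ A : ℝ, ∀ j : ℕ, x j 0 ≤ A * (1 / 4 : ℝ) ^ (e * j)

/-- Data of the iteration: approximations of the stress by trigonometric polynomials `r m`, in
`L^(Q n)` for all `n`. -/
structure DatQ (Q : ℕ → ℝ) (c : Cf) (r : ℕ → Mf) : Prop where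
  one : ∀ n, 1 ≤ Q n
  supp : ∀ m, ∃ Z : Finset K3, ∀ i j, ∀ k ∉ Z, r m i j k = 0
  sy : ∀ m, Sy (r m)
  lim : ∀ k, Tendsto (fun m => dvr (r m) k) atTop (𝓝 (c k))
  cau : ∀ n, ∀ ε : ℝ, 0 < ε → ∃ m₀, ∀ m m', m₀ ≤ m → m₀ ≤ m' → rp (Q n) (r m - r m') ≤ ε
  wie : (Summable fun k => ‖c k‖) →
    Tendsto (fun m => ∑' k, ‖dvr (r m) k - c k‖) atTop (𝓝 0)

/-- **Piece IterQ** (the iteration, from StepQ, RecQ, Q0, `StmLim`, as `StmIterG`). Stage `j`: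
exponents `Q n / 2 ^ m` and `2 Q n` for `n, m ≤ j`, `κ = 4 ^ (-j)`, `z j = dvr (r (m j))` with `m j`
increasing rapidly, stress `(r (m j) - r (m (j - 1))) - anti (a (j - 1) 0 - z (j - 1))`, target
`a (j - 1)`, very small errors `θ j`. -/
def StmIterQ : Prop := ∀ (ν : ℝ), 0 < ν → ∀ U : ℝ → Cf, Tg ν U → ∀ (Q : ℕ → ℝ) (c : Cf)
  (r : ℕ → Mf), DatQ Q c r → ∀ φ : ℝ → ℝ, Gauge φ → ∀ δ : ℝ, 0 < δ →
  ∃ b : ℝ → Cf, (∀ τ : ℝ, 0 < τ → CSol ν (fun t => b (t + τ))) ∧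
    (∀ k, Tendsto (fun t => b t k) (𝓝[>] 0) (𝓝 (c k))) ∧
    (∃ C : ℝ, ∀ t, 0 < t → t ≤ 1 → ∀ k, ‖b t k‖ ≤ C * (1 + len k) ^ 2) ∧
    ((Summable fun k => ‖c k‖) →
      Tendsto (fun t => besGC φ (fun k => ‖b t k - c k‖)) (𝓝[>] 0) (𝓝 0)) ∧
    Tendsto (fun t => Real.sqrt t * ∑' k, ‖b t k‖) (𝓝[>] 0) (𝓝 0) ∧
    IntegrableOn (fun t => φ (Real.sqrt t * ∑' k, ‖b t k‖) / t) (Ioc 0 1) ∧
    (∀ n, IntegrableOn (fun t => fp (2 * Q n) (b t) ^ (1 / Q n)) (Ioc 0 1)) ∧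
    IntegrableOn (fun t => ∑' k, ‖b t k‖ ^ 2) (Ioc 0 1) ∧
    ∀ t, δ ≤ t → ∀ A : Finset K3, ∑ k ∈ A, ‖b t k - U t k‖ ≤ δ

/-- Periodic symmetric matrix fields, integrable on the period cell. -/
structure Str (R : Fin 3 → Fin 3 → V → ℝ) : Prop where
  per : ∀ i j, Per (R i j)
  sym : ∀ i j x, R i j x = R j i x
  int : ∀ i j, IntegrableOn (R i j) cube

/-- The divergence free part of the divergence of `R` has the coefficients `c`, up to the mean. -/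
def IsDiv (R : Fin 3 → Fin 3 → V → ℝ) (c : Cf) : Prop :=
  ∀ k, k ≠ 0 → c k = dvr (fun i j l => fr (R i j) l) k

/-- **Piece D1** (density of the trigonometric polynomials in `L^p`; if `c` is absolutely summable
take `r m = anti` of truncations of `c`). -/
def StmD1 : Prop := ∀ (c : Cf) (R : Fin 3 → Fin 3 → V → ℝ) (Q : ℕ → ℝ), Herm c → Dv c →
  c 0 = 0 → Str R → IsDiv R c → (∀ n, 1 ≤ Q n) →
  (∀ n i j, IntegrableOn (fun x => |R i j x| ^ Q n) cube) → ∃ r : ℕ → Mf, DatQ Q c r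

/-- **Piece InitQ** (from IterQ, D1, as `StmInitG`). -/
def StmInitQ : Prop := ∀ (ν : ℝ), 0 < ν → ∀ c : Cf, Herm c → Dv c →
  ∀ (R : Fin 3 → Fin 3 → V → ℝ), Str R → IsDiv R c → ∀ Q : ℕ → ℝ, (∀ n, 1 ≤ Q n) →
  (∀ n i j, IntegrableOn (fun x => |R i j x| ^ Q n) cube) → ∀ (U : ℝ → V → V) (P : ℝ → V → ℝ),
  (∀ T, IsSol ν T U P) → (∀ i, ((∫ x in cube, U 0 x i : ℝ) : ℂ) = c 0 i) →
  ∀ φ : ℝ → ℝ, Gauge φ → ∀ δ : ℝ, 0 < δ →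
  ∃ (u : ℝ → V → V) (p : ℝ → V → ℝ), OSol ν u p ∧
    (∀ (T : ℝ) (i : Fin 3),
      IntegrableOn (fun z : ℝ × V => u z.1 z.2 i ^ 2) (Ioc 0 T ×ˢ cube)) ∧
    (∀ n (T : ℝ), IntegrableOn
      (fun t => (∫ x in cube, ∑ i, |u t x i| ^ (2 * Q n)) ^ (1 / Q n)) (Ioc 0 T)) ∧
    (∀ k, Tendsto (fun t => vf (u t) k) (𝓝[>] 0) (𝓝 (c k))) ∧
    (∃ C : ℝ, ∀ t, 0 < t → t ≤ 1 → ∀ k, ‖vf (u t) k‖ ≤ C * (1 + len k) ^ 2) ∧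
    (∃ h : ℝ → ℝ, (∀ t, 0 < t → ∀ x i, |u t x i| ≤ h t) ∧
      Tendsto (fun t => Real.sqrt t * h t) (𝓝[>] 0) (𝓝 0) ∧
      IntegrableOn (fun t => φ (Real.sqrt t * h t) / t) (Ioc 0 1)) ∧
    ((Summable fun k => ‖c k‖) → ∀ i,
      Tendsto (fun t => besG φ (fun x => u t x i - (S (fun k => c k i) x).re)) (𝓝[>] 0) (𝓝 0)) ∧
    ∀ t, δ ≤ t → ∀ x i, |u t x i - U t x i| ≤ δ

/-- Coefficients of real divergence free distributions on the torus. -/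
structure Dis (c : Cf) : Prop where
  herm : Herm c
  dv : Dv c
  grow : ∃ (C : ℝ) (m : ℕ), ∀ k, ‖c k‖ ≤ C * (1 + len k) ^ m

/-- Very weak solutions in `L²((0, T) × cell)` with the initial value given by the coefficients
`c`. -/
structure VW (ν T : ℝ) (c : Cf) (u : ℝ → V → V) : Prop where
  meas : ∀ i, AEStronglyMeasurable (fun z : ℝ × V => u z.1 z.2 i)
    (volume.restrict (Ioo 0 T ×ˢ cube))
  sq : ∀ i, IntegrableOn (fun z : ℝ × V => u z.1 z.2 i ^ 2) (Ioo 0 T ×ˢ cube)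
  div : ∀ (χ : ℝ → ℝ) (φ : V → ℝ), ContDiff ℝ ∞ χ → (∀ t, T ≤ t → χ t = 0) →
    ContDiff ℝ ∞ φ → Per φ →
    ∫ z in Ioo 0 T ×ˢ cube, χ z.1 * ∑ i, u z.1 z.2 i * pd i φ z.2 = 0
  weak : ∀ (χ : ℝ → ℝ) (φ : V → V), ContDiff ℝ ∞ χ → (∃ s < T, ∀ t, s ≤ t → χ t = 0) →
    ContDiff ℝ ∞ φ → Per φ → (∀ x, ∑ i, pd i (fun y => φ y i) x = 0) →
    χ 0 * (∑ i, pr c i (fun x => φ x i))
      + ∫ z in Ioo 0 T ×ˢ cube, (deriv χ z.1 * (∑ i, u z.1 z.2 i * φ z.2 i)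
        + χ z.1 * (∑ i, ∑ j, u z.1 z.2 i * u z.1 z.2 j * pd i (fun y => φ y j) z.2
          + ν * ∑ i, u z.1 z.2 i * ∑ j, pd j (pd j (fun y => φ y i)) z.2)) = 0

/-- **Piece Nec** (the heat kernel of the torus is positive). With the test functions
`χ t e^(-λ t) ξ e^(-2 π i k · x)`:
`c k = ∫ (2 λ χ - χ') e^(-λ t) (P u)^ k + ∫ χ e^(-λ t) (P div (u ⊗ u))^ k`; the first term is in
`H⁻¹`, the second one is `P div` of `∫ χ t e^(ν t Δ) (u ⊗ u) t ∈ L¹`. -/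
def StmNec : Prop := ∀ (ν : ℝ), 0 < ν → ∀ c : Cf, Dis c → ∀ T : ℝ, 0 < T → ∀ u : ℝ → V → V,
  VW ν T c u → ∃ R : Fin 3 → Fin 3 → V → ℝ, Str R ∧ IsDiv R c

/-- **Piece VWQ** (from the classical equation for `t > 0`, integration by parts in time, letting
the lower end tend to `0`; compare `StmWkH`). -/
def StmVW : Prop := ∀ (ν : ℝ), 0 < ν → ∀ c : Cf, ∀ (u : ℝ → V → V) (p : ℝ → V → ℝ), OSol ν u p →
  (∀ (T : ℝ) (i : Fin 3),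
    IntegrableOn (fun z : ℝ × V => u z.1 z.2 i ^ 2) (Ioc 0 T ×ˢ cube)) →
  (∀ (i : Fin 3) (φ : V → ℝ), ContDiff ℝ ∞ φ → Per φ →
    Tendsto (fun t => ∫ x in cube, u t x i * φ x) (𝓝[>] 0) (𝓝 (pr c i φ))) →
  ∀ T : ℝ, 0 < T → VW ν T c u

/-- **The theorem.** The initial values of very weak solutions in `L²` of space-time are exactly
the `P div R` with `R ∈ L¹`, and each of them has solutions which are smooth for `t > 0`. -/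
def StmChar : Prop := ∀ (ν : ℝ), 0 < ν → ∀ c : Cf, Dis c →
  ((∃ T : ℝ, 0 < T ∧ ∃ u : ℝ → V → V, VW ν T c u) ↔
    ∃ R : Fin 3 → Fin 3 → V → ℝ, Str R ∧ IsDiv R c) ∧
  ∀ R : Fin 3 → Fin 3 → V → ℝ, Str R → IsDiv R c → ∀ Q : ℕ → ℝ, (∀ n, 1 ≤ Q n) →
  (∀ n i j, IntegrableOn (fun x => |R i j x| ^ Q n) cube) → ∀ (U : ℝ → V → V) (P : ℝ → V → ℝ),
  (∀ T, IsSol ν T U P) → (∀ i, ((∫ x in cube, U 0 x i : ℝ) : ℂ) = c 0 i) →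
  ∀ φ : ℝ → ℝ, Gauge φ → ∀ δ : ℝ, 0 < δ →
  ∃ (u : ℝ → V → V) (p : ℝ → V → ℝ), OSol ν u p ∧ (∀ T : ℝ, 0 < T → VW ν T c u) ∧
    (∀ (i : Fin 3) (ψ : V → ℝ), ContDiff ℝ ∞ ψ → Per ψ →
      Tendsto (fun t => ∫ x in cube, u t x i * ψ x) (𝓝[>] 0) (𝓝 (pr c i ψ))) ∧
    (∀ n (T : ℝ), IntegrableOn
      (fun t => (∫ x in cube, ∑ i, |u t x i| ^ (2 * Q n)) ^ (1 / Q n)) (Ioc 0 T)) ∧
    (∃ h : ℝ → ℝ, (∀ t, 0 < t → ∀ x i, |u t x i| ≤ h t) ∧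
      Tendsto (fun t => Real.sqrt t * h t) (𝓝[>] 0) (𝓝 0) ∧
      IntegrableOn (fun t => φ (Real.sqrt t * h t) / t) (Ioc 0 1)) ∧
    ((Summable fun k => ‖c k‖) → ∀ i,
      Tendsto (fun t => besG φ (fun x => u t x i - (S (fun k => c k i) x).re)) (𝓝[>] 0) (𝓝 0)) ∧
    ∀ t, δ ≤ t → ∀ x i, |u t x i - U t x i| ≤ δ

end Pool.Agent.Run7.h782.WQ
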