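import Pool.Agent.Run7.h782.WQ.Step

/-!
The step, for all data and with all norms: the theorem.
-/

set_option autoImplicit false

open MeasureTheory Set Filter Topology
open scoped ContDiff ComplexConjugate NNReal

namespace Pool.Agent.Run7.h782.WQ

open H459R3.NS Pool.Agent.Run7.h782 Pool.Agent.Run7.h782.GD Pool.Agent.Run7.h782.GS
open Pool.Agent.Run7.h782.WS

theorem stepQ (hT1 : StmT1) (hProf : StmProfQ) (hApp : StmAppQ) (hInt : StmInt) (hQ : StmQ0) :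
    StmStepQ := by
  classical
  obtain ⟨C₁, hC₁, T1⟩ := hT1
  obtain ⟨Cp, hCp, Prof⟩ := hProf
  obtain ⟨Ca, hCa, App⟩ := hApp
  obtain ⟨c, hc, Int⟩ := hInt
  obtain ⟨q1, q2, -, -, q5, q6, q7, -, q9, -, -⟩ := hQ
  have FB : FpB := ⟨q6, q7⟩
  refine ⟨fun p => 2 ^ p * Ca p * Cp p + 27 * Ca p * Cp p ^ (2 / p) + 3 * Ca 2 * (Cp 2 + 1) + 1,
    fun p => ?_, ?_⟩
  · have h1 := hCa p
    have h2 := hCp p
    have h3 := hCa 2
    have h4 := hCp 2
    have h5 : (0 : ℝ) < 2 ^ p := Real.rpow_pos_of_pos two_pos p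
    have h6 : (0 : ℝ) < Cp p ^ (2 / p) := Real.rpow_pos_of_pos h2 _
    positivity
  intro ν hν κ hκ0 hκ1 E hE U hU Z z hZ0 hzs hzh hzd r hrs hr1 hr Θ hΘ
  have hpi := Real.pi_pos
  have hUL : LSol ν U := hU.toLSol
  have hUM : Maj U := hUL.maj
  obtain ⟨M₀, M₁, hM₀, hM₁, hN0U, hN1U⟩ := hU.bounds
  -- the difference of the data
  have hzl : L1 z := L1.of_supp hzs
  have hU0l : L1 (U 0) := hUM.l1 le_rfl
  set y : Cf := z - U 0 with hy
  have hyl : L1 y := hzl.sub hU0l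
  have hz0 : z 0 = 0 := hzs 0 hZ0
  have hy0 : y 0 = 0 := by rw [hy, Pi.sub_apply, hz0, hUL.zero 0 le_rfl, sub_zero]
  have hry : ∀ k, dvr r k = y k := fun k => by rw [hr, hy, Pi.sub_apply]
  have inv0 : ∀ {a : Cf}, L1 a → Summable fun k => ‖a k‖ / len k := fun {a} ha => by
    have := l1_inv ha
    simpa only [← div_eq_inv_mul] using this
  -- the small parameter
  set A1 : ℝ → ℝ := fun p => 2 ^ p * (Ca p * ν ^ (p / 2) * (Cp p * κ ^ (1 - p / 2) + 1)) with hA1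
  set B1 : ℝ → ℝ := fun p => 2 ^ p * 36 ^ p with hB1
  set D1 : ℝ → ℝ := fun p => 27 * Ca p * (Cp p * κ ^ (1 - p / 2) + 1) ^ (2 / p) with hD1
  obtain ⟨θ₁, hθ₁0, hθ₁1, hθ₁⟩ := exists_par hE A1 B1 D1 (show 0 < Θ / 4 by positivity)
  obtain ⟨θ', hθ'0, hθ'1, hθ'2, hθ'3⟩ : ∃ θ' : ℝ, 0 < θ' ∧ θ' ≤ θ₁ ∧ 8 * θ' ≤ Θ ∧
      (Cp 2 + 1) * θ' ≤ (Cp 2 + 1) * Θ := by
    have h2 := hCp 2
    refine ⟨min θ₁ (Θ / 8), by positivity, min_le_left _ _, ?_, ?_⟩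
    · have := min_le_right θ₁ (Θ / 8)
      linarith
    · refine mul_le_mul_of_nonneg_left ?_ (by positivity)
      have := min_le_right θ₁ (Θ / 8)
      linarith
  have ev : ∀ (C ε' : ℝ), 0 < ε' → ∀ᶠ L : ℝ in atTop, L⁻¹ * C ≤ ε' := fun C ε' h => by
    have h1 : Tendsto (fun L : ℝ => L⁻¹ * C) atTop (𝓝 (0 * C)) :=
      tendsto_inv_atTop_zero.mul_const C
    rw [zero_mul] at h1
    exact h1.eventually_le_const h
  -- the truncation of the stress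
  have hsmall : ∀ p : ℝ, 0 < p → ∀ᶠ L : ℝ in atTop, rp p (trm L r) ≤ rp p r + θ' := by
    intro p hp
    obtain ⟨η₀, hη₀, h1⟩ := q5 p r hp hr1 θ' hθ'0
    filter_upwards [(rN_trm hr1).eventually_le_const hη₀] with L hL
    exact h1 _ (r1_trm hr1 L) hL
  have hE2 : ∀ p ∈ insert 2 E, (0 : ℝ) < p := fun p hp => by
    rcases Finset.mem_insert.1 hp with h | h
    · rw [h]
      norm_num
    · exact hE p h
  obtain ⟨L₀, ⟨hL₀0, hL₀⟩, hLr⟩ := (((eventually_gt_atTop (0 : ℝ)).and (ev (N0 y) θ' hθ'0)).and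
    ((eventually_all_finset (insert 2 E)).2 fun p hp => hsmall (p / 2)
      (by have := hE2 p hp; positivity))).exists
  have hNmy : Nm (y - tr L₀ y) ≤ θ' := (Nm_sub_tr_le hyl hL₀0).trans hL₀
  have hyh : Herm y := hzh.sub (hUL.herm 0 le_rfl)
  have hyd : Dv y := hzd.sub (hUL.div 0 le_rfl)
  obtain ⟨J, n, s_, P, hJ0, hJ9, hn0, hsP, hsH, hsn, hsp, hsX'⟩ :=
    Prof κ hκ0 hκ1 (insert 2 E) hE2 (insert 0 (bl L₀)) (trm L₀ r) (fun i j k hk => trm_not hk)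
      (sy_trm hrs L₀) θ' hθ'0
  have hsX : ∀ B : Finset K3, ∑ k ∈ B, ‖tr L₀ y k - ∑ j, nl (s_ j) (s_ j) k‖ / len k ≤ θ' := by
    intro B
    have h1 := hsX' B
    simpa only [dvr_trm hry] using h1
  set q : Cf := fun k => ∑ j, nl (s_ j) (s_ j) k with hq
  have hyt : L1 (y - tr L₀ y) := hyl.sub (l1_tr L₀ y)
  -- the profiles in all norms
  have hprof : ∀ p ∈ insert 2 E, ∑ j, fp p (s_ j)
      ≤ Cp p * κ ^ (1 - p / 2) * (rp (p / 2) r + θ') + θ' := by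
    intro p hp
    refine (hsp p hp).trans (add_le_add ?_ le_rfl)
    have h1 := hCp p
    have h2 : (0 : ℝ) < κ ^ (1 - p / 2) := Real.rpow_pos_of_pos hκ0 _
    exact mul_le_mul_of_nonneg_left (hLr p hp) (by positivity)
  have hS2 : ∑ j, ∑ p ∈ P, ‖s_ j p‖ ^ 2 ≤ (Cp 2 + 1) * (rp 1 r + Θ) := by
    have h1 : ∑ j, ∑ p ∈ P, ‖s_ j p‖ ^ 2 ≤ ∑ j, fp 2 (s_ j) :=
      Finset.sum_le_sum fun j _ => sum_sq_le_fp P (L1.of_supp (hsP j))
    have h2 := hprof 2 (Finset.mem_insert_self _ _)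
    have h3 := rp_nonneg 1 r
    have h4 := hCp 2
    norm_num at h2
    nlinarith
  obtain ⟨H', AppH⟩ := App ν hν E hE J n s_ P hJ0 hJ9 hn0 hsP hsH hsn
  have hH'0 : 0 ≤ H' := by
    obtain ⟨B, v, F, g, h, w, -, -, -, -, h5, -⟩ := AppH 1 one_pos
    simpa using h5 0 le_rfl
  -- the profiles have finite support
  have hqs : ∀ k ∉ Finset.image₂ (fun x y => x + y) P P, q k = 0 := by
    intro k hk
    exact Finset.sum_eq_zero fun j _ => nl_supp (hsP j) hk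
  have hql : L1 q := L1.of_supp hqs
  have hq0 : q 0 = 0 := Finset.sum_eq_zero fun j _ => nl_zero_mode _ _
  -- the error of the datum
  set e₀ : K3 → ℝ := fun k => ‖(tr L₀ y - q) k‖ + ‖(y - tr L₀ y) k‖ with he₀
  have he₀0 : ∀ k, 0 ≤ e₀ k := fun k => by positivity
  have he₀z : e₀ 0 = 0 := by
    simp only [he₀]
    rw [Pi.sub_apply, tr_not (zero_bl L₀), hq0, Pi.sub_apply, hy0, tr_not (zero_bl L₀)]
    simp
  have he₀s : Summable e₀ := Summable.add ((l1_tr L₀ y).sub hql) hyt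
  have hi1 := inv0 ((l1_tr L₀ y).sub hql)
  have hi2 := inv0 hyt
  have he₀d : Summable fun k => e₀ k / len k :=
    (hi1.add hi2).congr fun k => (add_div _ _ _).symm
  have he₀m : ∑' k, e₀ k / len k ≤ 2 * θ' := by
    have h3 : ∑' k, e₀ k / len k
        = ∑' k, ‖(tr L₀ y - q) k‖ / len k + ∑' k, ‖(y - tr L₀ y) k‖ / len k := by
      rw [← hi1.tsum_add hi2]
      exact tsum_congr fun k => add_div _ _ _
    have h4 : ∑' k, ‖(tr L₀ y - q) k‖ / len k ≤ θ' :=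
      Real.tsum_le_of_sum_le (fun k => div_nonneg (norm_nonneg _) (len_nonneg k)) hsX
    have h5 : ∑' k, ‖(y - tr L₀ y) k‖ / len k ≤ θ' := by
      rw [← Nm_eq]
      exact hNmy
    rw [h3]
    linarith
  have hqe' : ∀ k, ‖q k‖ ≤ ‖y k‖ + e₀ k := by
    intro k
    have h1 : q k = y k + (-(tr L₀ y - q) k + -(y - tr L₀ y) k) := by
      rw [Pi.sub_apply, Pi.sub_apply]
      abel
    calc ‖q k‖ = ‖y k + (-(tr L₀ y - q) k + -(y - tr L₀ y) k)‖ := by rw [← h1]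
      _ ≤ ‖y k‖ + (‖-(tr L₀ y - q) k‖ + ‖-(y - tr L₀ y) k‖) :=
          (norm_add_le _ _).trans (add_le_add le_rfl (norm_add_le _ _))
      _ = _ := by rw [norm_neg, norm_neg]
  -- constants
  set K' : ℝ := H' + 1 with hK'
  have hK'0 : 0 < K' := by positivity
  refine ⟨3 * H' + 4, ?_⟩
  intro ε hε
  set MP : ℝ := 36 * (3 * (2 + 4 * (M₀ * M₁))) / ν + 24 * Real.pi * (2 + 2 * M₁) with hMP
  set ε₁ : ℝ := min ε (ε * Real.sqrt ε) with hε₁
  have hsε : 0 < Real.sqrt ε := Real.sqrt_pos.2 hε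
  have hε₁0 : 0 < ε₁ := by positivity
  have hε₁1 : ε₁ ≤ ε := min_le_left _ _
  have hε₁2 : ε₁ ≤ ε * Real.sqrt ε := min_le_right _ _
  set ϰ : ℝ := ε₁ * Real.exp (-MP) / 3 with hϰ
  have hϰ0 : 0 < ϰ := by positivity
  obtain ⟨e₁, he0, he1, he2, he3, he4, he5⟩ : ∃ e₁ : ℝ, 0 < e₁ ∧ e₁ ≤ ν ∧ e₁ ≤ c * ν / 3 ∧
      e₁ ≤ Θ / 162 ∧ e₁ ≤ 1 ∧ e₁ ≤ ϰ * Real.sqrt ν / 2 :=
    ⟨min (min (min ν (c * ν / 3)) (min (Θ / 162) 1)) (ϰ * Real.sqrt ν / 2), by positivity,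
      (min_le_left _ _).trans ((min_le_left _ _).trans (min_le_left _ _)),
      (min_le_left _ _).trans ((min_le_left _ _).trans (min_le_right _ _)),
      (min_le_left _ _).trans ((min_le_right _ _).trans (min_le_left _ _)),
      (min_le_left _ _).trans ((min_le_right _ _).trans (min_le_right _ _)), min_le_right _ _⟩
  set η : ℝ := e₁ / (C₁ * Real.exp (C₁ * (2 * K' + 2 * (M₀ * M₁)) / ν)) with hη
  have hη0 : 0 < η := by positivity
  obtain ⟨L, ⟨⟨⟨⟨⟨⟨⟨hL1, hL2⟩, hL3⟩, hL4⟩, hL5⟩, hL6⟩, hL7⟩, hL8⟩⟩ :=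
    ((((((((eventually_gt_atTop (0 : ℝ)).and (eventually_ge_atTop (∑ k ∈ Z, len k))).and
      (ev (96 * Real.pi * (M₀ * M₁)) (η / 3) (by positivity))).and
      (ev M₀ (Θ / 9) (by positivity))).and (ev (4 * M₀ * (M₁ + 1)) (ϰ ^ 2) (by positivity))).and
      (ev (M₀ * M₁) (1 / 3) (by norm_num))).and (eventually_ge_atTop L₀)).and
      (ev (M₀ * M₁) (Θ / 162) (by positivity))).exists
  have hZL : ∀ k ∈ Z, k ∈ bl L := fun k hk => mem_bl.2
    ⟨fun h => hZ0 (h ▸ hk), (Finset.single_le_sum (f := fun k => len k)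
      (fun k _ => len_nonneg k) hk).trans hL2⟩
  set θ : ℝ := η / (144 * Real.pi * (M₀ + 1)) with hθ
  have hθ0 : 0 < θ := by positivity
  obtain ⟨δ₂, hδ₂0, -, hδ₂⟩ := exists_par hE (fun p => 2 ^ p) (fun _ => 0) (fun _ => 0)
    (show 0 < Θ / 4 by positivity)
  obtain ⟨δ₁, hδ₁0, hδ₁7, hδ₁9⟩ : ∃ δ₁ : ℝ, 0 < δ₁ ∧ δ₁ ≤ Θ / 18 ∧ δ₁ ≤ δ₂ :=
    ⟨min (Θ / 18) δ₂, by positivity, min_le_left _ _, min_le_right _ _⟩
  obtain ⟨δ, hδ0, hδ1, hδ2, hδ3, hδ4, hδ5, hδ6, hδ7', hδ8⟩ : ∃ δ : ℝ, 0 < δ ∧ δ ≤ ε ∧ δ ≤ ϰ / 2 ∧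
      δ ≤ c * ν / 3 ∧ δ ≤ 1 ∧ δ ≤ θ / 2 ∧ δ ≤ θ ^ 2 / (4 * K') ∧ δ ≤ δ₁ ∧ δ ≤ η / 3 :=
    ⟨min (min (min (min ε (ϰ / 2)) (min (c * ν / 3) 1)) (min (θ / 2) (θ ^ 2 / (4 * K'))))
      (min δ₁ (η / 3)),
      by positivity,
      (min_le_left _ _).trans ((min_le_left _ _).trans ((min_le_left _ _).trans (min_le_left _ _))),
      (min_le_left _ _).trans ((min_le_left _ _).trans ((min_le_left _ _).trans (min_le_right _ _))),
      (min_le_left _ _).trans ((min_le_left _ _).trans ((min_le_right _ _).trans (min_le_left _ _))),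
      (min_le_left _ _).trans ((min_le_left _ _).trans ((min_le_right _ _).trans (min_le_right _ _))),
      (min_le_left _ _).trans ((min_le_right _ _).trans (min_le_left _ _)),
      (min_le_left _ _).trans ((min_le_right _ _).trans (min_le_right _ _)),
      (min_le_right _ _).trans (min_le_left _ _), (min_le_right _ _).trans (min_le_right _ _)⟩
  have hδ7 : δ ≤ Θ / 18 := hδ7'.trans hδ₁7
  have hδ9 : δ ≤ δ₂ := hδ7'.trans hδ₁9
  have hz'4 : ∀ k, z k - tr L (U 0) k = tr L y k := by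
    intro k
    by_cases hk : k ∈ bl L
    · rw [tr_mem hk, tr_mem hk, hy, Pi.sub_apply]
    · rw [tr_not hk, tr_not hk, sub_zero]
      exact hzs k fun h => hk (hZL k h)
  obtain ⟨B, v, F, g, h, w, A, hg, hFg, hgi', hvK0, hvS, hvq, hv0, hwB, hwrp, hhc, hhs, hhi, hwh, hvh,
    hvt, hvt1, hvd⟩ := AppH δ hδ0
  have hwl : L1 w := L1.of_supp hwB
  obtain ⟨a, N⟩ := near_exists (U := U) (L := L) (C₁ := C₁) (K' := K') (M₀ := M₀) (M₁ := M₁)
    (θ := θ) (δ := δ) (e₁ := e₁) (η := η) T1 hC₁ hν hUL hM₀ hN0U hN1U A hg hFg rfl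
    (fun T hT => (hgi' T hT).trans hδ8) hL1 hL3 he0 he1 hK'0 hδ0 rfl hδ5 hδ6
    (fun T hT => (hvK0 T hT).trans (by rw [hK']; linarith)) hvd
  have haM : Maj a := CSol.maj N.sol
  -- the pointwise bound
  have hpt : ∀ t, 0 < t → N0 (a t - U t) ≤ ε₁ / Real.sqrt t := fun t ht =>
    N.pt hν hM₀ hM₁ hN0U hN1U hL1 hϰ0 rfl hL5 he0 he4 he1 he5 hδ0 hδ4 hδ2 hvt hvt1 ht
  -- the datum
  have hdat : ∀ k, a 0 k - z k = w k + (q k - tr L y k) := by
    intro k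
    rw [N.init, ← hz'4]
    show v 0 k + tr L (U 0) k - z k = _
    rw [hv0]
    abel
  have hqe : ∀ k, ‖q k - tr L y k‖ ≤ e₀ k := by
    intro k
    have h1 : q k - tr L y k = -(tr L₀ y - q) k + (tr L₀ y k - tr L y k) := by
      rw [Pi.sub_apply]
      abel
    rw [h1]
    refine (norm_add_le _ _).trans ?_
    rw [norm_neg]
    exact add_le_add le_rfl (tr_tr_le hL7 y k)
  refine ⟨h, a, N.sol, N.tg Int hc hν hU hδ0 hδ3 he2 hvd, ?_, ?_, hhc, ?_, ?_, ?_, ?_, ?_, ?_, ?_, ?_⟩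
  · -- the antidivergence of the datum
    intro p hp
    have hp0 := hE p hp
    have e : a 0 - z = w + (q - tr L y) := funext hdat
    have hl : L1 (q - tr L y) := hql.sub (l1_tr L y)
    have hw1 := (q9 w (inv0 hwl)).1
    obtain ⟨he1', he2'⟩ := q9 (q - tr L y) (inv0 hl)
    have h1 := q1 p (anti w) (anti (q - tr L y)) hp0 hw1 he1'
    rw [← anti_add', ← e] at h1
    have h3 : ∑' k, ‖(q - tr L y) k‖ / len k ≤ ∑' k, e₀ k / len k :=
      (inv0 hl).tsum_le_tsum (fun k => div_le_div_of_nonneg_right (hqe k) (len_nonneg k)) he₀d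
    have hrN0 : 0 ≤ rN (anti (q - tr L y)) := Finset.sum_nonneg fun _ _ =>
      Finset.sum_nonneg fun _ _ => tsum_nonneg fun _ => norm_nonneg _
    have h4 : rN (anti (q - tr L y)) ≤ 36 * θ₁ := by linarith
    have h5 : rp p (anti (q - tr L y)) ≤ 36 ^ p * θ₁ ^ p := by
      rw [← Real.mul_rpow (by norm_num) hθ₁0.le]
      exact (q2 p _ hp0 he1').trans (Real.rpow_le_rpow hrN0 h4 hp0.le)
    have h6 := hwrp p hp
    have h7 := hprof p (Finset.mem_insert_of_mem hp)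
    obtain ⟨k1, k2, -⟩ := hθ₁ p hp
    have k3 := (hδ₂ p hp).1
    have c1 := hCa p
    have c2 := hCp p
    have c3 := hCa 2
    have c4 := hCp 2
    have c5 : (0 : ℝ) < 2 ^ p := Real.rpow_pos_of_pos two_pos p
    have c6 : (0 : ℝ) < Cp p ^ (2 / p) := Real.rpow_pos_of_pos c2 _
    have c7 : (0 : ℝ) < κ ^ (1 - p / 2) := Real.rpow_pos_of_pos hκ0 _
    have c8 : (0 : ℝ) < ν ^ (p / 2) := Real.rpow_pos_of_pos hν _
    have c9 := rp_nonneg (p / 2) r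
    have d1 : 2 ^ p * (rp p (anti w) + rp p (anti (q - tr L y)))
        ≤ 2 ^ p * ((Ca p * ν ^ (p / 2) * (Cp p * κ ^ (1 - p / 2) * (rp (p / 2) r + θ') + θ') + δ)
          + 36 ^ p * θ₁ ^ p) := by
      refine mul_le_mul_of_nonneg_left (add_le_add (h6.trans ?_) h5) c5.le
      exact add_le_add (mul_le_mul_of_nonneg_left h7 (by positivity)) le_rfl
    have d2 : 2 ^ p * δ ≤ Θ / 4 := (mul_le_mul_of_nonneg_left hδ9 c5.le).trans k3
    have d3 : 2 ^ p * (Ca p * ν ^ (p / 2) * (Cp p * κ ^ (1 - p / 2) + 1)) * θ' ≤ Θ / 4 :=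
      (mul_le_mul_of_nonneg_left hθ'1 (by positivity)).trans k1
    have d4 : 2 ^ p * (36 ^ p * θ₁ ^ p) ≤ Θ / 4 := by
      rw [← mul_assoc]
      exact k2
    have d5 : 0 ≤ (27 * Ca p * Cp p ^ (2 / p) + 3 * Ca 2 * (Cp 2 + 1) + 1)
        * ν ^ (p / 2) * κ ^ (1 - p / 2) * rp (p / 2) r := by positivity
    calc rp p (anti (a 0 - z)) ≤ _ := h1.trans d1
      _ = 2 ^ p * Ca p * Cp p * ν ^ (p / 2) * κ ^ (1 - p / 2) * rp (p / 2) r
          + 2 ^ p * (Ca p * ν ^ (p / 2) * (Cp p * κ ^ (1 - p / 2) + 1)) * θ'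
          + 2 ^ p * δ + 2 ^ p * (36 ^ p * θ₁ ^ p) := by ring
      _ ≤ 2 ^ p * Ca p * Cp p * ν ^ (p / 2) * κ ^ (1 - p / 2) * rp (p / 2) r + Θ := by linarith
      _ ≤ _ := by
          have e5 : (2 ^ p * Ca p * Cp p + 27 * Ca p * Cp p ^ (2 / p) + 3 * Ca 2 * (Cp 2 + 1) + 1)
              * ν ^ (p / 2) * κ ^ (1 - p / 2) * rp (p / 2) r
              = 2 ^ p * Ca p * Cp p * ν ^ (p / 2) * κ ^ (1 - p / 2) * rp (p / 2) r
                + (27 * Ca p * Cp p ^ (2 / p) + 3 * Ca 2 * (Cp 2 + 1) + 1)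
                  * ν ^ (p / 2) * κ ^ (1 - p / 2) * rp (p / 2) r := by ring
          rw [e5]
          linarith
  · -- the norms in `L² L^q`
    intro q' hq' hq2 T hT
    have hq0 : 0 < q' := by linarith
    have hq1 : (1 : ℝ) ≤ q' := by linarith
    set α : ℝ := 2 / q' with hα
    have hα0 : 0 ≤ α := by positivity
    have hα1 : α ≤ 1 := by
      rw [hα, div_le_one hq0]
      exact hq2
    have h1 := lq FB N (q := q') hq1 (M₀ := M₀) (M₁ := M₁) (Θ := Θ / 2)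
      (Γ := Ca q' * (∑ j, fp q' (s_ j) ^ (2 / q'))) hν hM₀ hN0U hN1U hL1
      (by linarith) he0 (by linarith) he1
      (fun T hT => (hvq q' hq' hq2 T hT).trans (by linarith)) hT
    refine h1.trans ?_
    have c1 := hCa q'
    have c2 := hCp q'
    have c3 := hCa 2
    have c4 := hCp 2
    have c5 : (0 : ℝ) < 2 ^ q' := Real.rpow_pos_of_pos two_pos q'
    have c6 : (0 : ℝ) < Cp q' ^ (2 / q') := Real.rpow_pos_of_pos c2 _
    have c7 : (0 : ℝ) < κ ^ (1 - q' / 2) := Real.rpow_pos_of_pos hκ0 _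
    have c8 := rp_nonneg (q' / 2) r
    have c9 : (0 : ℝ) < κ ^ (α - 1) := Real.rpow_pos_of_pos hκ0 _
    have hsum0 : ∀ j, fp q' (s_ j) ≤ ∑ j, fp q' (s_ j) := fun j =>
      Finset.single_le_sum (f := fun j => fp q' (s_ j)) (fun j _ => fp_nonneg q' _)
        (Finset.mem_univ j)
    have h2 : ∑ j, fp q' (s_ j) ^ α ≤ 9 * (∑ j, fp q' (s_ j)) ^ α := by
      have h3 : ∑ j, fp q' (s_ j) ^ α ≤ ∑ _j : Fin J, (∑ j, fp q' (s_ j)) ^ α :=
        Finset.sum_le_sum fun j _ => Real.rpow_le_rpow (fp_nonneg _ _) (hsum0 j) hα0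
      refine h3.trans ?_
      rw [Finset.sum_const, Finset.card_univ, Fintype.card_fin, nsmul_eq_mul]
      refine mul_le_mul_of_nonneg_right (by exact_mod_cast hJ9) ?_
      exact Real.rpow_nonneg (Finset.sum_nonneg fun j _ => fp_nonneg q' _) _
    have h4 : (∑ j, fp q' (s_ j)) ^ α ≤ (Cp q' * κ ^ (1 - q' / 2) * rp (q' / 2) r) ^ α
        + ((Cp q' * κ ^ (1 - q' / 2) + 1) * θ') ^ α := by
      refine (Real.rpow_le_rpow (Finset.sum_nonneg fun j _ => fp_nonneg q' _)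
        (hprof q' (Finset.mem_insert_of_mem hq')) hα0).trans ?_
      have e : Cp q' * κ ^ (1 - q' / 2) * (rp (q' / 2) r + θ') + θ'
          = Cp q' * κ ^ (1 - q' / 2) * rp (q' / 2) r + (Cp q' * κ ^ (1 - q' / 2) + 1) * θ' := by
        ring
      rw [e]
      exact rpow_add_le' (by positivity) (by positivity) hα0 hα1
    have h5 : (Cp q' * κ ^ (1 - q' / 2) * rp (q' / 2) r) ^ α
        = Cp q' ^ α * κ ^ (α - 1) * rp (q' / 2) r ^ α := by
      rw [Real.mul_rpow (by positivity) c8, Real.mul_rpow c2.le c7.le, ← Real.rpow_mul hκ0.le]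
      congr 3
      rw [hα]
      field_simp
    have h6 : ((Cp q' * κ ^ (1 - q' / 2) + 1) * θ') ^ α
        ≤ (Cp q' * κ ^ (1 - q' / 2) + 1) ^ α * θ₁ ^ α := by
      rw [← Real.mul_rpow (by positivity) hθ₁0.le]
      exact Real.rpow_le_rpow (by positivity)
        (mul_le_mul_of_nonneg_left hθ'1 (by positivity)) hα0
    have k3 := (hθ₁ q' hq').2.2
    have k4 : 27 * Ca q' * ((Cp q' * κ ^ (1 - q' / 2) + 1) ^ α * θ₁ ^ α) ≤ Θ / 4 := by
      rw [← mul_assoc]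
      exact k3
    have h7 : 3 * (Ca q' * ∑ j, fp q' (s_ j) ^ α) ≤ 27 * Ca q' * (Cp q' ^ α * κ ^ (α - 1)
        * rp (q' / 2) r ^ α) + Θ / 4 := by
      calc 3 * (Ca q' * ∑ j, fp q' (s_ j) ^ α)
          ≤ 3 * (Ca q' * (9 * (Cp q' ^ α * κ ^ (α - 1) * rp (q' / 2) r ^ α
            + (Cp q' * κ ^ (1 - q' / 2) + 1) ^ α * θ₁ ^ α))) := by
            refine mul_le_mul_of_nonneg_left (mul_le_mul_of_nonneg_left (h2.trans ?_) c1.le)
              (by norm_num)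
            refine mul_le_mul_of_nonneg_left (h4.trans ?_) (by norm_num)
            rw [h5]
            exact add_le_add le_rfl h6
        _ = 27 * Ca q' * (Cp q' ^ α * κ ^ (α - 1) * rp (q' / 2) r ^ α)
            + 27 * Ca q' * ((Cp q' * κ ^ (1 - q' / 2) + 1) ^ α * θ₁ ^ α) := by ring
        _ ≤ _ := add_le_add le_rfl k4
    have d6 : (0 : ℝ) ≤ rp (q' / 2) r ^ α := Real.rpow_nonneg c8 _
    have d5 : 0 ≤ (2 ^ q' * Ca q' * Cp q' + 3 * Ca 2 * (Cp 2 + 1) + 1)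
        * κ ^ (α - 1) * rp (q' / 2) r ^ α := by positivity
    have e5 : (2 ^ q' * Ca q' * Cp q' + 27 * Ca q' * Cp q' ^ (2 / q') + 3 * Ca 2 * (Cp 2 + 1) + 1)
        * κ ^ (α - 1) * rp (q' / 2) r ^ α
        = 27 * Ca q' * (Cp q' ^ α * κ ^ (α - 1) * rp (q' / 2) r ^ α)
          + (2 ^ q' * Ca q' * Cp q' + 3 * Ca 2 * (Cp 2 + 1) + 1)
            * κ ^ (α - 1) * rp (q' / 2) r ^ α := by
      rw [hα]
      ring
    show 3 * (Ca q' * ∑ j, fp q' (s_ j) ^ α) + Θ / 2 ≤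
      (2 ^ q' * Ca q' * Cp q' + 27 * Ca q' * Cp q' ^ (2 / q') + 3 * Ca 2 * (Cp 2 + 1) + 1)
        * κ ^ (α - 1) * rp (q' / 2) r ^ α + Θ
    rw [e5]
    linarith
  · intro s hs
    exact (hhs s hs).trans (div_le_div_of_nonneg_right hδ1 (Real.sqrt_nonneg _))
  · intro T hT
    refine (hhi T hT).trans ?_
    linarith
  · -- the datum in weak norms
    refine ⟨e₀, he₀0, he₀z, he₀s, he₀m.trans (by linarith), ?_⟩
    intro s hs A'
    have h1 : ∀ k, ht s k * ‖a 0 k - z k‖ ≤ ht s k * ‖w k‖ + ht s k * e₀ k := fun k => by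
      rw [← mul_add, hdat]
      exact mul_le_mul_of_nonneg_left ((norm_add_le _ _).trans (add_le_add le_rfl (hqe k)))
        (ht_pos s k).le
    have h2 : ∑ k ∈ A', ht s k * ‖w k‖ ≤ ∑ k ∈ B, ht s k * ‖w k‖ :=
      Pool.Agent.Run7.h32.GD.sum_supp_le (fun k hk => by rw [hwB k hk, norm_zero, mul_zero])
        fun k => mul_nonneg (ht_pos s k).le (norm_nonneg _)
    calc ∑ k ∈ A', ht s k * ‖a 0 k - z k‖
        ≤ ∑ k ∈ A', (ht s k * ‖w k‖ + ht s k * e₀ k) := Finset.sum_le_sum fun k _ => h1 k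
      _ = ∑ k ∈ A', ht s k * ‖w k‖ + ∑ k ∈ A', ht s k * e₀ k := Finset.sum_add_distrib
      _ ≤ h s + ∑' k, ht s k * e₀ k := add_le_add (h2.trans (hwh s hs))
          ((summable_ht he₀0 he₀s hs).sum_le_tsum A' fun k _ =>
            mul_nonneg (ht_pos s k).le (he₀0 k))
  · -- closeness at all times in weak norms
    intro t ht0
    exact N.bes hL1 hΘ hN0U hL4 (he3.trans (by linarith)) (hδ7.trans (by linarith)) hθ'2 hyl he₀0 he₀z he₀s he₀m hqe' ht0 (hvh t ht0)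
  · -- the pointwise bound
    intro t ht A'
    exact (sum_le_N0 ((haM.l1 ht.le).sub (hUM.l1 ht.le)) A').trans ((hpt t ht).trans
      (div_le_div_of_nonneg_right hε₁1 (Real.sqrt_nonneg _)))
  · -- the square integral
    intro T hT A'
    exact N.sqint hν hM₀ hN0U hN1U hL1 hL6 he0 he4 he1 hvK0 hT A'
  · -- the norm in `L²`
    intro T hT A'
    have c1 := hCa 2
    have c2 := hCp 2
    have c3 : (0 : ℝ) < Cp 2 ^ ((2 : ℝ) / 2) := Real.rpow_pos_of_pos c2 _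
    have c4 : (0 : ℝ) < 2 ^ (2 : ℝ) := Real.rpow_pos_of_pos two_pos _
    have h1 := N.l2 (Q := Ca 2 * ((Cp 2 + 1) * (rp 1 r + Θ))) (Θ := Θ) hν hM₀ hN0U hN1U hL1
      (hL8.trans (by linarith)) he0 (he3.trans (by linarith)) he1
      (fun T hT => (hvS T hT).trans (add_le_add (mul_le_mul_of_nonneg_left hS2 c1.le)
        (hδ7.trans (by linarith)))) hT A'
    refine h1.trans ?_
    have c5 := rp_nonneg 1 r
    have h2 : 0 ≤ (2 ^ (2 : ℝ) * Ca 2 * Cp 2 + 27 * Ca 2 * Cp 2 ^ ((2 : ℝ) / 2))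
        * (rp 1 r + Θ) := by positivity
    have e : (2 ^ (2 : ℝ) * Ca 2 * Cp 2 + 27 * Ca 2 * Cp 2 ^ ((2 : ℝ) / 2)
        + 3 * Ca 2 * (Cp 2 + 1) + 1) * (rp 1 r + Θ)
        = (2 ^ (2 : ℝ) * Ca 2 * Cp 2 + 27 * Ca 2 * Cp 2 ^ ((2 : ℝ) / 2)) * (rp 1 r + Θ)
          + 3 * (Ca 2 * ((Cp 2 + 1) * (rp 1 r + Θ))) + (rp 1 r + Θ) := by ring
    show _ ≤ (2 ^ (2 : ℝ) * Ca 2 * Cp 2 + 27 * Ca 2 * Cp 2 ^ ((2 : ℝ) / 2)
        + 3 * Ca 2 * (Cp 2 + 1) + 1) * (rp 1 r + Θ)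
    rw [e]
    linarith
  · -- closeness in the sum norm for later times
    intro t ht A'
    have ht0 : 0 < t := hε.trans_le ht
    refine (sum_le_N0 ((haM.l1 ht0.le).sub (hUM.l1 ht0.le)) A').trans ((hpt t ht0).trans ?_)
    rw [div_le_iff₀ (Real.sqrt_pos.2 ht0)]
    exact hε₁2.trans (mul_le_mul_of_nonneg_left (Real.sqrt_le_sqrt ht) hε.le)

end Pool.Agent.Run7.h782.WQ
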