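import Pool.Agent.Run7.h782.WQ.Lq

/-!
The step, for all data and with all norms.
-/

set_option autoImplicit false

open MeasureTheory Set Filter Topology
open scoped ContDiff ComplexConjugate NNReal

namespace Pool.Agent.Run7.h782.WQ

open H459R3.NS Pool.Agent.Run7.h782 Pool.Agent.Run7.h782.GD Pool.Agent.Run7.h782.GS
open Pool.Agent.Run7.h782.WS

/-- Truncation of matrix fields. -/
noncomputable def trm (L : ℝ) (r : Mf) : Mf := fun i j k => if k ∈ insert 0 (bl L) then r i j k else 0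

theorem trm_not {L : ℝ} {r : Mf} {i j : Fin 3} {k : K3} (h : k ∉ insert 0 (bl L)) :
    trm L r i j k = 0 := if_neg h

theorem trm_mem {L : ℝ} {r : Mf} {i j : Fin 3} {k : K3} (h : k ∈ insert 0 (bl L)) :
    trm L r i j k = r i j k := if_pos h

theorem neg_mem_ins {L : ℝ} {k : K3} : -k ∈ insert 0 (bl L) ↔ k ∈ insert 0 (bl L) := by
  rw [Finset.mem_insert, Finset.mem_insert, mem_bl, mem_bl, len_neg, neg_eq_zero, neg_ne_zero]

theorem sy_trm {r : Mf} (hr : Sy r) (L : ℝ) : Sy (trm L r) where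
  sym i j k := by
    unfold trm
    rw [hr.sym i j k]
  herm i j k := by
    unfold trm
    by_cases h : k ∈ insert 0 (bl L)
    · rw [if_pos h, if_pos (neg_mem_ins.2 h), hr.herm]
    · rw [if_neg h, if_neg fun h' => h (neg_mem_ins.1 h'), map_zero]

theorem r1_trm {r : Mf} (hr : R1 r) (L : ℝ) : R1 (trm L r) := fun i j =>
  Summable.of_nonneg_of_le (fun k => norm_nonneg _) (fun k => by
    unfold trm
    split_ifs
    · exact le_rfl
    · rw [norm_zero]
      exact norm_nonneg _) (hr i j)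

theorem prj_zero_vec (k : K3) : prj k 0 = 0 := by
  funext i
  simp [prj, kd]

theorem dvr_zero_mode (r : Mf) : dvr r 0 = 0 := by
  have h : (fun i => ∑ j, (((0 : K3) j : ℤ) : ℂ) * r i j 0) = (0 : C3) := by
    funext i
    simp
  unfold dvr
  rw [h, prj_zero_vec, smul_zero]

theorem dvr_trm {r : Mf} {y : Cf} (h : ∀ k, dvr r k = y k) (L : ℝ) (k : K3) :
    dvr (trm L r) k = tr L y k := by
  by_cases hk : k ∈ bl L
  · rw [tr_mem hk, ← h]
    unfold dvr
    congr 2
    funext i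
    exact Finset.sum_congr rfl fun j _ => by rw [trm_mem (Finset.mem_insert_of_mem hk)]
  · rw [tr_not hk]
    by_cases h0 : k = 0
    · rw [h0, dvr_zero_mode]
    · have e : (fun i => ∑ j, (k j : ℂ) * trm L r i j k) = (0 : C3) := by
        funext i
        refine Finset.sum_eq_zero fun j _ => ?_
        rw [trm_not (fun h' => (Finset.mem_insert.1 h').elim h0 hk), mul_zero]
      unfold dvr
      rw [e, prj_zero_vec, smul_zero]

theorem rN_trm {r : Mf} (hr : R1 r) : Tendsto (fun L : ℝ => rN (trm L r - r)) atTop (𝓝 0) := by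
  have h1 : ∀ i j, Tendsto (fun L : ℝ => ∑' k, ‖(trm L r - r) i j k‖) atTop (𝓝 0) := by
    intro i j
    have h2 := tendsto_tsum_of_dominated_convergence (𝓕 := atTop) (bound := fun k => ‖r i j k‖)
      (f := fun (L : ℝ) k => ‖(trm L r - r) i j k‖) (g := fun _ => (0 : ℝ)) (hr i j) ?_ ?_
    · rwa [tsum_zero] at h2
    · intro k
      refine tendsto_const_nhds.congr' ?_
      filter_upwards [eventually_ge_atTop (len k)] with L hL
      have hk : k ∈ insert 0 (bl L) := by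
        rw [Finset.mem_insert]
        by_cases h : k = 0
        · exact Or.inl h
        · exact Or.inr (mem_bl.2 ⟨h, hL⟩)
      show 0 = ‖trm L r i j k - r i j k‖
      rw [trm_mem hk, sub_self, norm_zero]
    · refine Eventually.of_forall fun L k => ?_
      rw [norm_norm]
      show ‖trm L r i j k - r i j k‖ ≤ ‖r i j k‖
      unfold trm
      split_ifs
      · rw [sub_self, norm_zero]
        exact norm_nonneg _
      · rw [zero_sub, norm_neg]
  have h3 : Tendsto (fun L : ℝ => ∑ i, ∑ j, ∑' k, ‖(trm L r - r) i j k‖) atTop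
      (𝓝 (∑ i : Fin 3, ∑ j : Fin 3, (0 : ℝ))) :=
    tendsto_finsetSum _ fun i _ => tendsto_finsetSum _ fun j _ => h1 i j
  simpa [rN] using h3

theorem anti_add' (c d : Cf) : anti (c + d) = anti c + anti d := by
  funext i j k
  simp only [anti, Pi.add_apply]
  ring

theorem rpow_add_le' {a b α : ℝ} (ha : 0 ≤ a) (hb : 0 ≤ b) (h0 : 0 ≤ α) (h1 : α ≤ 1) :
    (a + b) ^ α ≤ a ^ α + b ^ α := by
  have h := NNReal.rpow_add_le_add_rpow (⟨a, ha⟩ : ℝ≥0) ⟨b, hb⟩ h0 h1
  exact_mod_cast h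

/-- A small parameter for finitely many exponents. -/
theorem exists_par {E : Finset ℝ} (hE : ∀ p ∈ E, 0 < p) (A B D : ℝ → ℝ) {Θ : ℝ} (hΘ : 0 < Θ) :
    ∃ θ : ℝ, 0 < θ ∧ θ ≤ 1 ∧ ∀ p ∈ E, A p * θ ≤ Θ ∧ B p * θ ^ p ≤ Θ ∧ D p * θ ^ (2 / p) ≤ Θ := by
  have h1 : ∀ x : ℝ, 0 < x → Tendsto (fun θ : ℝ => θ ^ x) (𝓝[>] 0) (𝓝 0) := by
    intro x hx
    have h := (Real.continuousAt_rpow_const 0 x (Or.inr hx.le)).tendsto
    rw [Real.zero_rpow hx.ne'] at h
    exact h.mono_left nhdsWithin_le_nhds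
  have h2 : ∀ C x : ℝ, 0 < x → ∀ᶠ θ in 𝓝[>] (0 : ℝ), C * θ ^ x ≤ Θ := by
    intro C x hx
    have h := (h1 x hx).const_mul C
    rw [mul_zero] at h
    exact h.eventually_le_const hΘ
  have h3 : ∀ᶠ θ in 𝓝[>] (0 : ℝ), ∀ p ∈ E,
      A p * θ ^ (1 : ℝ) ≤ Θ ∧ B p * θ ^ p ≤ Θ ∧ D p * θ ^ (2 / p) ≤ Θ := by
    rw [eventually_all_finset]
    intro p hp
    have hp0 := hE p hp
    exact (h2 _ 1 one_pos).and ((h2 _ p hp0).and (h2 _ _ (by positivity)))
  obtain ⟨θ, h4, h5, h6⟩ := (h3.and ((eventually_le_nhds (show (0 : ℝ) < 1 by norm_num)).filter_mono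
    nhdsWithin_le_nhds |>.and self_mem_nhdsWithin)).exists
  refine ⟨θ, h6, h5, fun p hp => ?_⟩
  have h7 := h4 p hp
  rwa [Real.rpow_one] at h7

end Pool.Agent.Run7.h782.WQ
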