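import Pool.Agent.Run7.h782.WQ.StrB
import Pool.Agent.Run7.h782.WQ.Step

/-!
Piece Strong: strong attainment of the initial value.
-/

set_option autoImplicit false

open MeasureTheory Set Filter Topology
open scoped ContDiff ENNReal ComplexConjugate

namespace Pool.Agent.Run7.h782.WQ

open H459R3.NS Pool.Agent.Run7.h782 Pool.Agent.Run7.h782.GD Pool.Agent.Run7.h782.GS
open Pool.Agent.Run7.h782.WS Pool.Agent.Run7.h744.WS

variable {ν : ℝ} {u : ℝ → V → V} {p : ℝ → V → ℝ}

/-- Reflection of a time interval. -/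
theorem refl_mp (t : ℝ) : MeasurePreserving (fun s : ℝ => t - s) (volume.restrict (Ioo 0 t))
    (volume.restrict (Ioo 0 t)) := by
  have h := (Measure.measurePreserving_sub_left (volume : Measure ℝ) t).restrict_preimage
    (measurableSet_Ioo (a := (0 : ℝ)) (b := t))
  have e : (fun s : ℝ => t - s) ⁻¹' Ioo 0 t = Ioo 0 t := by
    ext s
    simp only [mem_preimage, mem_Ioo]
    constructor <;> rintro ⟨h1, h2⟩ <;> constructor <;> linarith
  rwa [e] at h

theorem refl_emb (t : ℝ) : MeasurableEmbedding (fun s : ℝ => t - s) :=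
  (MeasurableEquiv.subLeft t).measurableEmbedding

theorem gt_int (hO : OSol ν u p) (hL : ∀ (T : ℝ) (i : Fin 3),
    IntegrableOn (fun z : ℝ × V => u z.1 z.2 i ^ 2) (Ioc 0 T ×ˢ cube)) (t : ℝ) (i j : Fin 3) :
    IntegrableOn (fun z : ℝ × V => u (t - z.1) z.2 i * u (t - z.1) z.2 j)
      (Ioo 0 t ×ˢ cube) := by
  have h := uu_int hO hL t i j
  rw [IntegrableOn, restr] at h ⊢
  have hmp := (refl_mp t).prod (MeasurePreserving.id ((volume : Measure V).restrict cube))
  exact hmp.integrable_comp_of_integrable h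

/-- The integral of the power `2 Q` of the components. -/
noncomputable def Iq (Q : ℝ) (u : ℝ → V → V) (s : ℝ) : ℝ≥0∞ :=
  ∫⁻ x in cube, ENNReal.ofReal (∑ i, |u s x i| ^ (2 * Q))

theorem prod_pow_le {Q : ℝ} (hQ : 1 ≤ Q) (w : V) (i j : Fin 3) :
    |w i * w j| ^ Q ≤ 2 * ∑ l, |w l| ^ (2 * Q) := by
  have hQ0 : 0 < Q := by linarith
  have h1 : ∀ l, |w l| ^ (2 * Q) ≤ ∑ l, |w l| ^ (2 * Q) := fun l =>
    Finset.single_le_sum (f := fun l => |w l| ^ (2 * Q))
      (fun l _ => Real.rpow_nonneg (abs_nonneg _) _) (Finset.mem_univ l)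
  have h2 : |w i * w j| ≤ max |w i| |w j| ^ 2 := by
    rw [abs_mul, pow_two]
    exact mul_le_mul (le_max_left _ _) (le_max_right _ _) (abs_nonneg _)
      ((abs_nonneg _).trans (le_max_left _ _))
  have h3 : (max |w i| |w j| ^ 2) ^ Q = max |w i| |w j| ^ (2 * Q) := by
    rw [Real.rpow_mul ((abs_nonneg _).trans (le_max_left _ _)), Real.rpow_two]
  have h4 : max |w i| |w j| ^ (2 * Q) ≤ ∑ l, |w l| ^ (2 * Q) := by
    rcases max_choice |w i| |w j| with h | h <;> rw [h]
    · exact h1 i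
    · exact h1 j
  have h5 : 0 ≤ ∑ l, |w l| ^ (2 * Q) := Finset.sum_nonneg fun l _ =>
    Real.rpow_nonneg (abs_nonneg _) _
  calc |w i * w j| ^ Q ≤ (max |w i| |w j| ^ 2) ^ Q :=
        Real.rpow_le_rpow (abs_nonneg _) h2 hQ0.le
    _ ≤ 2 * ∑ l, |w l| ^ (2 * Q) := by
        rw [h3]
        linarith

/-- The majorant of the nonlinear term. -/
noncomputable def Kq (Q : ℝ) (u : ℝ → V → V) (t : ℝ) : ℝ≥0∞ :=
  ∫⁻ s in Ioo 0 t, Iq Q u s ^ (1 / Q)

theorem Kq_tendsto {Q : ℝ} (hQ : 1 ≤ Q) (h : InLq 1 u (2 * Q)) :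
    Tendsto (Kq Q u) (𝓝[>] 0) (𝓝 0) := by
  have hQ0 : 0 < Q := by linarith
  have h1 : ∫⁻ s, Iq Q u s ^ (1 / Q) ∂(volume.restrict (Ioo (0 : ℝ) 1)) ≠ ⊤ := by
    have e : (2 / (2 * Q) : ℝ) = 1 / Q := by field_simp
    unfold InLq at h
    rw [e] at h
    exact h
  have h2 : Tendsto ((volume.restrict (Ioo (0 : ℝ) 1)) ∘ fun t : ℝ => Ioo 0 t) (𝓝[>] 0) (𝓝 0) := by
    have h3 : Tendsto (fun t : ℝ => ENNReal.ofReal t) (𝓝[>] 0) (𝓝 0) := by
      have := (ENNReal.continuous_ofReal.tendsto 0).mono_left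
        (nhdsWithin_le_nhds (s := Ioi (0 : ℝ)))
      rwa [ENNReal.ofReal_zero] at this
    refine tendsto_of_tendsto_of_tendsto_of_le_of_le tendsto_const_nhds h3
      (fun _ => zero_le) fun t => ?_
    refine (Measure.restrict_apply_le _ _).trans ?_
    rw [Real.volume_Ioo, sub_zero]
  refine (tendsto_setLIntegral_zero h1 h2).congr' ?_
  filter_upwards [Ioo_mem_nhdsGT one_pos] with t ht
  unfold Kq
  rw [Measure.restrict_restrict measurableSet_Ioo]
  congr 2
  ext s
  simp only [mem_inter_iff, mem_Ioo]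
  constructor
  · exact fun h => h.1
  · exact fun h => ⟨h, h.1, h.2.trans ht.2⟩

theorem gt_le {Q : ℝ} (hQ : 1 ≤ Q) (u : ℝ → V → V) (t : ℝ) (i j : Fin 3) :
    ∫⁻ s in Ioo 0 t, ENNReal.ofReal |(1 : ℝ)| *
      (∫⁻ x in cube, ENNReal.ofReal (|u (t - s) x i * u (t - s) x j| ^ Q)) ^ (1 / Q)
      ≤ 2 ^ (1 / Q) * Kq Q u t := by
  have hQ0 : 0 < Q := by linarith
  have h1 : ∀ s, ENNReal.ofReal |(1 : ℝ)| *
      (∫⁻ x in cube, ENNReal.ofReal (|u (t - s) x i * u (t - s) x j| ^ Q)) ^ (1 / Q)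
      ≤ 2 ^ (1 / Q) * Iq Q u (t - s) ^ (1 / Q) := by
    intro s
    rw [abs_one, ENNReal.ofReal_one, one_mul, ← ENNReal.mul_rpow_of_nonneg _ _ (by positivity)]
    refine ENNReal.rpow_le_rpow ?_ (by positivity)
    unfold Iq
    rw [← lintegral_const_mul' _ _ (by norm_num)]
    refine lintegral_mono fun x => ?_
    refine (ENNReal.ofReal_le_ofReal (prod_pow_le hQ (u (t - s) x) i j)).trans (le_of_eq ?_)
    rw [ENNReal.ofReal_mul (by norm_num)]
    norm_num
  refine (lintegral_mono h1).trans ?_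
  rw [lintegral_const_mul' _ _ (by
    refine ENNReal.rpow_ne_top_of_nonneg (by positivity) (by norm_num))]
  unfold Kq
  rw [← (refl_mp t).lintegral_comp_emb (refl_emb t) fun s => Iq Q u s ^ (1 / Q)]

/-- Real form of a bound of a norm. -/
theorem real_of {f : V → ℝ} {Q : ℝ} (hQ : 1 ≤ Q) (hf : IntegrableOn f cube) {K : ℝ≥0∞}
    (hK : K ≠ ⊤) (h : (∫⁻ x in cube, ENNReal.ofReal (|f x| ^ Q)) ^ (1 / Q) ≤ K) :
    IntegrableOn (fun x => |f x| ^ Q) cube ∧ ∫ x in cube, |f x| ^ Q ≤ K.toReal ^ Q := by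
  have hQ0 : 0 < Q := by linarith
  have h1 : ∫⁻ x in cube, ENNReal.ofReal (|f x| ^ Q) ≤ K ^ Q := by
    have h2 := ENNReal.rpow_le_rpow h hQ0.le
    rwa [← ENNReal.rpow_mul, one_div_mul_cancel hQ0.ne', ENNReal.rpow_one] at h2
  have hKQ : K ^ Q ≠ ⊤ := ENNReal.rpow_ne_top_of_nonneg hQ0.le hK
  have hm : AEStronglyMeasurable (fun x => |f x| ^ Q) (volume.restrict cube) := by
    have : Continuous fun y : ℝ => |y| ^ Q :=
      continuous_abs.rpow_const fun x => Or.inr hQ0.le
    exact this.comp_aestronglyMeasurable hf.aestronglyMeasurable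
  have hnn : ∀ x, 0 ≤ |f x| ^ Q := fun x => Real.rpow_nonneg (abs_nonneg _) _
  have hi : IntegrableOn (fun x => |f x| ^ Q) cube := by
    refine ⟨hm, ?_⟩
    rw [hasFiniteIntegral_iff_ofReal (Eventually.of_forall hnn)]
    exact h1.trans_lt hKQ.lt_top
  refine ⟨hi, ?_⟩
  rw [integral_eq_lintegral_of_nonneg_ae (Eventually.of_forall hnn) hm, ENNReal.toReal_rpow]
  exact ENNReal.toReal_mono hKQ h1

theorem three_le {a b c Q : ℝ} (hQ : 1 ≤ Q) :
    |a - (b + c) / 2| ^ Q ≤ 3 ^ Q * (|a| ^ Q + |b| ^ Q + |c| ^ Q) := by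
  have hQ0 : 0 < Q := by linarith
  set M := max |a| (max |b| |c|) with hM
  have hM0 : 0 ≤ M := (abs_nonneg a).trans (le_max_left _ _)
  have ha : |a| ≤ M := le_max_left _ _
  have hb : |b| ≤ M := (le_max_left _ _).trans (le_max_right _ _)
  have hc : |c| ≤ M := (le_max_right _ _).trans (le_max_right _ _)
  have h1 : |a - (b + c) / 2| ≤ 3 * M := by
    have h2 := abs_sub a ((b + c) / 2)
    have h3 : |(b + c) / 2| ≤ (|b| + |c|) / 2 := by
      rw [abs_div, abs_two]
      exact div_le_div_of_nonneg_right (abs_add_le b c) (by norm_num)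
    linarith
  have h4 : M ^ Q ≤ |a| ^ Q + |b| ^ Q + |c| ^ Q := by
    have a1 := Real.rpow_nonneg (abs_nonneg a) Q
    have a2 := Real.rpow_nonneg (abs_nonneg b) Q
    have a3 := Real.rpow_nonneg (abs_nonneg c) Q
    rcases max_choice |a| (max |b| |c|) with h | h
    · rw [hM, h]
      linarith
    · rcases max_choice |b| |c| with h' | h' <;> rw [hM, h, h'] <;> linarith
  calc |a - (b + c) / 2| ^ Q ≤ (3 * M) ^ Q := Real.rpow_le_rpow (abs_nonneg _) h1 hQ0.le
    _ = 3 ^ Q * M ^ Q := Real.mul_rpow (by norm_num) hM0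
    _ ≤ _ := mul_le_mul_of_nonneg_left h4 (by positivity)

theorem strong (hB : StmNecBq) (hC : StmHeatC) : StmStrong := by
  intro ν hν c hch hcd R hR hRc u p hO hL hk Q hQ hRQ hIn ε hε
  have hQ0 : 0 < Q := by linarith
  -- the linear part
  have hH := fun i j => hC Q hQ (R i j) (hR.per i j) (hR.int i j) (hRQ i j)
  have hν' : Tendsto (fun t : ℝ => ν * t) (𝓝[>] 0) (𝓝[>] 0) := by
    rw [tendsto_nhdsWithin_iff]
    constructor
    · have h : Tendsto (fun t : ℝ => ν * t) (𝓝 0) (𝓝 (ν * 0)) :=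
        (continuous_const.mul continuous_id).tendsto 0
      rw [mul_zero] at h
      exact h.mono_left nhdsWithin_le_nhds
    · filter_upwards [self_mem_nhdsWithin] with t ht
      exact mul_pos hν ht
  set ε' : ℝ := ε / (3 ^ Q * 3) with hε'
  have h3Q : (0 : ℝ) < 3 ^ Q := Real.rpow_pos_of_pos (by norm_num) _
  have hε'0 : 0 < ε' := by positivity
  have ev1 : ∀ i j, ∀ᶠ t in 𝓝[>] (0 : ℝ), ∫ x in cube, |heat (ν * t) (R i j) x - R i j x| ^ Q ≤ ε' :=
    fun i j => ((hH i j).2.2.comp hν').eventually_le_const hε'0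
  -- the nonlinear part
  have hKt : Tendsto (fun t => 2 ^ (1 / Q) * Kq Q u t) (𝓝[>] 0) (𝓝 0) := by
    have h := ENNReal.Tendsto.const_mul (a := (2 : ℝ≥0∞) ^ (1 / Q)) (Kq_tendsto hQ hIn)
      (Or.inr (ENNReal.rpow_ne_top_of_nonneg (by positivity) (by norm_num)))
    rwa [mul_zero] at h
  set η : ℝ := ε' ^ (1 / Q) with hη
  have hη0 : 0 < η := Real.rpow_pos_of_pos hε'0 _
  have ev2 : ∀ᶠ t in 𝓝[>] (0 : ℝ), 2 ^ (1 / Q) * Kq Q u t ≤ ENNReal.ofReal η :=
    hKt.eventually_le_const (ENNReal.ofReal_pos.2 hη0)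
  filter_upwards [self_mem_nhdsWithin, ev2, eventually_all.2 fun i => eventually_all.2 fun j =>
    ev1 i j] with t ht ht2 ht1
  have ht0 : 0 < t := ht
  have hνt : 0 < ν * t := mul_pos hν ht0
  choose f hfp hfi hfc hfb using fun i j => hB ν t hν ht0
    (fun s x => u (t - s) x i * u (t - s) x j) (gt_int hO hL t i j) (fun _ => 1) continuous_const
  -- the coefficients of `f`
  have hfc' : ∀ i j k, fr (f i j) k = ∫ s in Ioo 0 t, ek ν k t s * uu (u s) i j k := by
    intro i j k
    rw [hfc i j k]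
    have e1 := (refl_mp t).integral_comp (refl_emb t)
      (fun s => ek ν k t s * uu (u s) i j k)
    rw [← e1]
    refine integral_congr_ae (Eventually.of_forall fun s => ?_)
    show (((1 : ℝ) : ℂ) * (Real.exp (-(lam ν k * s)) : ℂ)) * fr (fun x => u (t - s) x i
      * u (t - s) x j) k = ek ν k t (t - s) * uu (u (t - s)) i j k
    unfold ek uu
    rw [sub_sub_cancel, Complex.ofReal_one, one_mul]
  have hsym : ∀ i j k, fr (f i j) k = fr (f j i) k := by
    intro i j k
    rw [hfc', hfc']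
    refine integral_congr_ae (Eventually.of_forall fun s => ?_)
    show ek ν k t s * uu (u s) i j k = ek ν k t s * uu (u s) j i k
    rw [uu_comm]
  -- the stress
  set W : Fin 3 → Fin 3 → V → ℝ := fun i j x => heat (ν * t) (R i j) x - R i j x
    - (f i j x + f j i x) / 2 with hW
  have hRsym : ∀ i j, R i j = R j i := fun i j => funext (hR.sym i j)
  have hcub := cube_finite
  have hheat : ∀ i j, IntegrableOn (heat (ν * t) (R i j)) cube := fun i j =>
    integrableOn_cube ((hH i j).1 _ hνt).1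
  have hint : ∀ i j, IntegrableOn (W i j) cube := fun i j =>
    ((hheat i j).sub (hR.int i j)).sub (((hfi i j).add (hfi j i)).div_const 2)
  have hfrW : ∀ i j k, fr (W i j) k = ek ν k t 0 * fr (R i j) k - fr (R i j) k - fr (f i j) k := by
    intro i j k
    have hee : ∀ {g : V → ℝ}, IntegrableOn g cube →
        Integrable (fun x => ee (-k) x * ((g x : ℝ) : ℂ)) (volume.restrict cube) := by
      intro g hg
      refine (hg.ofReal (𝕜 := ℂ)).bdd_mul (c := 1) (ee_continuous _).aestronglyMeasurable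
        (Eventually.of_forall fun x => ?_)
      rw [norm_ee]
    have e0 : fr (W i j) k = ∫ x in cube, (ee (-k) x * ((heat (ν * t) (R i j) x : ℝ) : ℂ)
        - ee (-k) x * ((R i j x : ℝ) : ℂ)
        - (ee (-k) x * ((f i j x : ℝ) : ℂ) + ee (-k) x * ((f j i x : ℝ) : ℂ)) / 2) := by
      unfold fr fc
      refine integral_congr_ae (Eventually.of_forall fun x => ?_)
      simp only [hW]
      push_cast
      ring
    have i1 : Integrable (fun x => ee (-k) x * ((heat (ν * t) (R i j) x : ℝ) : ℂ)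
        - ee (-k) x * ((R i j x : ℝ) : ℂ)) (volume.restrict cube) :=
      (hee (hheat i j)).sub (hee (hR.int i j))
    have i2 : Integrable (fun x => (ee (-k) x * ((f i j x : ℝ) : ℂ)
        + ee (-k) x * ((f j i x : ℝ) : ℂ)) / 2) (volume.restrict cube) :=
      ((hee (hfi i j)).add (hee (hfi j i))).div_const 2
    rw [e0, integral_sub i1 i2, integral_sub (hee (hheat i j)) (hee (hR.int i j)), integral_div,
      integral_add (hee (hfi i j)) (hee (hfi j i))]
    have e1 : (∫ x in cube, ee (-k) x * ((heat (ν * t) (R i j) x : ℝ) : ℂ))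
        = ek ν k t 0 * fr (R i j) k := by
      have h := (hH i j).2.1 (ν * t) hνt k
      have e2 : ek ν k t 0 = (Real.exp (-(4 * Real.pi ^ 2 * GD.sq k * (ν * t))) : ℂ) := by
        unfold ek lam
        congr 3
        ring
      rw [e2, ← h]
      rfl
    have e3 : (∫ x in cube, ee (-k) x * ((f j i x : ℝ) : ℂ)) = fr (f i j) k := (hsym i j k).symm
    have e4 : (∫ x in cube, ee (-k) x * ((f i j x : ℝ) : ℂ)) = fr (f i j) k := rfl
    have e5 : (∫ x in cube, ee (-k) x * ((R i j x : ℝ) : ℂ)) = fr (R i j) k := rfl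
    rw [e1, e3, e4, e5]
    ring
  refine ⟨?_, W, ⟨?_, ?_, hint⟩, ?_, ?_⟩
  · -- the mean
    have h := duhamel hν hO hL hk ht0 0
    have e : ek ν 0 t 0 = 1 := by
      unfold ek lam
      have : GD.sq (0 : K3) = 0 := by simp [GD.sq]
      rw [this]
      simp
    have e2 : ∀ s, ek ν 0 t s • dvr (uu (u s)) 0 = 0 := fun s => by rw [dvr_zero_mode, smul_zero]
    rw [e, one_smul] at h
    simp_rw [e2] at h
    rwa [integral_zero, sub_zero] at h
  · intro i j l x
    simp only [hW]
    rw [((hH i j).1 _ hνt).2 l x, hR.per i j l x, hfp i j l x, hfp j i l x]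
  · intro i j x
    simp only [hW]
    rw [hRsym i j, add_comm (f i j x)]
  · intro k hk0
    show vf (u t) k - c k = _
    rw [duhamel hν hO hL hk ht0 k, hRc k hk0]
    have hI : ∀ i j, Integrable (fun s => ek ν k t s * uu (u s) i j k)
        (volume.restrict (Ioo 0 t)) := fun i j => by
      refine (fr_uu_int hO hL t i j k).bdd_mul (c := 1) (ek_cont ν k t).aestronglyMeasurable ?_
      filter_upwards [ae_restrict_mem measurableSet_Ioo] with s hs
      exact ek_norm hν k hs.2.le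
    have e1 : ∀ s, ek ν k t s • dvr (uu (u s)) k
        = dvr (fun i j l => ek ν l t s * uu (u s) i j l) k := by
      intro s
      rw [← dvL_apply, ← dvL_apply, ← map_smul]
      rfl
    simp_rw [e1]
    rw [dvr_integral (f := fun s i j l => ek ν l t s * uu (u s) i j l) k hI, ← dvL_apply,
      ← dvL_apply, ← dvL_apply, ← map_smul, ← map_sub, ← map_sub]
    congr 1
    funext i j
    simp only [Pi.sub_apply, Pi.smul_apply, smul_eq_mul]
    rw [hfrW, ← hfc']
    ring
  · intro i j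
    have hKη : ENNReal.ofReal η ≠ ⊤ := ENNReal.ofReal_ne_top
    have hb : ∀ i j, IntegrableOn (fun x => |f i j x| ^ Q) cube
        ∧ ∫ x in cube, |f i j x| ^ Q ≤ ε' := by
      intro i j
      obtain ⟨a1, a2⟩ := real_of hQ (hfi i j) hKη
        (((hfb i j Q hQ).trans (gt_le hQ u t i j)).trans ht2)
      refine ⟨a1, a2.trans (le_of_eq ?_)⟩
      rw [ENNReal.toReal_ofReal hη0.le, hη, ← Real.rpow_mul hε'0.le, one_div_mul_cancel hQ0.ne',
        Real.rpow_one]
    have hcQ : Continuous fun y : ℝ => |y| ^ Q :=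
      continuous_abs.rpow_const fun x => Or.inr hQ0.le
    have hiQ : IntegrableOn (fun x => |heat (ν * t) (R i j) x - R i j x| ^ Q) cube := by
      have hm : AEStronglyMeasurable (fun x => |heat (ν * t) (R i j) x - R i j x| ^ Q)
          (volume.restrict cube) :=
        hcQ.comp_aestronglyMeasurable ((hheat i j).sub (hR.int i j)).aestronglyMeasurable
      have hh : IntegrableOn (fun x => |heat (ν * t) (R i j) x| ^ Q) cube :=
        integrableOn_cube (hcQ.comp ((hH i j).1 _ hνt).1)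
      refine Integrable.mono' (((hh.add (hRQ i j)).add (hRQ i j)).const_mul (3 ^ Q)) hm
        (Eventually.of_forall fun x => ?_)
      rw [Real.norm_of_nonneg (Real.rpow_nonneg (abs_nonneg _) _)]
      have h := three_le (a := heat (ν * t) (R i j) x) (b := R i j x) (c := R i j x) hQ
      rw [add_self_div_two] at h
      exact h
    have hbd : ∀ x, |W i j x| ^ Q ≤ 3 ^ Q * (|heat (ν * t) (R i j) x - R i j x| ^ Q
        + |f i j x| ^ Q + |f j i x| ^ Q) := fun x => three_le hQ
    have hsum : IntegrableOn (fun x => 3 ^ Q * (|heat (ν * t) (R i j) x - R i j x| ^ Q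
        + |f i j x| ^ Q + |f j i x| ^ Q)) cube :=
      ((hiQ.add (hb i j).1).add (hb j i).1).const_mul _
    have hWi : IntegrableOn (fun x => |W i j x| ^ Q) cube := by
      refine Integrable.mono' hsum (hcQ.comp_aestronglyMeasurable (hint i j).aestronglyMeasurable)
        (Eventually.of_forall fun x => ?_)
      rw [Real.norm_of_nonneg (Real.rpow_nonneg (abs_nonneg _) _)]
      exact hbd x
    refine ⟨hWi, ?_⟩
    have h1 := integral_mono hWi hsum hbd
    refine h1.trans ?_
    have i1 : Integrable (fun x => |heat (ν * t) (R i j) x - R i j x| ^ Q + |f i j x| ^ Q)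
        (volume.restrict cube) := hiQ.add (hb i j).1
    rw [integral_const_mul, integral_add i1 (hb j i).1, integral_add hiQ (hb i j).1]
    have h2 := ht1 i j
    have h3 := (hb i j).2
    have h4 := (hb j i).2
    calc 3 ^ Q * ((∫ x in cube, |heat (ν * t) (R i j) x - R i j x| ^ Q)
          + (∫ x in cube, |f i j x| ^ Q) + ∫ x in cube, |f j i x| ^ Q)
        ≤ 3 ^ Q * (ε' + ε' + ε') := mul_le_mul_of_nonneg_left (by linarith) h3Q.le
      _ = ε := by
          rw [hε']
          field_simp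
          ring

end Pool.Agent.Run7.h782.WQ
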