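import Pool.Agent.Run7.h782.WQ.FinalS
import Pool.Agent.Run7.h782.WQ.StepQ
import Pool.Agent.Run7.h782.WQ.Strong
import Pool.Agent.Run7.h744.WS.RoughAll
import Pool.Agent.Run7.h744.WQ.IterS
import Pool.Agent.Run7.h744.WQ.NecB
import Pool.Agent.Run7.h744.WQ.GeoQ
import Pool.Agent.Run7.h744.WQ.Q0
import Pool.Agent.Run7.h779.WQ.Kh
import Pool.Agent.Run7.h779.WQ.D1S
import Pool.Agent.Run7.h779.WQ.Heat2
import Pool.Agent.Run7.h980.WQ.ProfQ
import Pool.Agent.Run7.h980.WQ.SqF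
import Pool.Agent.Run7.h980.WQ.VW
import Pool.Agent.Run7.h811.WQ.AlWQ
import Pool.Agent.Run7.h811.WQ.NecA4
import Pool.Agent.Run7.h969.WQ.AppQ
import Pool.Agent.Run7.h969.WQ.HeatC
import Pool.Agent.Run7.h219.WQ.NecQ
import Pool.Agent.Run7.h219.WQ.InitS

/-!
Assembly of the pieces.
-/

set_option autoImplicit false

namespace Pool.Agent.Run7.h782.WQ

theorem stmStepQ : StmStepQ :=
  stepQ Pool.Agent.Run7.h782.GD.stmT1
    (Pool.Agent.Run7.h980.WQ.profQ Pool.Agent.Run7.h744.WQ.stmGeoQ Pool.Agent.Run7.h980.WQ.concQ)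
    (Pool.Agent.Run7.h969.WQ.appQ Pool.Agent.Run7.h744.WQ.stmQ0
      (Pool.Agent.Run7.h811.WQ.alWQ Pool.Agent.Run7.h779.WQ.kh))
    Pool.Agent.Run7.h782.GS.stmInt Pool.Agent.Run7.h744.WQ.stmQ0

theorem stmIterS : StmIterS :=
  Pool.Agent.Run7.h744.WQ.iterS stmStepQ
    (Pool.Agent.Run7.h308.GS.stmLim Pool.Agent.Run7.h744.GS.stmSmooth)

theorem stmInitS : StmInitS :=
  Pool.Agent.Run7.h219.WQ.initS stmIterS Pool.Agent.Run7.h779.WQ.d1s
    Pool.Agent.Run7.h969.GD.stmTg' Pool.Agent.Run7.h308.GS.stmPhys2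
    Pool.Agent.Run7.h32.GD.stmPhys Pool.Agent.Run7.h980.WS.pairH

theorem stmNecQ : StmNecQ :=
  Pool.Agent.Run7.h219.WQ.necQ
    (Pool.Agent.Run7.h811.WQ.necA Pool.Agent.Run7.h779.WQ.heatK
      (Pool.Agent.Run7.h980.WQ.sqF Pool.Agent.Run7.h779.WQ.heatK))
    Pool.Agent.Run7.h744.WQ.stmNecB

theorem stmStrong : StmStrong :=
  strong Pool.Agent.Run7.h744.WQ.stmNecBq Pool.Agent.Run7.h969.WQ.heatC

theorem stmFinal : StmFinal :=
  fullS stmInitS stmNecQ Pool.Agent.Run7.h980.WQ.vw Pool.Agent.Run7.h980.WS.pairH stmStrong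

end Pool.Agent.Run7.h782.WQ
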