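import Pool.Agent.Run7.h782.WQ.StrA

/-!
Piece Strong, part B: Duhamel's formula for the coefficients.
-/

set_option autoImplicit false

open MeasureTheory Set Filter Topology
open scoped ContDiff ENNReal ComplexConjugate

namespace Pool.Agent.Run7.h782.WQ

open H459R3.NS Pool.Agent.Run7.h782 Pool.Agent.Run7.h782.GD Pool.Agent.Run7.h782.GS
open Pool.Agent.Run7.h782.WS Pool.Agent.Run7.h744.WS

variable {ν : ℝ} {u : ℝ → V → V} {p : ℝ → V → ℝ}

theorem mcube : MeasurableSet cube := measurableSet_Icc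

theorem restr (T : ℝ) : (volume : Measure (ℝ × V)).restrict (Ioo 0 T ×ˢ cube)
    = ((volume : Measure ℝ).restrict (Ioo 0 T)).prod ((volume : Measure V).restrict cube) := by
  rw [Measure.volume_eq_prod, Measure.prod_restrict]

theorem uu_int (hO : OSol ν u p) (hL : ∀ (T : ℝ) (i : Fin 3),
    IntegrableOn (fun z : ℝ × V => u z.1 z.2 i ^ 2) (Ioc 0 T ×ˢ cube)) (T : ℝ) (i j : Fin 3) :
    IntegrableOn (fun z : ℝ × V => u z.1 z.2 i * u z.1 z.2 j) (Ioo 0 T ×ˢ cube) := by
  have hc : ∀ i, ContinuousOn (fun z : ℝ × V => u z.1 z.2 i) (Ioo 0 T ×ˢ cube) := fun i =>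
    (contDiffOn_pi.1 hO.smooth_u i).continuousOn.mono fun z hz => ⟨hz.1.1, mem_univ _⟩
  have hsub : Ioo (0 : ℝ) T ×ˢ cube ⊆ Ioc 0 T ×ˢ cube := fun z hz => ⟨⟨hz.1.1, hz.1.2.le⟩, hz.2⟩
  refine Integrable.mono' (((hL T i).mono_set hsub).add ((hL T j).mono_set hsub))
    (((hc i).mul (hc j)).aestronglyMeasurable (measurableSet_Ioo.prod mcube))
    (Eventually.of_forall fun z => ?_)
  rw [Real.norm_eq_abs, Pi.add_apply, abs_mul]
  nlinarith [sq_abs (u z.1 z.2 i), sq_abs (u z.1 z.2 j),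
    sq_nonneg (|u z.1 z.2 i| - |u z.1 z.2 j|), abs_nonneg (u z.1 z.2 i),
    abs_nonneg (u z.1 z.2 j)]

theorem fr_uu_int (hO : OSol ν u p) (hL : ∀ (T : ℝ) (i : Fin 3),
    IntegrableOn (fun z : ℝ × V => u z.1 z.2 i ^ 2) (Ioc 0 T ×ˢ cube)) (T : ℝ) (i j : Fin 3)
    (k : K3) : IntegrableOn (fun s => uu (u s) i j k) (Ioo 0 T) := by
  have h := uu_int hO hL T i j
  rw [IntegrableOn, restr] at h
  have h1 : Integrable (fun z : ℝ × V => ee (-k) z.2 * ((u z.1 z.2 i * u z.1 z.2 j : ℝ) : ℂ))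
      (((volume : Measure ℝ).restrict (Ioo 0 T)).prod ((volume : Measure V).restrict cube)) := by
    have hc : Continuous fun z : ℝ × V => ee (-k) z.2 := (ee_continuous (-k)).comp continuous_snd
    refine (h.ofReal (𝕜 := ℂ)).bdd_mul (c := 1) hc.aestronglyMeasurable
      (Eventually.of_forall fun z => ?_)
    rw [norm_ee]
  exact h1.integral_prod_left

/-- `dvr` at one frequency, as a continuous linear map. -/
noncomputable def dvL (k : K3) : (Fin 3 → Fin 3 → ℂ) →L[ℂ] C3 :=
  (2 * Real.pi * Complex.I : ℂ) • (prjC k).comp (LinearMap.toContinuousLinearMap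
    { toFun := fun m i => ∑ j, (k j : ℂ) * m i j
      map_add' := fun m m' => by
        funext i
        simp only [Pi.add_apply, mul_add, Finset.sum_add_distrib]
      map_smul' := fun a m => by
        funext i
        simp only [Pi.smul_apply, smul_eq_mul, RingHom.id_apply, Finset.mul_sum]
        exact Finset.sum_congr rfl fun j _ => by ring })

theorem dvL_apply (k : K3) (r : Mf) : dvL k (fun i j => r i j k) = dvr r k := rfl

theorem vec_int {f : ℝ → Mf} {μ : Measure ℝ} (k : K3)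
    (h : ∀ i j, Integrable (fun t => f t i j k) μ) :
    Integrable (fun t => (fun i j => f t i j k : Fin 3 → Fin 3 → ℂ)) μ :=
  Integrable.of_eval fun i => Integrable.of_eval fun j => h i j

theorem dvr_integral {f : ℝ → Mf} {μ : Measure ℝ} (k : K3)
    (h : ∀ i j, Integrable (fun t => f t i j k) μ) :
    ∫ t, dvr (f t) k ∂μ = dvr (fun i j k => ∫ t, f t i j k ∂μ) k := by
  have h1 := (dvL k).integral_comp_comm (vec_int k h)
  simp only [dvL_apply] at h1
  rw [h1, ← dvL_apply]
  congr 1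
  funext i j
  rw [eval_integral (fun i => Integrable.of_eval fun j => h i j),
    eval_integral (fun j => h i j)]

theorem dvr_integrable {f : ℝ → Mf} {μ : Measure ℝ} (k : K3)
    (h : ∀ i j, Integrable (fun t => f t i j k) μ) : Integrable (fun t => dvr (f t) k) μ := by
  have h1 := (dvL k).integrable_comp (vec_int k h)
  simpa only [dvL_apply] using h1

/-- The factor of Duhamel's formula. -/
noncomputable def ek (ν : ℝ) (k : K3) (t s : ℝ) : ℂ := ((Real.exp (-(lam ν k * (t - s))) : ℝ) : ℂ)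

theorem ek_cont (ν : ℝ) (k : K3) (t : ℝ) : Continuous (ek ν k t) := by
  unfold ek
  fun_prop

theorem ek_der (ν : ℝ) (k : K3) (t s : ℝ) : HasDerivAt (ek ν k t) (lam ν k * ek ν k t s) s := by
  have h1 : HasDerivAt (fun s => -(lam ν k * (t - s))) (lam ν k) s := by
    have h := (((hasDerivAt_id s).const_sub t).const_mul (lam ν k)).fun_neg
    refine h.congr_deriv ?_
    ring
  have h2 := h1.exp.ofReal_comp
  refine h2.congr_deriv ?_
  unfold ek
  push_cast
  ring

theorem ek_norm {ν : ℝ} (hν : 0 < ν) (k : K3) {t s : ℝ} (h : s ≤ t) : ‖ek ν k t s‖ ≤ 1 := by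
  unfold ek
  rw [Complex.norm_real, Real.norm_of_nonneg (Real.exp_pos _).le, Real.exp_le_one_iff]
  have h1 : 0 ≤ lam ν k := by
    have : 0 ≤ GD.sq k := Finset.sum_nonneg fun j _ => by positivity
    unfold lam
    positivity
  nlinarith

theorem ek_dvr_int (hν : 0 < ν) (hO : OSol ν u p) (hL : ∀ (T : ℝ) (i : Fin 3),
    IntegrableOn (fun z : ℝ × V => u z.1 z.2 i ^ 2) (Ioc 0 T ×ˢ cube)) (t : ℝ) (k : K3) :
    IntegrableOn (fun s => ek ν k t s • dvr (uu (u s)) k) (Ioc 0 t) := by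
  rw [integrableOn_Ioc_iff_integrableOn_Ioo]
  have h1 : IntegrableOn (fun s => dvr (uu (u s)) k) (Ioo 0 t) :=
    dvr_integrable k fun i j => fr_uu_int hO hL t i j k
  refine Integrable.bdd_smul (C := 1) h1 (ek_cont ν k t).aestronglyMeasurable ?_
  filter_upwards [ae_restrict_mem measurableSet_Ioo] with s hs
  exact ek_norm hν k hs.2.le

/-- Duhamel's formula. -/
theorem duhamel (hν : 0 < ν) (hO : OSol ν u p) (hL : ∀ (T : ℝ) (i : Fin 3),
    IntegrableOn (fun z : ℝ × V => u z.1 z.2 i ^ 2) (Ioc 0 T ×ˢ cube)) {c : Cf}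
    (hk : ∀ k, Tendsto (fun t => vf (u t) k) (𝓝[>] 0) (𝓝 (c k))) {t : ℝ} (ht : 0 < t) (k : K3) :
    vf (u t) k = ek ν k t 0 • c k - ∫ s in Ioo 0 t, ek ν k t s • dvr (uu (u s)) k := by
  have hI := ek_dvr_int hν hO hL t k
  set G : ℝ → C3 := fun s => ek ν k t s • dvr (uu (u s)) k with hG
  have hII : ∀ a b, 0 ≤ a → a ≤ b → b ≤ t → IntervalIntegrable G volume a b := by
    intro a b ha hab hbt
    rw [intervalIntegrable_iff_integrableOn_Ioc_of_le hab]
    exact hI.mono_set (Ioc_subset_Ioc ha hbt)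
  have hY : ∀ s, 0 < s → HasDerivAt (fun s => ek ν k t s • vf (u s) k) (-G s) s := by
    intro s hs
    have h1 := (ek_der ν k t s).smul (ode hO hs k)
    refine h1.congr_deriv ?_
    rw [hG]
    simp only [smul_sub, smul_smul, neg_smul, smul_neg, mul_comm (lam ν k : ℂ)]
    abel
  have h1 : ∀ a, 0 < a → a ≤ t → ek ν k t a • vf (u a) k = vf (u t) k + ∫ s in a..t, G s := by
    intro a ha hat
    have h2 := intervalIntegral.integral_eq_sub_of_hasDerivAt
      (f := fun s => ek ν k t s • vf (u s) k) (f' := fun s => -G s) (a := a) (b := t)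
      (fun s hs => hY s (by rw [uIcc_of_le hat] at hs; exact ha.trans_le hs.1))
      (hII a t ha.le hat le_rfl).neg
    rw [intervalIntegral.integral_neg] at h2
    have e : ek ν k t t = 1 := by
      unfold ek
      simp
    rw [e, one_smul] at h2
    have h3 : ek ν k t a • vf (u a) k = vf (u t) k - -(∫ s in a..t, G s) := by
      rw [h2]
      abel
    rw [h3, sub_neg_eq_add]
  have h2 : Tendsto (fun a => ek ν k t a • vf (u a) k) (𝓝[>] 0) (𝓝 (ek ν k t 0 • c k)) :=
    (((ek_cont ν k t).tendsto 0).mono_left nhdsWithin_le_nhds).smul (hk k)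
  have h3 : Tendsto (fun a => vf (u t) k + ∫ s in a..t, G s) (𝓝[>] 0)
      (𝓝 (vf (u t) k + ∫ s in (0 : ℝ)..t, G s)) := by
    refine tendsto_const_nhds.add ?_
    have h4 : ContinuousOn (fun a => ∫ s in a..t, G s) (uIcc 0 t) := by
      refine intervalIntegral.continuousOn_primitive_interval_left ?_
      rw [uIcc_of_le ht.le, integrableOn_Icc_iff_integrableOn_Ioc]
      exact hI
    have h5 := h4 0 left_mem_uIcc
    rw [uIcc_of_le ht.le] at h5
    refine h5.tendsto.mono_left ?_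
    rw [nhdsWithin_le_iff, mem_nhdsWithin]
    refine ⟨Iio t, isOpen_Iio, ht, fun s hs => ⟨?_, ?_⟩⟩
    · exact (show (0 : ℝ) < s from hs.2).le
    · exact (show s < t from hs.1).le
  have h4 : Tendsto (fun a => ek ν k t a • vf (u a) k) (𝓝[>] 0)
      (𝓝 (vf (u t) k + ∫ s in (0 : ℝ)..t, G s)) := by
    refine h3.congr' ?_
    have : Ioo (0 : ℝ) t ∈ 𝓝[>] 0 := Ioo_mem_nhdsGT ht
    filter_upwards [this] with a ha
    exact (h1 a ha.1 ha.2.le).symm
  have h5 := tendsto_nhds_unique h2 h4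
  rw [h5, intervalIntegral.integral_of_le ht.le, integral_Ioc_eq_integral_Ioo, add_sub_cancel_right]

end Pool.Agent.Run7.h782.WQ
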