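import Pool.Agent.Run7.h969.GD.Tgt2
import Pool.Agent.Run7.h782.WQ.Defs4

/-!
Piece Strong, part A: the equation for the coefficients of solutions which are smooth for `t > 0`.
-/

set_option autoImplicit false

open MeasureTheory Set Filter Topology
open scoped ContDiff ENNReal ComplexConjugate

namespace Pool.Agent.Run7.h782.WQ

open H459R3.NS Pool.Agent.Run7.h782 Pool.Agent.Run7.h782.GD Pool.Agent.Run7.h782.GS
open Pool.Agent.Run7.h782.WS Pool.Agent.Run7.h744.WS

variable {ν : ℝ} {u : ℝ → V → V} {p : ℝ → V → ℝ}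

/-- Shifts in time. -/
theorem shift (hO : OSol ν u p) {τ : ℝ} (hτ : 0 < τ) (T : ℝ) :
    IsSol ν T (fun t => u (t + τ)) (fun t => p (t + τ)) where
  smooth_u := by
    have h : ContDiff ℝ ∞ fun z : ℝ × V => (z.1 + τ, z.2) :=
      (contDiff_fst.add contDiff_const).prodMk contDiff_snd
    exact hO.smooth_u.comp h.contDiffOn fun z hz => ⟨by
      have := hz.1.1
      show 0 < z.1 + τ
      linarith, mem_univ _⟩
  smooth_p := by
    have h : ContDiff ℝ ∞ fun z : ℝ × V => (z.1 + τ, z.2) :=
      (contDiff_fst.add contDiff_const).prodMk contDiff_snd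
    exact hO.smooth_p.comp h.contDiffOn fun z hz => ⟨by
      have := hz.1.1
      show 0 < z.1 + τ
      linarith, mem_univ _⟩
  per_u t ht := hO.per_u _ (by linarith [ht.1])
  per_p t ht := hO.per_p _ (by linarith [ht.1])
  divfree t ht x := hO.divfree _ (by linarith [ht.1]) x
  momentum t ht x i := by
    have h := hO.momentum (t + τ) (by linarith [ht.1]) x i
    rw [← h]
    congr 1
    exact deriv_comp_add_const (fun s => u s x i) τ t

/-- The product matrix. -/
noncomputable def uu (w : V → V) : Mf := fun i j k => fr (fun x => w x i * w x j) k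

theorem uu_comm (w : V → V) (i j : Fin 3) (k : K3) : uu w i j k = uu w j i k := by
  unfold uu
  congr 1
  funext x
  ring

theorem nl_eq {w : V → V} (hw : ∀ i, SP (fun x => w x i)) (k : K3) :
    nl (vf w) (vf w) k = dvr (uu w) k := by
  have hs : HasSum (fun q => kd k (vf w q) • vf w (k - q))
      (fun i => ∑ j, (k j : ℂ) * uu w i j k) := by
    rw [Pi.hasSum]
    intro i
    have h1 : ∀ j, HasSum (fun q => fr (fun x => w x j) q * fr (fun x => w x i) (k - q))
        (fr (fun x => w x j * w x i) k) := fun j => h969.GD.fr_mul (hw j) (hw i) k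
    have h2 := hasSum_sum (s := Finset.univ) fun (j : Fin 3) _ => (h1 j).mul_left (k j : ℂ)
    have e1 : (∑ j, (k j : ℂ) * fr (fun x => w x j * w x i) k) = ∑ j, (k j : ℂ) * uu w i j k :=
      Finset.sum_congr rfl fun j _ => by rw [uu_comm w i j k]; rfl
    rw [e1] at h2
    refine (funext fun q => ?_ : (fun q => ∑ j, (k j : ℂ)
      * (fr (fun x => w x j) q * fr (fun x => w x i) (k - q)))
      = fun q => (kd k (vf w q) • vf w (k - q)) i) ▸ h2
    rw [Pi.smul_apply, smul_eq_mul, kd, Finset.sum_mul]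
    exact Finset.sum_congr rfl fun j _ => (mul_assoc _ _ _).symm
  unfold nl dvr
  rw [hs.tsum_eq]

theorem sp_of (hO : OSol ν u p) {t : ℝ} (ht : 0 < t) (i : Fin 3) : SP (fun x => u t x i) :=
  ⟨contDiff_pi.1 (slice_smooth hO ht) i, fun j x => congrFun (hO.per_u t ht j x) i⟩

/-- The equation for the coefficients. -/
theorem ode (hO : OSol ν u p) {t : ℝ} (ht : 0 < t) (k : K3) :
    HasDerivAt (fun s => vf (u s) k) (-(lam ν k : ℂ) • vf (u t) k - dvr (uu (u t)) k) t := by
  have hτ : 0 < t / 2 := by positivity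
  have h1 := h969.GD.der_pos (shift hO hτ) hτ k
  simp only [add_halves] at h1
  rw [nl_eq (sp_of hO ht)] at h1
  have h2 : HasDerivAt (fun s : ℝ => s - t / 2) 1 t := (hasDerivAt_id t).sub_const _
  have h3 : HasDerivAt (fun s => vf (u (s + t / 2)) k)
      (-(lam ν k : ℂ) • vf (u t) k - dvr (uu (u t)) k) (t - t / 2) := by
    rw [sub_half]
    exact h1
  have h4 := HasDerivAt.scomp t h3 h2
  rw [one_smul] at h4
  refine h4.congr_of_eventuallyEq (Eventually.of_forall fun s => ?_)
  simp [Function.comp]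

end Pool.Agent.Run7.h782.WQ
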