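import Pool.Agent.Run7.h782.WQ.Defs

/-!
The solutions of `StmChar` as limits of global smooth solutions.
-/

set_option autoImplicit false

open MeasureTheory Set Filter Topology
open scoped ContDiff ENNReal ComplexConjugate

namespace Pool.Agent.Run7.h782.WQ

open H459R3.NS Pool.Agent.Run7.h782 Pool.Agent.Run7.h782.GD Pool.Agent.Run7.h782.GS
open Pool.Agent.Run7.h782.WS Pool.Agent.Run7.h969.GG Pool.Agent.Run7.h744.WS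
open Pool.Agent.Run7.h969.WS

/-- `b` is a limit of global smooth solutions `a j`, whose initial values tend to `c`. -/
structure LimC (ν : ℝ) (c : Cf) (b : ℝ → Cf) (a : ℕ → ℝ → Cf) (e : ℕ → ℝ) : Prop where
  sol : ∀ j, CSol ν (a j)
  init : ∀ k, Tendsto (fun j => a j 0 k) atTop (𝓝 (c k))
  grow : ∃ C : ℝ, ∀ j k, ‖a j 0 k‖ ≤ C * (1 + len k) ^ 2
  ez : Tendsto e atTop (𝓝 0)
  unif : ∀ j t, e j ≤ t → 0 < t → ∀ A : Finset K3, ∑ k ∈ A, ‖a j t k - b t k‖ ≤ e j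
  l2 : ∀ T : ℝ, Tendsto (fun j => ∫⁻ t in Ioc 0 T, ENNReal.ofReal (∑' k, ‖a j t k - b t k‖ ^ 2))
    atTop (𝓝 0)

/-- **Piece IterR** (`StmIterQ` with one more clause). -/
def StmIterR : Prop := ∀ (ν : ℝ), 0 < ν → ∀ U : ℝ → Cf, Tg ν U → ∀ (Q : ℕ → ℝ) (c : Cf)
  (r : ℕ → Mf), DatQ Q c r → ∀ φ : ℝ → ℝ, Gauge φ → ∀ δ : ℝ, 0 < δ →
  ∃ b : ℝ → Cf, (∀ τ : ℝ, 0 < τ → CSol ν (fun t => b (t + τ))) ∧
    (∀ k, Tendsto (fun t => b t k) (𝓝[>] 0) (𝓝 (c k))) ∧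
    (∃ C : ℝ, ∀ t, 0 < t → t ≤ 1 → ∀ k, ‖b t k‖ ≤ C * (1 + len k) ^ 2) ∧
    ((Summable fun k => ‖c k‖) →
      Tendsto (fun t => besGC φ (fun k => ‖b t k - c k‖)) (𝓝[>] 0) (𝓝 0)) ∧
    Tendsto (fun t => Real.sqrt t * ∑' k, ‖b t k‖) (𝓝[>] 0) (𝓝 0) ∧
    IntegrableOn (fun t => φ (Real.sqrt t * ∑' k, ‖b t k‖) / t) (Ioc 0 1) ∧
    (∀ n, IntegrableOn (fun t => fp (2 * Q n) (b t) ^ (1 / Q n)) (Ioc 0 1)) ∧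
    IntegrableOn (fun t => ∑' k, ‖b t k‖ ^ 2) (Ioc 0 1) ∧
    (∃ (a : ℕ → ℝ → Cf) (e : ℕ → ℝ), LimC ν c b a e) ∧
    ∀ t, δ ≤ t → ∀ A : Finset K3, ∑ k ∈ A, ‖b t k - U t k‖ ≤ δ

/-- `u` is a limit of global smooth periodic solutions `v j`, uniformly for `t ≥ τ > 0`, in `L²` of
`(0, T) × cell`, with initial values tending to `c` in the sense of distributions. -/
structure LimP (ν : ℝ) (c : Cf) (u : ℝ → V → V) (v : ℕ → ℝ → V → V) (q : ℕ → ℝ → V → ℝ)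
    (e : ℕ → ℝ) : Prop where
  sol : ∀ j T, IsSol ν T (v j) (q j)
  init : ∀ (i : Fin 3) (ψ : V → ℝ), ContDiff ℝ ∞ ψ → Per ψ →
    Tendsto (fun j => ∫ x in cube, v j 0 x i * ψ x) atTop (𝓝 (pr c i ψ))
  ez : Tendsto e atTop (𝓝 0)
  unif : ∀ j t, e j ≤ t → 0 < t → ∀ x i, |v j t x i - u t x i| ≤ e j
  l2 : ∀ (T : ℝ) (i : Fin 3),
    Tendsto (fun j => ∫ z in Ioc 0 T ×ˢ cube, (v j z.1 z.2 i - u z.1 z.2 i) ^ 2) atTop (𝓝 0)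

/-- **Piece InitR** (from IterR, D1, as `StmInitQ`). -/
def StmInitR : Prop := ∀ (ν : ℝ), 0 < ν → ∀ c : Cf, Herm c → Dv c →
  ∀ (R : Fin 3 → Fin 3 → V → ℝ), Str R → IsDiv R c → ∀ Q : ℕ → ℝ, (∀ n, 1 ≤ Q n) →
  (∀ n i j, IntegrableOn (fun x => |R i j x| ^ Q n) cube) → ∀ (U : ℝ → V → V) (P : ℝ → V → ℝ),
  (∀ T, IsSol ν T U P) → (∀ i, ((∫ x in cube, U 0 x i : ℝ) : ℂ) = c 0 i) →
  ∀ φ : ℝ → ℝ, Gauge φ → ∀ δ : ℝ, 0 < δ →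
  ∃ (u : ℝ → V → V) (p : ℝ → V → ℝ), OSol ν u p ∧
    (∀ (T : ℝ) (i : Fin 3),
      IntegrableOn (fun z : ℝ × V => u z.1 z.2 i ^ 2) (Ioc 0 T ×ˢ cube)) ∧
    (∀ n (T : ℝ), IntegrableOn
      (fun t => (∫ x in cube, ∑ i, |u t x i| ^ (2 * Q n)) ^ (1 / Q n)) (Ioc 0 T)) ∧
    (∀ k, Tendsto (fun t => vf (u t) k) (𝓝[>] 0) (𝓝 (c k))) ∧
    (∃ C : ℝ, ∀ t, 0 < t → t ≤ 1 → ∀ k, ‖vf (u t) k‖ ≤ C * (1 + len k) ^ 2) ∧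
    (∃ h : ℝ → ℝ, (∀ t, 0 < t → ∀ x i, |u t x i| ≤ h t) ∧
      Tendsto (fun t => Real.sqrt t * h t) (𝓝[>] 0) (𝓝 0) ∧
      IntegrableOn (fun t => φ (Real.sqrt t * h t) / t) (Ioc 0 1)) ∧
    ((Summable fun k => ‖c k‖) → ∀ i,
      Tendsto (fun t => besG φ (fun x => u t x i - (S (fun k => c k i) x).re)) (𝓝[>] 0) (𝓝 0)) ∧
    (∃ (v : ℕ → ℝ → V → V) (q : ℕ → ℝ → V → ℝ) (e : ℕ → ℝ), LimP ν c u v q e) ∧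
    ∀ t, δ ≤ t → ∀ x i, |u t x i - U t x i| ≤ δ

/-- **The theorem.** The initial values of very weak solutions in `L²` of space-time are exactly
the `P div R` with `R ∈ L¹`, and each of them has solutions which are smooth for `t > 0`, and which
are strong limits of global smooth solutions. -/
def StmCharR : Prop := ∀ (ν : ℝ), 0 < ν → ∀ c : Cf, Dis c →
  ((∃ T : ℝ, 0 < T ∧ ∃ u : ℝ → V → V, VW ν T c u) ↔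
    ∃ R : Fin 3 → Fin 3 → V → ℝ, Str R ∧ IsDiv R c) ∧
  ∀ R : Fin 3 → Fin 3 → V → ℝ, Str R → IsDiv R c → ∀ Q : ℕ → ℝ, (∀ n, 1 ≤ Q n) →
  (∀ n i j, IntegrableOn (fun x => |R i j x| ^ Q n) cube) → ∀ (U : ℝ → V → V) (P : ℝ → V → ℝ),
  (∀ T, IsSol ν T U P) → (∀ i, ((∫ x in cube, U 0 x i : ℝ) : ℂ) = c 0 i) →
  ∀ φ : ℝ → ℝ, Gauge φ → ∀ δ : ℝ, 0 < δ →
  ∃ (u : ℝ → V → V) (p : ℝ → V → ℝ), OSol ν u p ∧ (∀ T : ℝ, 0 < T → VW ν T c u) ∧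
    (∀ (i : Fin 3) (ψ : V → ℝ), ContDiff ℝ ∞ ψ → Per ψ →
      Tendsto (fun t => ∫ x in cube, u t x i * ψ x) (𝓝[>] 0) (𝓝 (pr c i ψ))) ∧
    (∀ n (T : ℝ), IntegrableOn
      (fun t => (∫ x in cube, ∑ i, |u t x i| ^ (2 * Q n)) ^ (1 / Q n)) (Ioc 0 T)) ∧
    (∃ h : ℝ → ℝ, (∀ t, 0 < t → ∀ x i, |u t x i| ≤ h t) ∧
      Tendsto (fun t => Real.sqrt t * h t) (𝓝[>] 0) (𝓝 0) ∧
      IntegrableOn (fun t => φ (Real.sqrt t * h t) / t) (Ioc 0 1)) ∧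
    ((Summable fun k => ‖c k‖) → ∀ i,
      Tendsto (fun t => besG φ (fun x => u t x i - (S (fun k => c k i) x).re)) (𝓝[>] 0) (𝓝 0)) ∧
    (∃ (v : ℕ → ℝ → V → V) (q : ℕ → ℝ → V → ℝ) (e : ℕ → ℝ), LimP ν c u v q e) ∧
    ∀ t, δ ≤ t → ∀ x i, |u t x i - U t x i| ≤ δ

end Pool.Agent.Run7.h782.WQ
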