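import Pool.Agent.Run7.h782.WQ.Pub
import Pool.Agent.Run7.h782.WQ.Full
import Pool.Agent.H459R3.NS.Sol

/-!
From `StmFull` to the final statement.
-/

set_option autoImplicit false

open MeasureTheory Set Filter Topology
open scoped ContDiff ENNReal ComplexConjugate

namespace Pool.Agent.Run7.h782.WQ

open H459R3.NS Pool.Agent.Run7.h782 Pool.Agent.Run7.h782.GD Pool.Agent.Run7.h782.GS
open Pool.Agent.Run7.h782.WS Pool.Agent.Run7.h744.WS Pool.Agent.Run7.h969.WS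

theorem dis_of {c : K3 → C3} (h : Dist c) : Dis c := ⟨h.real, h.divfree, h.grow⟩

theorem kd_sub' (k : K3) (v w : C3) : kd k (v - w) = kd k v - kd k w := by
  simp only [kd, Pi.sub_apply, mul_sub, Finset.sum_sub_distrib]

theorem kd_smul_self (k : K3) (a : ℂ) : kd k (fun i => (k i : ℂ) * a) = (GD.sq k : ℂ) * a := by
  simp only [kd, GD.sq]
  push_cast
  rw [Finset.sum_mul]
  exact Finset.sum_congr rfl fun i _ => by ring

theorem sq_ne {k : K3} (hk : k ≠ 0) : (GD.sq k : ℂ) ≠ 0 := by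
  have h : GD.sq k ≠ 0 := by
    intro h
    apply hk
    funext i
    have h1 := (Finset.sum_eq_zero_iff_of_nonneg (fun j _ => sq_nonneg ((k j : ℝ)))).1 h i
      (Finset.mem_univ i)
    have h2 : (k i : ℝ) = 0 := by simpa using h1
    exact_mod_cast h2
  exact_mod_cast h

theorem isDiv_iff {R : Fin 3 → Fin 3 → V → ℝ} {c : K3 → C3} (hd : Dv c) :
    IsPDiv R c ↔ IsDiv R c := by
  constructor
  · intro h k hk
    obtain ⟨a, ha⟩ := h k hk
    set v : C3 := fun i => ∑ j, (k j : ℂ) * fr (R i j) k with hv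
    have e : c k = (2 * Real.pi * Complex.I : ℂ) • v + fun i => (k i : ℂ) * a := by
      funext i
      rw [ha i, Pi.add_apply, Pi.smul_apply, smul_eq_mul, mul_comm a]
    have h1 : kd k (c k) = 0 := hd k
    rw [e, kd_add, kd_smul, kd_smul_self] at h1
    have hs := sq_ne hk
    show c k = (2 * Real.pi * Complex.I : ℂ) • prj k v
    rw [e]
    funext i
    have h2 : a = -(2 * Real.pi * Complex.I * kd k v / (GD.sq k : ℂ)) := by
      field_simp
      linear_combination h1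
    simp only [Pi.add_apply, Pi.smul_apply, smul_eq_mul, prj]
    rw [h2]
    ring
  · intro h k hk
    set v : C3 := fun i => ∑ j, (k j : ℂ) * fr (R i j) k with hv
    refine ⟨-(2 * Real.pi * Complex.I * (kd k v / (GD.sq k : ℂ))), fun i => ?_⟩
    have h1 : c k = (2 * Real.pi * Complex.I : ℂ) • prj k v := h k hk
    rw [h1, Pi.smul_apply, smul_eq_mul, prj]
    show _ = 2 * Real.pi * Complex.I * v i + _
    ring

theorem vw_of {ν T : ℝ} {c : K3 → C3} {u : ℝ → V → V} (h : VW ν T c u) : VeryWeak ν T c u :=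
  ⟨h.meas, h.sq, h.div, h.weak⟩

theorem vw_to {ν T : ℝ} {c : K3 → C3} {u : ℝ → V → V} (h : VeryWeak ν T c u) : VW ν T c u :=
  ⟨h.meas, h.sq, h.div, h.weak⟩

theorem comp_smooth {ψ : V → V} (h : ContDiff ℝ ∞ ψ) (i : Fin 3) : ContDiff ℝ ∞ fun x => ψ x i :=
  contDiff_pi.1 h i

theorem comp_per {ψ : V → V} (h : Per ψ) (i : Fin 3) : Per fun x => ψ x i := fun j x => by
  show ψ (x + Pi.single j 1) i = ψ x i
  rw [h j x]

theorem approx_of {ν : ℝ} {c : K3 → C3} {u : ℝ → V → V} {v : ℕ → ℝ → V → V}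
    {q : ℕ → ℝ → V → ℝ} {e : ℕ → ℝ} (h : LimP ν c u v q e) : Approximates ν c u v q where
  sol := h.sol
  init ψ hψ hp := by
    have h1 : Tendsto (fun j => ∑ i, ∫ x in cube, v j 0 x i * ψ x i) atTop (𝓝 (pairing c ψ)) :=
      tendsto_finsetSum _ fun i _ => h.init i (fun x => ψ x i) (comp_smooth hψ i) (comp_per hp i)
    refine h1.congr fun j => ?_
    rw [integral_finsetSum]
    intro i _
    exact integrableOn_cube ((((h.sol j 1).sp (t := 0) ⟨le_rfl, one_pos⟩ i).smooth.continuous).mul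
      (comp_smooth hψ i).continuous)
  unif τ hτ ε hε := by
    have h1 := h.ez.eventually_le_const (show (0 : ℝ) < min τ ε by positivity)
    filter_upwards [h1] with j hj t ht x i
    exact (h.unif j t ((hj.trans (min_le_left _ _)).trans ht) (hτ.trans_le ht) x i).trans
      (hj.trans (min_le_right _ _))
  l2 := h.l2

/-- The final statement. -/
theorem final (hF : StmFull) (ν : ℝ) (hν : 0 < ν) (c : K3 → C3) (hc : Dist c) (Q : ℕ → ℝ)
    (hQ : ∀ n, 1 ≤ Q n) :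
    ((∃ T : ℝ, 0 < T ∧ ∃ u : ℝ → V → V, VeryWeak ν T c u ∧ ∀ n, InL2Lq T u (2 * Q n)) ↔
      ∃ R : Fin 3 → Fin 3 → V → ℝ, Stress R ∧ IsPDiv R c ∧
        ∀ n i j, IntegrableOn (fun x => |R i j x| ^ Q n) cube) ∧
    ((∃ R : Fin 3 → Fin 3 → V → ℝ, Stress R ∧ IsPDiv R c ∧
        ∀ n i j, IntegrableOn (fun x => |R i j x| ^ Q n) cube) →
      ∀ (U : ℝ → V → V) (P : ℝ → V → ℝ), (∀ T, IsSol ν T U P) →
        (∀ i, ((∫ x in cube, U 0 x i : ℝ) : ℂ) = c 0 i) → ∀ φ : ℝ → ℝ, IsGauge φ →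
        ∀ δ : ℝ, 0 < δ → ∃ (u : ℝ → V → V) (p : ℝ → V → ℝ), Instant ν c Q φ u p ∧
          ∀ t, δ ≤ t → ∀ x i, |u t x i - U t x i| ≤ δ) := by
  have hc' := dis_of hc
  obtain ⟨h1, h2⟩ := hF ν hν c hc' Q hQ
  have hR : (∃ R : Fin 3 → Fin 3 → V → ℝ, Stress R ∧ IsPDiv R c ∧
        ∀ n i j, IntegrableOn (fun x => |R i j x| ^ Q n) cube) ↔
      ∃ R : Fin 3 → Fin 3 → V → ℝ, Str R ∧ IsDiv R c ∧
        ∀ n i j, IntegrableOn (fun x => |R i j x| ^ Q n) cube := by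
    constructor
    · rintro ⟨R, a, b, d⟩
      exact ⟨R, ⟨a.per, a.sym, a.int⟩, (isDiv_iff hc'.dv).1 b, d⟩
    · rintro ⟨R, a, b, d⟩
      exact ⟨R, ⟨a.per, a.sym, a.int⟩, (isDiv_iff hc'.dv).2 b, d⟩
  refine ⟨?_, ?_⟩
  · rw [hR, ← h1]
    constructor
    · rintro ⟨T, hT, u, a, b⟩
      exact ⟨T, hT, u, vw_to a, b⟩
    · rintro ⟨T, hT, u, a, b⟩
      exact ⟨T, hT, u, vw_of a, b⟩
  · intro hRR U P hU hm φ hφ δ hδ
    obtain ⟨R, a, b, d⟩ := hR.1 hRR
    obtain ⟨u, p, hO, hVW, hLq, hatt, hbd, hbes, ⟨v, q, e, hlim⟩, hcl⟩ :=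
      h2 R a b d U P hU hm φ ⟨hφ.zero, hφ.nonneg, hφ.conv, hφ.small⟩ δ hδ
    refine ⟨u, p, ⟨hO, fun T hT => vw_of (hVW T hT), hLq, ?_, hbd, hbes, v, q, approx_of hlim⟩,
      hcl⟩
    intro ψ hψ hp
    have h3 : Tendsto (fun t => ∑ i, ∫ x in cube, u t x i * ψ x i) (𝓝[>] 0)
        (𝓝 (pairing c ψ)) :=
      tendsto_finsetSum _ fun i _ => hatt i (fun x => ψ x i) (comp_smooth hψ i) (comp_per hp i)
    refine h3.congr' ?_
    filter_upwards [self_mem_nhdsWithin] with t ht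
    rw [integral_finsetSum]
    intro i _
    exact integrableOn_cube ((contDiff_pi.1 (slice_smooth hO ht) i).continuous.mul
      (comp_smooth hψ i).continuous)

end Pool.Agent.Run7.h782.WQ
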