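import Pool.Agent.Run7.h782.WQ.Full
import Pool.Agent.Run7.h782.WQ.Defs4

/-!
Assembly of the final theorem.
-/

set_option autoImplicit false

open MeasureTheory Set Filter Topology
open scoped ContDiff ENNReal ComplexConjugate

namespace Pool.Agent.Run7.h782.WQ

open H459R3.NS Pool.Agent.Run7.h782 Pool.Agent.Run7.h782.GD Pool.Agent.Run7.h782.GS
open Pool.Agent.Run7.h782.WS Pool.Agent.Run7.h744.WS Pool.Agent.Run7.h969.WS

theorem fullS (hInit : StmInitS) (hNec : StmNecQ) (hVW : StmVW) (hPair : StmPairH)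
    (hS : StmStrong) : StmFinal := by
  intro ν hν c hc Q hQ
  -- the second part
  have key : ∀ R : Fin 3 → Fin 3 → V → ℝ, Str R → IsDiv R c →
      (∀ n i j, IntegrableOn (fun x => |R i j x| ^ Q n) cube) →
      ∀ (U : ℝ → V → V) (P : ℝ → V → ℝ), (∀ T, IsSol ν T U P) →
      (∀ i, ((∫ x in cube, U 0 x i : ℝ) : ℂ) = c 0 i) →
      ∀ φ : ℝ → ℝ, Gauge φ → ∀ δ : ℝ, 0 < δ →
      ∃ (u : ℝ → V → V) (p : ℝ → V → ℝ), OSol ν u p ∧ (∀ T : ℝ, 0 < T → VW ν T c u) ∧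
        (∀ T : ℝ, 0 < T → ∀ n, InLq T u (2 * Q n)) ∧
        (∀ (i : Fin 3) (ψ : V → ℝ), ContDiff ℝ ∞ ψ → Per ψ →
          Tendsto (fun t => ∫ x in cube, u t x i * ψ x) (𝓝[>] 0) (𝓝 (pr c i ψ))) ∧
        (∀ (n : ℕ) (ε : ℝ), 0 < ε → ∀ᶠ t in 𝓝[>] 0, Nr (Q n) ε (vf (u t)) c) ∧
        (∃ h : ℝ → ℝ, (∀ t, 0 < t → ∀ x i, |u t x i| ≤ h t) ∧
          Tendsto (fun t => Real.sqrt t * h t) (𝓝[>] 0) (𝓝 0) ∧
          IntegrableOn (fun t => φ (Real.sqrt t * h t) / t) (Ioc 0 1)) ∧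
        ((Summable fun k => ‖c k‖) → ∀ i,
          Tendsto (fun t => besG φ (fun x => u t x i - (S (fun k => c k i) x).re))
            (𝓝[>] 0) (𝓝 0)) ∧
        (∃ (v : ℕ → ℝ → V → V) (q : ℕ → ℝ → V → ℝ) (e : ℕ → ℝ), LimT ν Q c u v q e) ∧
        ∀ t, δ ≤ t → ∀ x i, |u t x i - U t x i| ≤ δ := by
    intro R hR hRc hRQ U P hU hm φ hφ δ hδ
    obtain ⟨u, p, hO, hL, hq, hk, hb, hh, hbes, hlim, hcl⟩ :=
      hInit ν hν c hc.herm hc.dv R hR hRc Q hQ hRQ U P hU hm φ hφ δ hδ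
    have hpair : ∀ (i : Fin 3) (ψ : V → ℝ), ContDiff ℝ ∞ ψ → Per ψ →
        Tendsto (fun t => ∫ x in cube, u t x i * ψ x) (𝓝[>] 0) (𝓝 (pr c i ψ)) := by
      intro i ψ hψ hψp
      refine hPair (fun t x => u t x i) (fun k => c k i)
        (fun t ht => contDiff_pi.1 (slice_smooth hO ht) i)
        (fun t ht j x => ?_) (fun k => ?_) ?_ ψ hψ hψp
      · show u t (x + Pi.single j 1) i = u t x i
        rw [hO.per_u t ht j x]
      · exact (tendsto_pi_nhds.1 (hk k)) i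
      · obtain ⟨C, hC⟩ := hb
        exact ⟨C, fun t ht ht1 k => (norm_le_pi_norm (vf (u t) k) i).trans (hC t ht ht1 k)⟩
    exact ⟨u, p, hO, fun T hT => hVW ν hν c u p hO hL hpair T hT,
      fun T _ n => inLq_of hO (hQ n) (hq n T), hpair,
      fun n ε hε => hS ν hν c hc.herm hc.dv R hR hRc u p hO hL hk (Q n) (hQ n)
        (fun i j => hRQ n i j) (inLq_of hO (hQ n) (hq n 1)) ε hε, hh, hbes, hlim, hcl⟩
  refine ⟨⟨?_, ?_⟩, key⟩
  · rintro ⟨T, hT, u, hu, huQ⟩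
    obtain ⟨R, hR, hRc, hRQ⟩ := hNec ν hν c hc T hT u hu
    exact ⟨R, hR, hRc, fun n i j => hRQ (Q n) (hQ n) (huQ n) i j⟩
  · rintro ⟨R, hR, hRc, hRQ⟩
    have hre : ∀ i, (((c 0 i).re : ℝ) : ℂ) = c 0 i := by
      intro i
      have h := hc.herm 0 i
      rw [neg_zero] at h
      exact Complex.conj_eq_iff_re.1 h.symm
    obtain ⟨u, p, hO, hVWu, hLq, -⟩ := key R hR hRc hRQ
      (fun _ _ i => (c 0 i).re) (fun _ _ => 0) (fun T => isSol_cst ν T _)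
      (fun i => by
        rw [setIntegral_const, smul_eq_mul, ← hre i]
        simp [cube, measureReal_def, Real.volume_Icc_pi])
      _ gauge_cube 1 one_pos
    exact ⟨1, one_pos, u, hVWu 1 one_pos, fun n => hLq 1 one_pos n⟩

end Pool.Agent.Run7.h782.WQ
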