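import Pool.Agent.Run7.h782.WQ.PubS
import Pool.Agent.Run7.h782.WQ.FullS
import Pool.Agent.Run7.h782.WQ.Final
import Pool.Agent.H459R3.NS.Main

/-!
From `StmFinal` to the final statement.
-/

set_option autoImplicit false

open MeasureTheory Set Filter Topology
open scoped ContDiff ENNReal ComplexConjugate

namespace Pool.Agent.Run7.h782.WQ.Inst

open H459R3.NS Pool.Agent.Run7.h782 Pool.Agent.Run7.h782.GD Pool.Agent.Run7.h782.GS
open Pool.Agent.Run7.h782.WS Pool.Agent.Run7.h744.WS Pool.Agent.Run7.h969.WS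

theorem dv_vf {w : V → V} (hw : ∀ i, SP (fun x => w x i))
    (hd : ∀ x, ∑ i, pd i (fun y => w y i) x = 0) : Dv (vf w) := by
  exact fun k => fr_div (v := fun i x => w x i) hw hd k

theorem dis_of' {c : K3 → C3} (h : Dist c) : Dis c := ⟨h.real, h.divfree, h.grow⟩

theorem isDiv_iff' {R : Fin 3 → Fin 3 → V → ℝ} {c : K3 → C3} (hd : Dv c) :
    IsPDiv R c ↔ IsDiv R c := WQ.isDiv_iff hd

theorem near_of {p ε : ℝ} {c d : K3 → C3} (hc : Dv c) (hd : Dv d) (h : Nr p ε c d) :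
    Near p ε c d := by
  obtain ⟨h0, R, hR, hRc, hRp⟩ := h
  refine ⟨h0, R, ⟨hR.per, hR.sym, hR.int⟩, (isDiv_iff' ?_).2 hRc, hRp⟩
  intro k
  show kd k (c k - d k) = 0
  rw [kd_sub', hc k, hd k, sub_zero]

theorem vw_of' {ν T : ℝ} {c : K3 → C3} {u : ℝ → V → V} (h : VW ν T c u) : VeryWeak ν T c u :=
  ⟨h.meas, h.sq, h.div, h.weak⟩

theorem vw_to' {ν T : ℝ} {c : K3 → C3} {u : ℝ → V → V} (h : VeryWeak ν T c u) : VW ν T c u :=
  ⟨h.meas, h.sq, h.div, h.weak⟩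

theorem approxS {ν : ℝ} {c : K3 → C3} (hc : Dv c) {Q : ℕ → ℝ} {u : ℝ → V → V}
    {v : ℕ → ℝ → V → V} {q : ℕ → ℝ → V → ℝ} {e : ℕ → ℝ} (h : LimT ν Q c u v q e) :
    Approximates ν c Q u v q where
  sol := h.sol
  init n ε hε := by
    filter_upwards [h.near n ε hε] with j hj
    exact near_of (dv_vf (fun i => (h.sol j 1).sp (t := 0) ⟨le_rfl, one_pos⟩ i)
      ((h.sol j 1).divfree 0 ⟨le_rfl, one_pos⟩)) hc hj
  unif τ hτ ε hε := by
    have h1 := h.ez.eventually_le_const (show (0 : ℝ) < min τ ε by positivity)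
    filter_upwards [h1] with j hj t ht x i
    exact (h.unif j t ((hj.trans (min_le_left _ _)).trans ht) (hτ.trans_le ht) x i).trans
      (hj.trans (min_le_right _ _))
  lq := h.lq

/-- The statement. -/
theorem finalS (hF : StmFinal) (ν : ℝ) (hν : 0 < ν) (Q : ℕ → ℝ) (hQ : ∀ n, 1 ≤ Q n)
    (c : K3 → C3) (hc : Dist c) :
    [∃ T : ℝ, 0 < T ∧ ∃ u : ℝ → V → V, VeryWeak ν T c u ∧ ∀ n, InL2Lq T u (2 * Q n),
      ∃ R : Fin 3 → Fin 3 → V → ℝ, Stress R ∧ IsPDiv R c ∧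
        ∀ n i j, IntegrableOn (fun x => |R i j x| ^ Q n) cube,
      ∀ (U : ℝ → V → V) (P : ℝ → V → ℝ), (∀ T, IsSol ν T U P) →
        (∀ i, ((∫ x in cube, U 0 x i : ℝ) : ℂ) = c 0 i) → ∀ φ : ℝ → ℝ, IsGauge φ →
        ∀ δ : ℝ, 0 < δ → ∃ (u : ℝ → V → V) (p : ℝ → V → ℝ), Instant ν c Q φ u p ∧
          ∀ t, δ ≤ t → ∀ x i, |u t x i - U t x i| ≤ δ].TFAE := by
  have hc' := dis_of' hc
  obtain ⟨h1, h2⟩ := hF ν hν c hc' Q hQ
  have hR : (∃ R : Fin 3 → Fin 3 → V → ℝ, Stress R ∧ IsPDiv R c ∧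
        ∀ n i j, IntegrableOn (fun x => |R i j x| ^ Q n) cube) ↔
      ∃ R : Fin 3 → Fin 3 → V → ℝ, Str R ∧ IsDiv R c ∧
        ∀ n i j, IntegrableOn (fun x => |R i j x| ^ Q n) cube := by
    constructor
    · rintro ⟨R, a, b, d⟩
      exact ⟨R, ⟨a.per, a.sym, a.int⟩, (isDiv_iff' hc'.dv).1 b, d⟩
    · rintro ⟨R, a, b, d⟩
      exact ⟨R, ⟨a.per, a.sym, a.int⟩, (isDiv_iff' hc'.dv).2 b, d⟩
  tfae_have 1 → 2 := by
    rintro ⟨T, hT, u, a, b⟩
    rw [hR, ← h1]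
    exact ⟨T, hT, u, vw_to' a, b⟩
  tfae_have 2 → 3 := by
    intro hRR U P hU hm φ hφ δ hδ
    obtain ⟨R, a, b, d⟩ := hR.1 hRR
    obtain ⟨u, p, hO, hVW, hLq, hatt, hst, hbd, hbes, ⟨v, q, e, hlim⟩, hcl⟩ :=
      h2 R a b d U P hU hm φ ⟨hφ.zero, hφ.nonneg, hφ.conv, hφ.small⟩ δ hδ
    refine ⟨u, p, ⟨hO, fun T hT => vw_of' (hVW T hT), hLq, ?_, ?_, hbd, hbes, v, q,
      approxS hc'.dv hlim⟩, hcl⟩
    · intro ψ hψ hp
      have h3 : Tendsto (fun t => ∑ i, ∫ x in cube, u t x i * ψ x i) (𝓝[>] 0)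
          (𝓝 (pairing c ψ)) :=
        tendsto_finsetSum _ fun i _ => hatt i (fun x => ψ x i) (comp_smooth hψ i) (comp_per hp i)
      refine h3.congr' ?_
      filter_upwards [self_mem_nhdsWithin] with t ht
      rw [integral_finsetSum]
      intro i _
      exact integrableOn_cube ((contDiff_pi.1 (slice_smooth hO ht) i).continuous.mul
        (comp_smooth hψ i).continuous)
    · intro n ε hε
      filter_upwards [hst n ε hε, self_mem_nhdsWithin] with t ht ht0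
      exact near_of (dv_vf (fun i => ⟨contDiff_pi.1 (slice_smooth hO ht0) i, fun j x => by
        show u t (x + Pi.single j 1) i = u t x i
        rw [hO.per_u t ht0 j x]⟩) (hO.divfree t ht0)) hc'.dv ht
  tfae_have 3 → 1 := by
    intro key
    have hre : ∀ i, (((c 0 i).re : ℝ) : ℂ) = c 0 i := by
      intro i
      have h := hc'.herm 0 i
      rw [neg_zero] at h
      exact Complex.conj_eq_iff_re.1 h.symm
    have g : IsGauge (fun x => x ^ 3) :=
      ⟨gauge_cube.zero, gauge_cube.nonneg, gauge_cube.conv, gauge_cube.small⟩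
    obtain ⟨u, p, hI, -⟩ := key
      (fun _ _ i => (c 0 i).re) (fun _ _ => 0) (fun T => isSol_cst ν T _)
      (fun i => by
        rw [setIntegral_const, smul_eq_mul, ← hre i]
        simp [cube, measureReal_def, Real.volume_Icc_pi])
      _ g 1 one_pos
    exact ⟨1, one_pos, u, hI.weak 1 one_pos, fun n => hI.lq 1 one_pos n⟩
  tfae_finish

end Pool.Agent.Run7.h782.WQ.Inst
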