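import Pool.Agent.Run7.h782.WQ.Defs

/-!
Assembly.
-/

set_option autoImplicit false

open MeasureTheory Set Filter Topology
open scoped ContDiff ComplexConjugate NNReal

namespace Pool.Agent.Run7.h782.WQ

open H459R3.NS Pool.Agent.Run7.h782 Pool.Agent.Run7.h782.GD Pool.Agent.Run7.h782.GS
open Pool.Agent.Run7.h782.WS Pool.Agent.Run7.h744.WS Pool.Agent.Run7.h969.WS

theorem pd_cst (i : Fin 3) (c : ℝ) : pd i (fun _ : V => c) = fun _ => 0 := by
  funext x
  unfold pd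
  simp

/-- Constant fields are solutions. -/
theorem isSol_cst (ν T : ℝ) (m : V) : IsSol ν T (fun _ _ => m) (fun _ _ => 0) where
  smooth_u := contDiffOn_const
  smooth_p := contDiffOn_const
  per_u _ _ _ _ := rfl
  per_p _ _ _ _ := rfl
  divfree t _ x := Finset.sum_eq_zero fun i _ => by
    rw [pd_cst]
  momentum t _ x i := by
    simp [pd_cst]

theorem gauge_cube : Gauge (fun x => x ^ 3) where
  zero := by norm_num
  nonneg x hx := by positivity
  conv := convexOn_pow 3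
  small := by
    have h : Tendsto (fun x : ℝ => x) (𝓝[>] 0) (𝓝 0) := nhdsWithin_le_nhds
    refine h.congr' ?_
    filter_upwards [self_mem_nhdsWithin] with x hx
    have hx' : x ≠ 0 := ne_of_gt hx
    field_simp

theorem char (hInit : StmInitQ) (hNec : StmNec) (hVW : StmVW) (hPair : StmPairH) : StmChar := by
  intro ν hν c hc
  -- the second part
  have key : ∀ R : Fin 3 → Fin 3 → V → ℝ, Str R → IsDiv R c → ∀ Q : ℕ → ℝ, (∀ n, 1 ≤ Q n) →
      (∀ n i j, IntegrableOn (fun x => |R i j x| ^ Q n) cube) →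
      ∀ (U : ℝ → V → V) (P : ℝ → V → ℝ), (∀ T, IsSol ν T U P) →
      (∀ i, ((∫ x in cube, U 0 x i : ℝ) : ℂ) = c 0 i) →
      ∀ φ : ℝ → ℝ, Gauge φ → ∀ δ : ℝ, 0 < δ →
      ∃ (u : ℝ → V → V) (p : ℝ → V → ℝ), OSol ν u p ∧ (∀ T : ℝ, 0 < T → VW ν T c u) ∧
        (∀ (i : Fin 3) (ψ : V → ℝ), ContDiff ℝ ∞ ψ → Per ψ →
          Tendsto (fun t => ∫ x in cube, u t x i * ψ x) (𝓝[>] 0) (𝓝 (pr c i ψ))) ∧
        (∀ n (T : ℝ), IntegrableOn
          (fun t => (∫ x in cube, ∑ i, |u t x i| ^ (2 * Q n)) ^ (1 / Q n)) (Ioc 0 T)) ∧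
        (∃ h : ℝ → ℝ, (∀ t, 0 < t → ∀ x i, |u t x i| ≤ h t) ∧
          Tendsto (fun t => Real.sqrt t * h t) (𝓝[>] 0) (𝓝 0) ∧
          IntegrableOn (fun t => φ (Real.sqrt t * h t) / t) (Ioc 0 1)) ∧
        ((Summable fun k => ‖c k‖) → ∀ i,
          Tendsto (fun t => besG φ (fun x => u t x i - (S (fun k => c k i) x).re))
            (𝓝[>] 0) (𝓝 0)) ∧
        ∀ t, δ ≤ t → ∀ x i, |u t x i - U t x i| ≤ δ := by
    intro R hR hRc Q hQ hRQ U P hU hm φ hφ δ hδ
    obtain ⟨u, p, hO, hL, hq, hk, hb, hh, hbes, hcl⟩ :=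
      hInit ν hν c hc.herm hc.dv R hR hRc Q hQ hRQ U P hU hm φ hφ δ hδ
    have hpair : ∀ (i : Fin 3) (ψ : V → ℝ), ContDiff ℝ ∞ ψ → Per ψ →
        Tendsto (fun t => ∫ x in cube, u t x i * ψ x) (𝓝[>] 0) (𝓝 (pr c i ψ)) := by
      intro i ψ hψ hψp
      refine hPair (fun t x => u t x i) (fun k => c k i)
        (fun t ht => contDiff_pi.1 (slice_smooth hO ht) i)
        (fun t ht j x => ?_) (fun k => ?_) ?_ ψ hψ hψp
      · show u t (x + Pi.single j 1) i = u t x i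
        rw [hO.per_u t ht j x]
      · exact (tendsto_pi_nhds.1 (hk k)) i
      · obtain ⟨C, hC⟩ := hb
        exact ⟨C, fun t ht ht1 k => (norm_le_pi_norm (vf (u t) k) i).trans (hC t ht ht1 k)⟩
    exact ⟨u, p, hO, fun T hT => hVW ν hν c u p hO hL hpair T hT, hpair, hq, hh, hbes, hcl⟩
  refine ⟨⟨?_, ?_⟩, key⟩
  · rintro ⟨T, hT, u, hu⟩
    exact hNec ν hν c hc T hT u hu
  · rintro ⟨R, hR, hRc⟩
    have hre : ∀ i, (((c 0 i).re : ℝ) : ℂ) = c 0 i := by
      intro i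
      have h := hc.herm 0 i
      rw [neg_zero] at h
      exact Complex.conj_eq_iff_re.1 h.symm
    obtain ⟨u, p, hO, hVWu, -⟩ := key R hR hRc (fun _ => 1) (fun _ => le_rfl)
      (fun n i j => by
        simp only [Real.rpow_one]
        exact (hR.int i j).abs)
      (fun _ _ i => (c 0 i).re) (fun _ _ => 0) (fun T => isSol_cst ν T _)
      (fun i => by
        rw [setIntegral_const, smul_eq_mul, ← hre i]
        simp [cube, measureReal_def, Real.volume_Icc_pi])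
      _ gauge_cube 1 one_pos
    exact ⟨1, one_pos, u, hVWu 1 one_pos⟩

end Pool.Agent.Run7.h782.WQ
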