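import Pool.Agent.Run7.h782.WS.Step
import Pool.Agent.Run7.h782.WQ.Defs

/-!
Norms in `L^q` along trajectories near approximate solutions.
-/

set_option autoImplicit false

open MeasureTheory Set Filter Topology
open scoped ContDiff ComplexConjugate NNReal

namespace Pool.Agent.Run7.h782.WQ

open H459R3.NS Pool.Agent.Run7.h782 Pool.Agent.Run7.h782.GD Pool.Agent.Run7.h782.GS
open Pool.Agent.Run7.h782.WS

theorem fn_nonneg (c : Cf) (x : V) : 0 ≤ fn c x := Finset.sum_nonneg fun _ _ => norm_nonneg _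

theorem fp_nonneg (p : ℝ) (c : Cf) : 0 ≤ fp p c :=
  integral_nonneg fun x => Real.rpow_nonneg (fn_nonneg c x) p

theorem rn_nonneg (r : Mf) (x : V) : 0 ≤ rn r x :=
  Finset.sum_nonneg fun _ _ => Finset.sum_nonneg fun _ _ => norm_nonneg _

theorem rp_nonneg (p : ℝ) (r : Mf) : 0 ≤ rp p r :=
  integral_nonneg fun x => Real.rpow_nonneg (rn_nonneg r x) p

/-- The body of the properties of `fp` which are used. -/
structure FpB : Prop where
  up : ∀ (p : ℝ) (c : Cf), 0 < p → L1 c → fp p c ≤ (3 * ∑' k, ‖c k‖) ^ p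
  min : ∀ (q : ℝ) (c d : Cf), 1 ≤ q → L1 c → L1 d →
    fp q (c + d) ^ (1 / q) ≤ fp q c ^ (1 / q) + fp q d ^ (1 / q)

/-- The norm in `L^q`. -/
noncomputable def nq (q : ℝ) (c : Cf) : ℝ := fp q c ^ (1 / q)

theorem nq_nonneg (q : ℝ) (c : Cf) : 0 ≤ nq q c := Real.rpow_nonneg (fp_nonneg q c) _

theorem nq_sq {q : ℝ} (c : Cf) : nq q c ^ 2 = fp q c ^ (2 / q) := by
  rw [nq, ← Real.rpow_natCast, ← Real.rpow_mul (fp_nonneg q c)]
  congr 1
  push_cast
  ring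

theorem FpB.up' (Q : FpB) {q : ℝ} (hq : 1 ≤ q) {c : Cf} (hc : L1 c) : nq q c ≤ 3 * N0 c := by
  have hq0 : 0 < q := by linarith
  have h1 := Q.up q c hq0 hc
  have h2 : (0 : ℝ) ≤ 3 * N0 c := mul_nonneg (by norm_num) (N0_nonneg c)
  have h3 : fp q c ≤ (3 * N0 c) ^ q := by
    rw [N0_eq]
    exact h1
  calc nq q c ≤ ((3 * N0 c) ^ q) ^ (1 / q) :=
        Real.rpow_le_rpow (fp_nonneg q c) h3 (by positivity)
    _ = 3 * N0 c := by
        rw [← Real.rpow_mul h2, mul_one_div_cancel hq0.ne', Real.rpow_one]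

theorem FpB.lip (Q : FpB) {q : ℝ} (hq : 1 ≤ q) {c d : Cf} (hc : L1 c) (hd : L1 d) :
    nq q c ≤ nq q d + 3 * N0 (c - d) := by
  have e : c = d + (c - d) := by abel
  have h1 := Q.min q d (c - d) hq hd (hc.sub hd)
  rw [← e] at h1
  exact h1.trans (add_le_add le_rfl (Q.up' hq (hc.sub hd)))

theorem N0_zero' : N0 (0 : Cf) = 0 := by
  rw [N0_eq]
  simp

theorem N0_neg' (a : Cf) : N0 (-a) = N0 a := by
  rw [N0_eq, N0_eq]
  exact tsum_congr fun k => norm_neg _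

theorem maj_const {b : ℝ → Cf} (hb : Maj b) {t₀ : ℝ} (ht₀ : 0 ≤ t₀) : Maj (fun _ => b t₀) := by
  intro n T
  obtain ⟨A, hA, hA'⟩ := hb n t₀
  exact ⟨A, hA, fun t _ k => hA' t₀ ⟨ht₀, le_rfl⟩ k⟩

theorem FpB.cont (Q : FpB) {q : ℝ} (hq : 1 ≤ q) {b : ℝ → Cf} (hb : Maj b) (hbc : Cnt b) :
    ContinuousOn (fun t => nq q (b t)) (Ici 0) := by
  intro t₀ ht₀
  have ht₀' : 0 ≤ t₀ := ht₀
  -- the distance to `b t₀` is continuous
  have hM : Maj (fun t => b t - b t₀) := hb.sub (maj_const hb ht₀')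
  have hC : Cnt (fun t => b t - b t₀) := hbc.sub (fun k => continuousOn_const)
  have hN : ContinuousOn (fun t => N0 (b t - b t₀)) (Ici 0) := hM.cont hC wt_one
  have h0 : N0 (b t₀ - b t₀) = 0 := by rw [sub_self, N0_zero']
  have h1 := hN t₀ ht₀
  rw [ContinuousWithinAt, h0] at h1
  rw [ContinuousWithinAt, Metric.tendsto_nhds]
  intro ε hε
  have h2 := (h1.const_mul 3).eventually (gt_mem_nhds (show (3 : ℝ) * 0 < ε by linarith))
  filter_upwards [h2, self_mem_nhdsWithin] with t ht hts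
  have l1 := hb.l1 (t := t) hts
  have l2 := hb.l1 (t := t₀) ht₀'
  have a1 := Q.lip hq l1 l2
  have a2 := Q.lip hq l2 l1
  have e : N0 (b t₀ - b t) = N0 (b t - b t₀) := by
    rw [← N0_neg']
    congr 1
    abel
  rw [e] at a2
  rw [Real.dist_eq, abs_lt]
  constructor <;> linarith

theorem N0_add' {a b : Cf} (ha : L1 a) (hb : L1 b) : N0 (a + b) ≤ N0 a + N0 b := by
  rw [N0_eq, N0_eq, N0_eq, ← Summable.tsum_add ha hb]
  exact (ha.add hb).tsum_le_tsum (fun k => norm_add_le _ _) (Summable.add ha hb)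

section
variable {ν L e₁ : ℝ} {B : Finset K3} {U v F a : ℝ → Cf}

theorem majv (A : Appr ν B v F) : Maj v := by
  have h := apprv_maj A
  exact h

/-- The norm in `L² L^q`. -/
theorem lq (Q : FpB) (N : Near ν L e₁ B U v F a) {q : ℝ} (hq : 1 ≤ q) {M₀ M₁ Θ Γ : ℝ}
    (hν : 0 < ν) (hM₀ : 0 ≤ M₀) (hN0U : ∀ t, 0 ≤ t → N0 (U t) ≤ M₀)
    (hN1U : ∀ s t, 0 ≤ s → s ≤ t → ∫ r in s..t, N1 (U r) ≤ M₁) (hL : 0 < L)
    (hL8 : L⁻¹ * (M₀ * M₁) ≤ Θ / 81) (he0 : 0 < e₁) (he3 : e₁ ≤ Θ / 81) (he1 : e₁ ≤ ν)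
    (hvS : ∀ T, 0 ≤ T → ∫ t in (0 : ℝ)..T, fp q (v t) ^ (2 / q) ≤ Γ + Θ / 9) {T : ℝ}
    (hT : 0 ≤ T) :
    ∫ t in (0 : ℝ)..T, fp q (a t - U t) ^ (2 / q) ≤ 3 * Γ + Θ := by
  have he6 : e₁ / ν ≤ 1 := (div_le_one hν).2 he1
  have hLi : 0 < L⁻¹ := inv_pos.2 hL
  have hMv : Maj v := majv N.appr
  have hCv : Cnt v := fun k => (apprv_cnt N.appr k)
  have hMa : Maj (fun t => a t - U t) := (CSol.maj N.sol).sub N.tgt.maj
  have hCa : Cnt (fun t => a t - U t) := (LSol.cnt (CSol.lsol N.sol)).sub N.tgt.cnt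
  have c1 : ContinuousOn (fun t => nq q (v t) ^ 2) (Ici 0) := (Q.cont hq hMv hCv).pow 2
  have c2 : ContinuousOn (fun t => nq q (a t - U t) ^ 2) (Ici 0) := (Q.cont hq hMa hCa).pow 2
  have i1 := ii N.dc1 le_rfl hT
  have i2 := ii c1 le_rfl hT
  have i3 := ii N.tgt.contN1 le_rfl hT
  have i4 := ii c2 le_rfl hT
  simp only [← nq_sq] at hvS ⊢
  have h1 : ∫ t in (0 : ℝ)..T, nq q (a t - U t) ^ 2
      ≤ ∫ t in (0 : ℝ)..T, (27 * e₁ * N1 (a t - vt L U v t) + 3 * (nq q (v t) ^ 2)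
        + 27 * (M₀ * L⁻¹) * N1 (U t)) := by
    refine intervalIntegral.integral_mono_on hT i4
      (((i1.const_mul _).add (i2.const_mul _)).add (i3.const_mul _)) fun t ht => ?_
    have l1 : L1 (a t - vt L U v t) := N.dM.l1 ht.1
    have l2 : L1 (U t - tr L (U t)) := (Maj.l1 N.tgt.maj ht.1).sub (l1_tr L (U t))
    have l3 : L1 (v t) := hMv.l1 ht.1
    have l4 : L1 (a t - U t) := hMa.l1 ht.1
    have e : a t - U t - v t = (a t - vt L U v t) + -(U t - tr L (U t)) := by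
      funext k
      have := N.diff t k
      rw [Pi.sub_apply, Pi.sub_apply, this, Pi.add_apply, Pi.neg_apply]
      abel
    have h2 := Q.lip hq l4 l3
    rw [e] at h2
    have h3 := N0_add' l1 l2.neg
    rw [N0_neg'] at h3
    have h4 : nq q (a t - U t) ≤ 3 * N0 (a t - vt L U v t) + nq q (v t)
        + 3 * N0 (U t - tr L (U t)) := by linarith
    have h5 := sq3 (nq_nonneg q (a t - U t)) h4
    have h6 := N.dsq ht.1
    have h7 := Usub2 N.tgt hM₀ hN0U hL ht.1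
    nlinarith
  rw [intervalIntegral.integral_add ((i1.const_mul _).add (i2.const_mul _)) (i3.const_mul _),
    intervalIntegral.integral_add (i1.const_mul _) (i2.const_mul _),
    intervalIntegral.integral_const_mul, intervalIntegral.integral_const_mul,
    intervalIntegral.integral_const_mul] at h1
  have h5 : 27 * e₁ * (∫ t in (0 : ℝ)..T, N1 (a t - vt L U v t)) ≤ Θ / 3 := by
    have h6 := N.d1 le_rfl hT
    have h7 : 0 ≤ ∫ t in (0 : ℝ)..T, N1 (a t - vt L U v t) :=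
      intervalIntegral.integral_nonneg hT fun r _ => N1_nonneg _
    have h8 : ∫ t in (0 : ℝ)..T, N1 (a t - vt L U v t) ≤ 1 := h6.trans he6
    nlinarith
  have h6 := hvS T hT
  have h7 : 27 * (M₀ * L⁻¹) * (∫ t in (0 : ℝ)..T, N1 (U t)) ≤ Θ / 3 := by
    calc _ ≤ 27 * (M₀ * L⁻¹) * M₁ :=
          mul_le_mul_of_nonneg_left (hN1U 0 T le_rfl hT) (by positivity)
      _ = 27 * (L⁻¹ * (M₀ * M₁)) := by ring
      _ ≤ Θ / 3 := by linarith
  linarith

end

/-- Bessel's inequality. -/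
theorem sum_sq_le_fp (P : Finset K3) {c : Cf} (hc : L1 c) : ∑ p ∈ P, ‖c p‖ ^ 2 ≤ fp 2 c := by
  have hs : ∀ i, Summable fun k => c k i := fun i =>
    Summable.of_norm (Summable.of_nonneg_of_le (fun k => norm_nonneg _)
      (fun k => norm_le_pi_norm (c k) i) hc)
  have h1 : ∀ i, ∑ p ∈ P, ‖c p i‖ ^ 2 ≤ ∫ x in cube, ‖S (fun k => c k i) x‖ ^ 2 := by
    intro i
    rw [integral_norm_sq (hs i), n2_sq]
    refine Summable.sum_le_tsum P (fun _ _ => by positivity) ?_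
    exact summable_sq (hs i)
  have h2 : ∀ v : C3, ‖v‖ ^ 2 ≤ ∑ i, ‖v i‖ ^ 2 := by
    intro v
    have h : ∀ i, ‖v i‖ ≤ Real.sqrt (∑ i, ‖v i‖ ^ 2) := fun i => Real.le_sqrt_of_sq_le
      (Finset.single_le_sum (f := fun i => ‖v i‖ ^ 2) (fun _ _ => by positivity)
        (Finset.mem_univ i))
    have h3 := (pi_norm_le_iff_of_nonneg (Real.sqrt_nonneg _)).2 h
    have h4 := pow_le_pow_left₀ (norm_nonneg v) h3 2
    rwa [Real.sq_sqrt (Finset.sum_nonneg fun _ _ => by positivity)] at h4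
  have hcn : ∀ i, Continuous fun x => ‖S (fun k => c k i) x‖ := fun i =>
    (S_continuous (hs i)).norm
  calc ∑ p ∈ P, ‖c p‖ ^ 2 ≤ ∑ p ∈ P, ∑ i, ‖c p i‖ ^ 2 := Finset.sum_le_sum fun p _ => h2 _
    _ = ∑ i, ∑ p ∈ P, ‖c p i‖ ^ 2 := Finset.sum_comm
    _ ≤ ∑ i, ∫ x in cube, ‖S (fun k => c k i) x‖ ^ 2 := Finset.sum_le_sum fun i _ => h1 i
    _ = ∫ x in cube, ∑ i, ‖S (fun k => c k i) x‖ ^ 2 :=
        (integral_finsetSum _ fun i _ => integrableOn_cube ((hcn i).pow 2)).symm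
    _ ≤ fp 2 c := by
        refine integral_mono (integrableOn_cube (continuous_finsetSum _ fun i _ => (hcn i).pow 2))
          (integrableOn_cube ?_) fun x => ?_
        · exact (continuous_finsetSum _ fun i _ => hcn i).rpow_const fun x => Or.inr (by norm_num)
        · show ∑ i, ‖S (fun k => c k i) x‖ ^ 2 ≤ fn c x ^ (2 : ℝ)
          rw [Real.rpow_two]
          exact Finset.sum_sq_le_sq_sum_of_nonneg fun k _ => norm_nonneg _

end Pool.Agent.Run7.h782.WQ
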