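import Pool.Agent.Run7.h782.GS.Pub

/-!
Initial values of very weak solutions of the Navier-Stokes equations on the torus, and solutions
which are smooth for `t > 0`: the definitions of the final statement.

`V = Fin 3 → ℝ` with the maximum norm, `K3 = Fin 3 → ℤ`, `C3 = Fin 3 → ℂ`. `Per` is periodicity with
respect to `ℤ³`, `cube = [0,1]³`, `fr f k` and `vf w k` are the Fourier coefficients of `f : V → ℝ`
and `w : V → V`, `ee k x = e^(2πik·x)`, `heat s f` is the heat semigroup.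
-/

set_option autoImplicit false

open MeasureTheory Set Filter Topology
open scoped ContDiff ENNReal ComplexConjugate

namespace Pool.Agent.Run7.h782.WQ.Inst

open H459R3.NS Pool.Agent.Run7.h782.GD Pool.Agent.Run7.h782.GS

/-- `c` is the family of the Fourier coefficients of a real divergence free distribution on the
torus. -/
structure Dist (c : K3 → C3) : Prop where
  real : ∀ k i, c (-k) i = conj (c k i)
  divfree : ∀ k, ∑ j, (k j : ℂ) * c k j = 0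
  grow : ∃ (C : ℝ) (m : ℕ), ∀ k, ‖c k‖ ≤ C * (1 + len k) ^ m

/-- The value at the smooth periodic field `ψ` of the distribution with the coefficients `c`. -/
noncomputable def pairing (c : K3 → C3) (ψ : V → V) : ℝ :=
  ∑ i, (∑' k, c k i * conj (vf ψ k i)).re

/-- `R` is a symmetric periodic matrix field, integrable over `[0,1]³`. -/
structure Stress (R : Fin 3 → Fin 3 → V → ℝ) : Prop where
  per : ∀ i j, Per (R i j)
  sym : ∀ i j x, R i j x = R j i x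
  int : ∀ i j, IntegrableOn (R i j) cube

/-- The distribution with the coefficients `c` is `mean + P div R`, `P` the projection to the
divergence free fields: `c = div R + gradient` in all modes `k ≠ 0`. -/
def IsPDiv (R : Fin 3 → Fin 3 → V → ℝ) (c : K3 → C3) : Prop :=
  ∀ k : K3, k ≠ 0 → ∃ a : ℂ, ∀ i,
    c k i = 2 * Real.pi * Complex.I * ∑ j, (k j : ℂ) * fr (R i j) k + a * (k i : ℂ)

/-- The distributions with the coefficients `c` and `d` are `ε`-close in the space `P div L^p`: they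
have the same mean and differ by `P div R` with `∫ |R i j| ^ p ≤ ε`. -/
def Near (p ε : ℝ) (c d : K3 → C3) : Prop :=
  c 0 = d 0 ∧ ∃ R : Fin 3 → Fin 3 → V → ℝ, Stress R ∧ IsPDiv R (fun k => c k - d k) ∧
    ∀ i j, IntegrableOn (fun x => |R i j x| ^ p) cube ∧ ∫ x in cube, |R i j x| ^ p ≤ ε

/-- `u` is a very weak solution of the Navier-Stokes equations (viscosity `ν`, no force) on `(0, T)`
with the initial value `c`: measurable, square integrable over `(0, T) × [0,1]³`, divergence free,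
and for all smooth `ψ` with `div ψ = 0` and all smooth `χ` which vanish near `T` and beyond
`χ(0) ⟨c, ψ⟩ + ∫∫ (χ' u·ψ + χ (∑ uᵢ uⱼ ∂ᵢψⱼ + ν u·Δψ)) = 0`. -/
structure VeryWeak (ν T : ℝ) (c : K3 → C3) (u : ℝ → V → V) : Prop where
  meas : ∀ i, AEStronglyMeasurable (fun z : ℝ × V => u z.1 z.2 i)
    (volume.restrict (Ioo 0 T ×ˢ cube))
  sq : ∀ i, IntegrableOn (fun z : ℝ × V => u z.1 z.2 i ^ 2) (Ioo 0 T ×ˢ cube)
  div : ∀ (χ : ℝ → ℝ) (f : V → ℝ), ContDiff ℝ ∞ χ → (∀ t, T ≤ t → χ t = 0) →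
    ContDiff ℝ ∞ f → Per f →
    ∫ z in Ioo 0 T ×ˢ cube, χ z.1 * ∑ i, u z.1 z.2 i * pd i f z.2 = 0
  weak : ∀ (χ : ℝ → ℝ) (ψ : V → V), ContDiff ℝ ∞ χ → (∃ s < T, ∀ t, s ≤ t → χ t = 0) →
    ContDiff ℝ ∞ ψ → Per ψ → (∀ x, ∑ i, pd i (fun y => ψ y i) x = 0) →
    χ 0 * pairing c ψ
      + ∫ z in Ioo 0 T ×ˢ cube, (deriv χ z.1 * (∑ i, u z.1 z.2 i * ψ z.2 i)
        + χ z.1 * (∑ i, ∑ j, u z.1 z.2 i * u z.1 z.2 j * pd i (fun y => ψ y j) z.2
          + ν * ∑ i, u z.1 z.2 i * ∑ j, pd j (pd j (fun y => ψ y i)) z.2)) = 0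

/-- `u` is in `L²((0, T); L^q)`. -/
def InL2Lq (T : ℝ) (u : ℝ → V → V) (q : ℝ) : Prop :=
  ∫⁻ t in Ioo 0 T, (∫⁻ x in cube, ENNReal.ofReal (∑ i, |u t x i| ^ q)) ^ (2 / q) ≠ ⊤

/-- `φ` is convex and `≥ 0` on `[0, ∞)`, `φ 0 = 0` and `φ x = o(x²)` as `x → 0`. -/
structure IsGauge (φ : ℝ → ℝ) : Prop where
  zero : φ 0 = 0
  nonneg : ∀ x, 0 ≤ x → 0 ≤ φ x
  conv : ConvexOn ℝ (Ici 0) φ
  small : Tendsto (fun x => φ x / x ^ 2) (𝓝[>] 0) (𝓝 0)

/-- The integral of `φ (√s sup |e^{sΔ} f|) / s` over `s > 0` (for `φ x = x ^ q` the `q`-th power of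
the norm of the homogeneous Besov space of order `-1` with indices `∞, q`). -/
noncomputable def besovG (φ : ℝ → ℝ) (f : V → ℝ) : ℝ≥0∞ :=
  ∫⁻ s in Ioi (0 : ℝ), (⨆ x, ENNReal.ofReal (φ (Real.sqrt s * |heat s f x|))) / ENNReal.ofReal s

/-- The global smooth periodic solutions `v j` (with pressures `q j`) tend to `u`: uniformly for
`t ≥ τ` for all `τ > 0` and in `L²((0, T); L^(2 Q n))` for all `T` and `n`; and their initial values
`v j 0` tend to `c` in `P div L^(Q n)` for all `n`. -/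
structure Approximates (ν : ℝ) (c : K3 → C3) (Q : ℕ → ℝ) (u : ℝ → V → V) (v : ℕ → ℝ → V → V)
    (q : ℕ → ℝ → V → ℝ) : Prop where
  sol : ∀ j T, IsSol ν T (v j) (q j)
  init : ∀ (n : ℕ) (ε : ℝ), 0 < ε → ∀ᶠ j in atTop, Near (Q n) ε (vf (v j 0)) c
  unif : ∀ τ : ℝ, 0 < τ → ∀ ε : ℝ, 0 < ε → ∀ᶠ j in atTop,
    ∀ t, τ ≤ t → ∀ x i, |v j t x i - u t x i| ≤ ε
  lq : ∀ (n : ℕ) (T : ℝ), Tendsto (fun j => ∫⁻ t in Ioo 0 T, (∫⁻ x in cube,
    ENNReal.ofReal (∑ i, |v j t x i - u t x i| ^ (2 * Q n))) ^ (1 / Q n)) atTop (𝓝 0)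

/-- The properties of the solutions of the theorem: `(u, p)` is a smooth solution for all `t > 0`;
`u` is a very weak solution from `c` on `(0, T)` and in `L²((0, T); L^(2 Q n))` for all `T` and `n`;
`u(t) → c` in the sense of distributions and in `P div L^(Q n)` for all `n` as `t → 0`;
`|u(t)| ≤ h(t)` with `√t h(t) → 0` as `t → 0` and `∫₀¹ φ (√t h(t)) dt / t < ∞`; `u(t) → c` in
`besovG` if `∑ |c k| < ∞`; and `u` is a limit of global smooth solutions. -/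
structure Instant (ν : ℝ) (c : K3 → C3) (Q : ℕ → ℝ) (φ : ℝ → ℝ) (u : ℝ → V → V)
    (p : ℝ → V → ℝ) : Prop where
  sol : OSol ν u p
  weak : ∀ T, 0 < T → VeryWeak ν T c u
  lq : ∀ T, 0 < T → ∀ n, InL2Lq T u (2 * Q n)
  attain : ∀ ψ : V → V, ContDiff ℝ ∞ ψ → Per ψ →
    Tendsto (fun t => ∫ x in cube, ∑ i, u t x i * ψ x i) (𝓝[>] 0) (𝓝 (pairing c ψ))
  strong : ∀ (n : ℕ) (ε : ℝ), 0 < ε → ∀ᶠ t in 𝓝[>] 0, Near (Q n) ε (vf (u t)) c
  bound : ∃ h : ℝ → ℝ, (∀ t, 0 < t → ∀ x i, |u t x i| ≤ h t) ∧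
    Tendsto (fun t => Real.sqrt t * h t) (𝓝[>] 0) (𝓝 0) ∧
    IntegrableOn (fun t => φ (Real.sqrt t * h t) / t) (Ioc 0 1)
  besov : (Summable fun k => ‖c k‖) → ∀ i, Tendsto
    (fun t => besovG φ (fun x => u t x i - (∑' k, c k i * ee k x).re)) (𝓝[>] 0) (𝓝 0)
  lim : ∃ (v : ℕ → ℝ → V → V) (q : ℕ → ℝ → V → ℝ), Approximates ν c Q u v q

end Pool.Agent.Run7.h782.WQ.Inst
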